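import Mathlib

/-!
# Locally compact quantum groups (von Neumann algebraic data), convolution semigroups

Definitions used in the statement for MP_893ae4_an. Inner products are linear in the second
variable, and `ω_{ξ,η}` denotes the vector functional `x ↦ ⟪η, x ξ⟫`. Functionals on a von
Neumann algebra `M ⊆ B(H)`, and the comultiplication, are given as functions on `B(H)` of which
only the values on `M` are used.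
-/

open scoped InnerProductSpace ComplexOrder Topology
open Filter

namespace Pool.Agent.Lib.MP_893ae4_anV.LCQG

noncomputable section

variable {H K : Type*} [NormedAddCommGroup H] [InnerProductSpace ℂ H] [CompleteSpace H]
  [NormedAddCommGroup K] [InnerProductSpace ℂ K] [CompleteSpace K]

/-- `K` is the Hilbert space tensor product `H ⊗ H`, the elementary tensors being
`a ⊗ b = L a b = R b a`. -/
structure HilbertTensor (H K : Type*) [NormedAddCommGroup H] [InnerProductSpace ℂ H]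
    [NormedAddCommGroup K] [InnerProductSpace ℂ K] where
  /-- `L a : b ↦ a ⊗ b` -/
  L : H → H →L[ℂ] K
  /-- `R b : a ↦ a ⊗ b` -/
  R : H → H →L[ℂ] K
  L_eq_R : ∀ a b : H, L a b = R b a
  inner_eq : ∀ a b c d : H, ⟪L a b, L c d⟫_ℂ = ⟪a, c⟫_ℂ * ⟪b, d⟫_ℂ
  total : Dense (Submodule.span ℂ {ζ : K | ∃ a b : H, ζ = L a b} : Set K)

/-- `z = x ⊗ y` on `K = H ⊗ H`. -/
def IsTens (T : HilbertTensor H K) (z : K →L[ℂ] K) (x y : H →L[ℂ] H) : Prop :=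
  ∀ a b : H, z (T.L a b) = T.L (x a) (y b)

/-- The slice `(ω_{ξ,η} ⊗ id)(z)`: one has `⟪b, (sliceL T z ξ η) a⟫ = ⟪η ⊗ b, z (ξ ⊗ a)⟫`. -/
def sliceL (T : HilbertTensor H K) (z : K →L[ℂ] K) (ξ η : H) : H →L[ℂ] H :=
  ContinuousLinearMap.adjoint (T.L η) ∘L z ∘L T.L ξ

/-- The slice `(id ⊗ ω_{ξ,η})(z)`: one has `⟪b, (sliceR T z ξ η) a⟫ = ⟪b ⊗ η, z (a ⊗ ξ)⟫`. -/
def sliceR (T : HilbertTensor H K) (z : K →L[ℂ] K) (ξ η : H) : H →L[ℂ] H :=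
  ContinuousLinearMap.adjoint (T.R η) ∘L z ∘L T.R ξ

/-- `M ⊗̄ M`: the double commutant of the set of the operators `x ⊗ y` with `x, y ∈ M`. -/
def tensorSq (T : HilbertTensor H K) (M : VonNeumannAlgebra H) : Set (K →L[ℂ] K) :=
  Set.centralizer (Set.centralizer {z | ∃ x ∈ M, ∃ y ∈ M, IsTens T z x y})

/-- `M ⊗̄ B(H)`: the commutant of `M' ⊗ 1`. -/
def leftAmpl (T : HilbertTensor H K) (M : VonNeumannAlgebra H) : Set (K →L[ℂ] K) :=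
  Set.centralizer {z | ∃ g ∈ M.commutant, IsTens T z g 1}

/-- `B(H) ⊗̄ M`: the commutant of `1 ⊗ M'`. -/
def rightAmpl (T : HilbertTensor H K) (M : VonNeumannAlgebra H) : Set (K →L[ℂ] K) :=
  Set.centralizer {z | ∃ g ∈ M.commutant, IsTens T z 1 g}

/-- `f` is a normal functional on `M`, i.e. an element of the predual `M_*`, the norm closure of
the span of the vector functionals. -/
def IsNormal (M : VonNeumannAlgebra H) (f : (H →L[ℂ] H) → ℂ) : Prop :=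
  ∀ δ > 0, ∃ (n : ℕ) (ξ η : Fin n → H), ∀ x ∈ M, ‖f x - ∑ i, ⟪η i, x (ξ i)⟫_ℂ‖ ≤ δ * ‖x‖

/-- `φ` is a state on `M`. -/
structure IsState (M : VonNeumannAlgebra H) (φ : (H →L[ℂ] H) → ℂ) : Prop where
  add : ∀ x ∈ M, ∀ y ∈ M, φ (x + y) = φ x + φ y
  smul : ∀ c : ℂ, ∀ x ∈ M, φ (c • x) = c * φ x
  nonneg : ∀ x ∈ M, 0 ≤ φ (star x * x)
  one : φ 1 = 1

/-- The von Neumann algebraic data of a locally compact quantum group: a von Neumann algebra `M`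
on `H` with a comultiplication `Δ`, and the left and right regular unitaries `W` and `V` on
`K = H ⊗ H`. Every locally compact quantum group in the sense of Kustermans and Vaes gives such
data, `H` being the GNS space of the left Haar weight. -/
structure QuantumGroup (H K : Type*) [NormedAddCommGroup H] [InnerProductSpace ℂ H]
    [CompleteSpace H] [NormedAddCommGroup K] [InnerProductSpace ℂ K] [CompleteSpace K] where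
  /-- the Hilbert space tensor product `K = H ⊗ H` -/
  T : HilbertTensor H K
  /-- the von Neumann algebra -/
  M : VonNeumannAlgebra H
  /-- the comultiplication: a normal injective unital *-homomorphism `M → M ⊗̄ M` -/
  Δ : (H →L[ℂ] H) → (K →L[ℂ] K)
  Δ_mem : ∀ x ∈ M, Δ x ∈ tensorSq T M
  Δ_add : ∀ x ∈ M, ∀ y ∈ M, Δ (x + y) = Δ x + Δ y
  Δ_smul : ∀ c : ℂ, ∀ x ∈ M, Δ (c • x) = c • Δ x
  Δ_mul : ∀ x ∈ M, ∀ y ∈ M, Δ (x * y) = Δ x * Δ y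
  Δ_star : ∀ x ∈ M, Δ (star x) = star (Δ x)
  Δ_one : Δ 1 = 1
  Δ_injective : ∀ x ∈ M, ∀ y ∈ M, Δ x = Δ y → x = y
  Δ_normal : ∀ ζ ζ' : K, IsNormal M fun x => ⟪ζ', Δ x ζ⟫_ℂ
  /-- coassociativity: `(ω₁ ⊗ ω₂)(Δ((id ⊗ ω₃)(Δ(x)))) = (ω₂ ⊗ ω₃)(Δ((ω₁ ⊗ id)(Δ(x))))` for
  `ω_i = ω_{ξ_i,η_i}` -/
  Δ_coassoc : ∀ x ∈ M, ∀ ξ₁ ξ₂ ξ₃ η₁ η₂ η₃ : H,
    ⟪T.L η₁ η₂, Δ (sliceR T (Δ x) ξ₃ η₃) (T.L ξ₁ ξ₂)⟫_ℂ =
      ⟪T.L η₂ η₃, Δ (sliceL T (Δ x) ξ₁ η₁) (T.L ξ₂ ξ₃)⟫_ℂ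
  /-- the left regular unitary, in `M ⊗̄ B(H)` -/
  W : K →L[ℂ] K
  W_mem : W ∈ leftAmpl T M
  W_unitary : star W * W = 1 ∧ W * star W = 1
  /-- `Δ(x) = W* (1 ⊗ x) W` -/
  W_impl : ∀ x ∈ M, ∀ X : K →L[ℂ] K, IsTens T X 1 x → Δ x = star W * X * W
  /-- `(Δ ⊗ id)(W) = W₁₃ W₂₃`: one has `(ω₁ ⊗ ω₂)(Δ((id ⊗ ω₃)(W))) = ω₃(λ(ω₁) λ(ω₂))` with
  `λ(ω) = (ω ⊗ id)(W)` -/
  W_corep : ∀ ξ₁ ξ₂ ξ₃ η₁ η₂ η₃ : H,
    ⟪T.L η₁ η₂, Δ (sliceR T W ξ₃ η₃) (T.L ξ₁ ξ₂)⟫_ℂ =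
      ⟪η₃, sliceL T W ξ₁ η₁ (sliceL T W ξ₂ η₂ ξ₃)⟫_ℂ
  /-- the right regular unitary, in `B(H) ⊗̄ M` -/
  V : K →L[ℂ] K
  V_mem : V ∈ rightAmpl T M
  V_unitary : star V * V = 1 ∧ V * star V = 1
  /-- `Δ(x) = V (x ⊗ 1) V*` -/
  V_impl : ∀ x ∈ M, ∀ X : K →L[ℂ] K, IsTens T X x 1 → Δ x = V * X * star V
  /-- `(id ⊗ Δ)(V) = V₁₂ V₁₃`: one has `(ω₂ ⊗ ω₃)(Δ((ω₁ ⊗ id)(V))) = ω₁(ρ(ω₂) ρ(ω₃))` with
  `ρ(ω) = (id ⊗ ω)(V)` -/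
  V_corep : ∀ ξ₁ ξ₂ ξ₃ η₁ η₂ η₃ : H,
    ⟪T.L η₂ η₃, Δ (sliceL T V ξ₁ η₁) (T.L ξ₂ ξ₃)⟫_ℂ =
      ⟪η₁, sliceR T V ξ₂ η₂ (sliceR T V ξ₃ η₃ ξ₁)⟫_ℂ

/-- `ρ = μ ⋆ ν := (μ ⊗ ν) ∘ Δ` on `M`: for every `x ∈ M` one has `ρ(x) = μ(y)`, where
`y = (id ⊗ ν)(Δ(x)) ∈ M` is the operator with `⟪η, y ξ⟫ = ν((ω_{ξ,η} ⊗ id)(Δ(x)))`. -/
def IsConv (Q : QuantumGroup H K) (μ ν ρ : (H →L[ℂ] H) → ℂ) : Prop :=
  ∀ x ∈ Q.M, ∃ y ∈ Q.M,
    (∀ ξ η : H, ⟪η, y ξ⟫_ℂ = ν (sliceL Q.T (Q.Δ x) ξ η)) ∧ ρ x = μ y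

/-- Co-amenability: some state `ε` of `M` satisfies `ε((id ⊗ ω)(W)) = ω(1)` for all vector
functionals `ω`, that is, `ε` restricts to the counit of the C*-algebra `C₀`, the closed linear
span of the slices `(id ⊗ ω)(W)`. -/
def CoAmenable (Q : QuantumGroup H K) : Prop :=
  ∃ ε : (H →L[ℂ] H) → ℂ, IsState Q.M ε ∧ ∀ ξ η : H, ε (sliceR Q.T Q.W ξ η) = ⟪η, ξ⟫_ℂ

/-- `(μ_t)_{t > 0}`, completed by `μ_0 = ε_u` (the counit), is a weak* continuous convolution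
semigroup of states with `μ_t ∈ M_*` for all `t > 0`. The continuity is tested on the slices
`(id ⊗ ω_{ξ,η})(W)`, on which the counit takes the value `⟪η, ξ⟫`. -/
structure IsSemigroup (Q : QuantumGroup H K) (μ : ℝ → (H →L[ℂ] H) → ℂ) : Prop where
  state : ∀ t > 0, IsState Q.M (μ t)
  normal : ∀ t > 0, IsNormal Q.M (μ t)
  conv : ∀ s > 0, ∀ t > 0, IsConv Q (μ s) (μ t) (μ (s + t))
  continuousOn : ∀ ξ η : H, ContinuousOn (fun t => μ t (sliceR Q.T Q.W ξ η)) (Set.Ioi 0)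
  tendsto_zero : ∀ ξ η : H,
    Tendsto (fun t => μ t (sliceR Q.T Q.W ξ η)) (𝓝[>] 0) (𝓝 ⟪η, ξ⟫_ℂ)

/-- Norm convergence in the dual of `M`. -/
def NormTendsto (M : VonNeumannAlgebra H) (l : Filter ℝ) (F : ℝ → (H →L[ℂ] H) → ℂ)
    (f : (H →L[ℂ] H) → ℂ) : Prop :=
  ∀ δ > 0, ∀ᶠ t in l, ∀ x ∈ M, ‖F t x - f x‖ ≤ δ * ‖x‖

/-- `t ↦ μ_t` is norm continuous on `(0, ∞)`, and `μ_t ⋆ f → f` and `f ⋆ μ_t → f` in norm as
`t → 0+`, for every `f ∈ M_*`. -/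
structure IsStronglyContinuous (Q : QuantumGroup H K) (μ : ℝ → (H →L[ℂ] H) → ℂ) : Prop where
  continuous : ∀ s > 0, NormTendsto Q.M (𝓝 s) μ (μ s)
  left : ∀ f, IsNormal Q.M f → ∃ g : ℝ → (H →L[ℂ] H) → ℂ,
    (∀ t > 0, IsConv Q (μ t) f (g t)) ∧ NormTendsto Q.M (𝓝[>] 0) g f
  right : ∀ f, IsNormal Q.M f → ∃ g : ℝ → (H →L[ℂ] H) → ℂ,
    (∀ t > 0, IsConv Q f (μ t) (g t)) ∧ NormTendsto Q.M (𝓝[>] 0) g f

end

end Pool.Agent.Lib.MP_893ae4_anV.LCQG
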