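import Pool.Agent.Lib.MP_893ae4_anV.Predual

/-!
Hopf-von Neumann algebras.
-/

open scoped InnerProductSpace TensorProduct ComplexOrder Topology
open UniformSpace Filter

namespace Pool.Agent.Lib.MP_893ae4_anV

noncomputable section

universe u

variable {H : Type u} [NormedAddCommGroup H] [InnerProductSpace ℂ H] [CompleteSpace H]

lemma isClosed_tensorSq (M : VonNeumannAlgebra H) :
    IsClosed (tensorSq M : Set (HH H →L[ℂ] HH H)) := by
  unfold tensorSq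
  rw [StarSubalgebra.coe_centralizer]
  exact Set.isClosed_centralizer _

/-- The C*-algebra structure of the tensor square (not an instance). -/
@[reducible] def cstarTensorSq (M : VonNeumannAlgebra H) : CStarAlgebra ↥(tensorSq M) :=
  haveI := isClosed_tensorSq M
  StarSubalgebra.cstarAlgebra (tensorSq M)

lemma norm_starAlgHom_le (M : VonNeumannAlgebra H) (φ : Alg M →⋆ₐ[ℂ] ↥(tensorSq M))
    (x : Alg M) : ‖φ x‖ ≤ ‖x‖ := by
  let _ := cstarVN M
  let _ := cstarTensorSq M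
  exact NonUnitalStarAlgHom.norm_apply_le (A := Alg M) (B := ↥(tensorSq M)) φ x

/-- A Hopf-von Neumann algebra: a von Neumann algebra `M` on a Hilbert space `H` with a normal
injective unital *-homomorphism `Δ : M → M ⊗̄ M` which is coassociative. -/
structure HopfVonNeumann (H : Type u) [NormedAddCommGroup H] [InnerProductSpace ℂ H]
    [CompleteSpace H] where
  /-- the von Neumann algebra -/
  M : VonNeumannAlgebra H
  /-- the comultiplication -/
  Δ : Alg M →⋆ₐ[ℂ] ↥(tensorSq M)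
  /-- `Δ` is injective -/
  injective : Function.Injective Δ
  /-- `Δ` is normal: vector functionals on `M ⊗̄ M` are pulled back to normal functionals -/
  normal : ∀ ζ ζ' : HH H, ∃ f : L1 M,
    ∀ x : Alg M, f x = ⟪ζ', (Δ x : HH H →L[ℂ] HH H) ζ⟫_ℂ
  /-- coassociativity `(Δ ⊗ id)Δ = (id ⊗ Δ)Δ`, tested against elementary vector functionals
  `ω_{ξ₁,η₁} ⊗ ω_{ξ₂,η₂} ⊗ ω_{ξ₃,η₃}` -/
  coassoc : ∀ (x : Alg M) (ξ₁ ξ₂ ξ₃ η₁ η₂ η₃ : H),
    ⟪tm η₁ η₂, (Δ (sr (Δ x) ξ₃ η₃) : HH H →L[ℂ] HH H) (tm ξ₁ ξ₂)⟫_ℂ =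
      ⟪tm η₂ η₃, (Δ (sl (Δ x) ξ₁ η₁) : HH H →L[ℂ] HH H) (tm ξ₂ ξ₃)⟫_ℂ

namespace HopfVonNeumann

variable (Q : HopfVonNeumann H)

lemma norm_Δ_le (x : Alg Q.M) : ‖Q.Δ x‖ ≤ ‖x‖ := norm_starAlgHom_le Q.M Q.Δ x

end HopfVonNeumann

end

end Pool.Agent.Lib.MP_893ae4_anV
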