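import Pool.Agent.Lib.MP_893ae4_anV.CauchySchwarz
import Pool.Agent.Lib.MP_893ae4_anV.HopfDef

/-!
Hopf-von Neumann algebras with left and right regular unitaries (the von Neumann algebraic data
of a locally compact quantum group), counits and approximate identities.
-/

open scoped InnerProductSpace TensorProduct ComplexOrder Topology
open UniformSpace Filter

namespace Pool.Agent.Lib.MP_893ae4_anV

noncomputable section

universe u

variable {H : Type u} [NormedAddCommGroup H] [InnerProductSpace ℂ H] [CompleteSpace H]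

lemma norm_tens_le (x y : H →L[ℂ] H) : ‖tens x y‖ ≤ ‖x‖ * ‖y‖ := by
  unfold tens
  refine (ContinuousLinearMap.opNorm_extend_le (N := 1) _ denseRange_incl
    (fun z => ?_)).trans ?_
  · rw [NNReal.coe_one, one_mul]; exact (norm_incl z).ge
  · rw [NNReal.coe_one, one_mul]
    refine (ContinuousLinearMap.opNorm_comp_le _ _).trans ?_
    have h1 : ‖(incl : (H ⊗[ℂ] H) →L[ℂ] HH H)‖ ≤ 1 :=
      ContinuousLinearMap.opNorm_le_bound _ zero_le_one fun z => by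
        rw [one_mul]; exact (norm_incl z).le
    calc ‖(incl : (H ⊗[ℂ] H) →L[ℂ] HH H)‖ * ‖TensorProduct.mapL x y‖
        ≤ 1 * (‖x‖ * ‖y‖) :=
          mul_le_mul h1 (TensorProduct.norm_mapL_le x y)
            (ContinuousLinearMap.opNorm_nonneg _) zero_le_one
      _ = _ := one_mul _

/-- `M ⊗̄ B(H)`, realised as the commutant of `M' ⊗ 1`. -/
def leftAmpl (M : VonNeumannAlgebra H) : StarSubalgebra ℂ (HH H →L[ℂ] HH H) :=
  StarSubalgebra.centralizer ℂ {z : HH H →L[ℂ] HH H | ∃ g ∈ M.commutant, z = tens g 1}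

/-- `B(H) ⊗̄ M`, realised as the commutant of `1 ⊗ M'`. -/
def rightAmpl (M : VonNeumannAlgebra H) : StarSubalgebra ℂ (HH H →L[ℂ] HH H) :=
  StarSubalgebra.centralizer ℂ {z : HH H →L[ℂ] HH H | ∃ g ∈ M.commutant, z = tens 1 g}

lemma sliceR_mem_of_leftAmpl {M : VonNeumannAlgebra H} {z : HH H →L[ℂ] HH H}
    (hz : z ∈ leftAmpl M) (ξ η : H) : sliceR z ξ η ∈ M := by
  rw [← VonNeumannAlgebra.commutant_commutant M, VonNeumannAlgebra.mem_commutant_iff]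
  intro g hg
  exact sliceR_comm ((StarSubalgebra.mem_centralizer_iff ℂ).1 hz _ ⟨g, hg, rfl⟩).1 ξ η

lemma sliceL_mem_of_rightAmpl {M : VonNeumannAlgebra H} {z : HH H →L[ℂ] HH H}
    (hz : z ∈ rightAmpl M) (ξ η : H) : sliceL z ξ η ∈ M := by
  rw [← VonNeumannAlgebra.commutant_commutant M, VonNeumannAlgebra.mem_commutant_iff]
  intro g hg
  exact sliceL_comm ((StarSubalgebra.mem_centralizer_iff ℂ).1 hz _ ⟨g, hg, rfl⟩).1 ξ η

/-- Slice `(id ⊗ ω_{ξ,η})(W) ∈ M` of `W ∈ M ⊗̄ B(H)`. -/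
def slcR {M : VonNeumannAlgebra H} (W : ↥(leftAmpl M)) (ξ η : H) : Alg M :=
  ⟨sliceR (W : HH H →L[ℂ] HH H) ξ η, sliceR_mem_of_leftAmpl W.2 ξ η⟩

/-- Slice `(ω_{ξ,η} ⊗ id)(V) ∈ M` of `V ∈ B(H) ⊗̄ M`. -/
def slcL {M : VonNeumannAlgebra H} (V : ↥(rightAmpl M)) (ξ η : H) : Alg M :=
  ⟨sliceL (V : HH H →L[ℂ] HH H) ξ η, sliceL_mem_of_rightAmpl V.2 ξ η⟩

/-- A Hopf-von Neumann algebra with left and right regular unitaries. Every locally compact
quantum group in the sense of Kustermans and Vaes gives such data: `H` is the GNS space of the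
left Haar weight, `M` the von Neumann algebra, `W` and `V` the left and right regular
representations. -/
structure QuantumGroup (H : Type u) [NormedAddCommGroup H] [InnerProductSpace ℂ H]
    [CompleteSpace H] extends HopfVonNeumann H where
  /-- the left regular unitary `W ∈ M ⊗̄ B(H)` -/
  W : ↥(leftAmpl M)
  W_star_mul : star W * W = 1
  W_mul_star : W * star W = 1
  /-- `Δ(x) = W* (1 ⊗ x) W` -/
  W_impl : ∀ x : Alg M, (Δ x : HH H →L[ℂ] HH H) =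
    star (W : HH H →L[ℂ] HH H) * tens 1 (x : H →L[ℂ] H) * (W : HH H →L[ℂ] HH H)
  /-- `(Δ ⊗ id)(W) = W₁₃ W₂₃`, tested against elementary vector functionals -/
  W_corep : ∀ ξ₁ η₁ ξ₂ η₂ ξ₃ η₃ : H,
    ⟪tm η₁ η₂, (Δ (slcR W ξ₃ η₃) : HH H →L[ℂ] HH H) (tm ξ₁ ξ₂)⟫_ℂ =
      ⟪tm η₂ η₃, tens 1 (sliceL (W : HH H →L[ℂ] HH H) ξ₁ η₁)
        ((W : HH H →L[ℂ] HH H) (tm ξ₂ ξ₃))⟫_ℂ
  /-- the right regular unitary `V ∈ B(H) ⊗̄ M` -/
  V : ↥(rightAmpl M)
  V_star_mul : star V * V = 1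
  V_mul_star : V * star V = 1
  /-- `Δ(x) = V (x ⊗ 1) V*` -/
  V_impl : ∀ x : Alg M, (Δ x : HH H →L[ℂ] HH H) =
    (V : HH H →L[ℂ] HH H) * tens (x : H →L[ℂ] H) 1 * star (V : HH H →L[ℂ] HH H)
  /-- `(id ⊗ Δ)(V) = V₁₂ V₁₃`, tested against elementary vector functionals -/
  V_corep : ∀ ξ₁ η₁ ξ₂ η₂ ξ₃ η₃ : H,
    ⟪tm η₂ η₃, (Δ (slcL V ξ₁ η₁) : HH H →L[ℂ] HH H) (tm ξ₂ ξ₃)⟫_ℂ =
      ⟪tm η₁ η₂, (V : HH H →L[ℂ] HH H)
        (tens (sliceR (V : HH H →L[ℂ] HH H) ξ₃ η₃) 1 (tm ξ₁ ξ₂))⟫_ℂ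

lemma inner_slcR {M : VonNeumannAlgebra H} (W : ↥(leftAmpl M)) (ξ η a b : H) :
    ⟪b, (slcR W ξ η : H →L[ℂ] H) a⟫_ℂ = ⟪tm b η, (W : HH H →L[ℂ] HH H) (tm a ξ)⟫_ℂ :=
  inner_sliceR _ _ _ _ _

lemma inner_slcL {M : VonNeumannAlgebra H} (V : ↥(rightAmpl M)) (ξ η a b : H) :
    ⟪b, (slcL V ξ η : H →L[ℂ] H) a⟫_ℂ = ⟪tm η b, (V : HH H →L[ℂ] HH H) (tm ξ a)⟫_ℂ :=
  inner_sliceL _ _ _ _ _

lemma tens_one_mem_leftAmpl (M : VonNeumannAlgebra H) (x : H →L[ℂ] H) :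
    tens 1 x ∈ leftAmpl M := by
  unfold leftAmpl
  rw [StarSubalgebra.mem_centralizer_iff]
  rintro z ⟨g, hg, rfl⟩
  rw [star_tens, tens_mul, tens_mul, tens_mul, tens_mul]
  simp

lemma tens_one_mem_rightAmpl (M : VonNeumannAlgebra H) (x : H →L[ℂ] H) :
    tens x 1 ∈ rightAmpl M := by
  unfold rightAmpl
  rw [StarSubalgebra.mem_centralizer_iff]
  rintro z ⟨g, hg, rfl⟩
  rw [star_tens, tens_mul, tens_mul, tens_mul, tens_mul]
  simp

/-- Norm of an element with `U* U = 1`. -/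
lemma norm_le_one_of_star_mul {A : Type*} [NormedRing A] [StarRing A] [CStarRing A]
    (h1 : ‖(1 : A)‖ ≤ 1) {U : A} (hU : star U * U = 1) : ‖U‖ ≤ 1 := by
  have h := CStarRing.norm_star_mul_self (x := U)
  rw [hU] at h
  nlinarith [norm_nonneg U]

lemma norm_one_le {N : StarSubalgebra ℂ (HH H →L[ℂ] HH H)} : ‖(1 : ↥N)‖ ≤ 1 := by
  have h : ‖(1 : ↥N)‖ = ‖(1 : HH H →L[ℂ] HH H)‖ := rfl
  rw [h]
  exact ContinuousLinearMap.norm_id_le

/-- Left estimate. -/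
lemma left_estimate (Q : QuantumGroup H) {φ : StrongDual ℂ (Alg Q.M)} (hφ : IsState φ)
    (η : H) (x : Alg Q.M) :
    ‖φ (sr (Q.Δ x) η η) - ⟪η, (x : H →L[ℂ] H) η⟫_ℂ‖ ≤
      2 * (‖η‖ * ‖x‖) * √(2 * ‖η‖ ^ 2 - 2 * (φ (slcR Q.W η η)).re) := by
  set N := leftAmpl Q.M with hN0
  have hN : ∀ z ∈ N, (ContinuousLinearMap.adjoint (Rop η) ∘L z ∘L (Rop η)) ∈
      Q.M.toStarSubalgebra := fun z hz => sliceR_mem_of_leftAmpl hz η η
  let X : ↥N := ⟨tens 1 (x : H →L[ℂ] H), tens_one_mem_leftAmpl Q.M _⟩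
  have hU : ‖Q.W‖ ≤ 1 := norm_le_one_of_star_mul (A := ↥N) norm_one_le Q.W_star_mul
  have hb := hφ.conj_bound (Rop η) N hN Q.W X hU
  have e1 : compr Q.M (Rop η) N hN (star Q.W * X * Q.W) = sr (Q.Δ x) η η := by
    refine alg_ext fun a b => ?_
    rw [inner_compr, inner_sr, Q.W_impl x]
    rfl
  have e2 : compr Q.M (Rop η) N hN X = ⟪η, (x : H →L[ℂ] H) η⟫_ℂ • (1 : Alg Q.M) := by
    refine alg_ext fun a b => ?_
    rw [inner_compr, coe_smul_alg, smul_apply, inner_smul_right, Rop_apply, Rop_apply]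
    have : (X : HH H →L[ℂ] HH H) (tm a η) = tm a ((x : H →L[ℂ] H) η) := tens_tm _ _ _ _
    rw [this, inner_tm, mul_comm]
    rfl
  have e3 : compr Q.M (Rop η) N hN (star (Q.W - 1) * (Q.W - 1)) =
      (2 * ((‖η‖ ^ 2 : ℝ) : ℂ)) • (1 : Alg Q.M) - slcR Q.W η η - star (slcR Q.W η η) := by
    have e4 : star (Q.W - 1) * (Q.W - 1) = (1 + 1 : ↥N) - Q.W - star Q.W := by
      rw [star_sub, star_one, mul_sub, sub_mul, sub_mul, mul_one, one_mul, one_mul,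
        Q.W_star_mul]
      abel
    rw [e4, map_sub, map_sub, map_add, compr_star]
    have e5 : compr Q.M (Rop η) N hN (1 : ↥N) = (((‖η‖ ^ 2 : ℝ) : ℂ)) • (1 : Alg Q.M) := by
      refine alg_ext fun a b => ?_
      rw [inner_compr, coe_smul_alg, smul_apply, inner_smul_right, Rop_apply, Rop_apply]
      have : ((1 : ↥N) : HH H →L[ℂ] HH H) (tm a η) = tm a η := rfl
      rw [this, inner_tm, mul_comm]
      have h2 := inner_self_eq_norm_sq_to_K (𝕜 := ℂ) η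
      rw [h2]
      simp
    have e6 : compr Q.M (Rop η) N hN Q.W = slcR Q.W η η := rfl
    rw [e5, e6, two_mul, add_smul]
  rw [e1, e2, e3, map_smul, hφ.one, smul_eq_mul, mul_one, map_sub, map_sub, map_smul, hφ.one,
    smul_eq_mul, mul_one, hφ.map_star] at hb
  have e7 : (2 * (((‖η‖ ^ 2 : ℝ) : ℂ)) - φ (slcR Q.W η η) -
      (starRingEnd ℂ) (φ (slcR Q.W η η))).re = 2 * ‖η‖ ^ 2 - 2 * (φ (slcR Q.W η η)).re := by
    rw [Complex.sub_re, Complex.sub_re, Complex.conj_re]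
    have : (2 * (((‖η‖ ^ 2 : ℝ) : ℂ))).re = 2 * ‖η‖ ^ 2 := by
      rw [Complex.mul_re, Complex.ofReal_re, Complex.ofReal_im]; simp
    rw [this]; ring
  rw [e7] at hb
  refine hb.trans ?_
  refine mul_le_mul_of_nonneg_right ?_ (Real.sqrt_nonneg _)
  refine mul_le_mul_of_nonneg_left ?_ zero_le_two
  refine mul_le_mul (norm_Rop_le η) ?_ (norm_nonneg _) (norm_nonneg _)
  have h3 : ‖X‖ = ‖tens 1 (x : H →L[ℂ] H)‖ := rfl
  rw [h3]
  refine (norm_tens_le _ _).trans ?_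
  calc ‖(1 : H →L[ℂ] H)‖ * ‖(x : H →L[ℂ] H)‖ ≤ 1 * ‖(x : H →L[ℂ] H)‖ :=
        mul_le_mul_of_nonneg_right ContinuousLinearMap.norm_id_le (norm_nonneg _)
    _ = ‖x‖ := one_mul _

/-- Right estimate. -/
lemma right_estimate (Q : QuantumGroup H) {φ : StrongDual ℂ (Alg Q.M)} (hφ : IsState φ)
    (η : H) (x : Alg Q.M) :
    ‖φ (sl (Q.Δ x) η η) - ⟪η, (x : H →L[ℂ] H) η⟫_ℂ‖ ≤
      2 * (‖η‖ * ‖x‖) * √(2 * ‖η‖ ^ 2 - 2 * (φ (slcL Q.V η η)).re) := by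
  set N := rightAmpl Q.M with hN0
  have hN : ∀ z ∈ N, (ContinuousLinearMap.adjoint (Lop η) ∘L z ∘L (Lop η)) ∈
      Q.M.toStarSubalgebra := fun z hz => sliceL_mem_of_rightAmpl hz η η
  let X : ↥N := ⟨tens (x : H →L[ℂ] H) 1, tens_one_mem_rightAmpl Q.M _⟩
  have hU : ‖star Q.V‖ ≤ 1 := by
    rw [norm_star]
    exact norm_le_one_of_star_mul (A := ↥N) norm_one_le Q.V_star_mul
  have hb := hφ.conj_bound (Lop η) N hN (star Q.V) X hU
  have e1 : compr Q.M (Lop η) N hN (star (star Q.V) * X * star Q.V) = sl (Q.Δ x) η η := by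
    refine alg_ext fun a b => ?_
    rw [inner_compr, inner_sl, Q.V_impl x, star_star]
    rfl
  have e2 : compr Q.M (Lop η) N hN X = ⟪η, (x : H →L[ℂ] H) η⟫_ℂ • (1 : Alg Q.M) := by
    refine alg_ext fun a b => ?_
    rw [inner_compr, coe_smul_alg, smul_apply, inner_smul_right, Lop_apply, Lop_apply]
    have : (X : HH H →L[ℂ] HH H) (tm η a) = tm ((x : H →L[ℂ] H) η) a := tens_tm _ _ _ _
    rw [this, inner_tm]
    rfl
  have e3 : compr Q.M (Lop η) N hN (star (star Q.V - 1) * (star Q.V - 1)) =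
      (2 * ((‖η‖ ^ 2 : ℝ) : ℂ)) • (1 : Alg Q.M) - slcL Q.V η η - star (slcL Q.V η η) := by
    have e4 : star (star Q.V - 1) * (star Q.V - 1) = (1 + 1 : ↥N) - Q.V - star Q.V := by
      rw [star_sub, star_one, star_star, mul_sub, sub_mul, sub_mul, mul_one, one_mul, one_mul,
        Q.V_mul_star]
      abel
    rw [e4, map_sub, map_sub, map_add, compr_star]
    have e5 : compr Q.M (Lop η) N hN (1 : ↥N) = (((‖η‖ ^ 2 : ℝ) : ℂ)) • (1 : Alg Q.M) := by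
      refine alg_ext fun a b => ?_
      rw [inner_compr, coe_smul_alg, smul_apply, inner_smul_right, Lop_apply, Lop_apply]
      have : ((1 : ↥N) : HH H →L[ℂ] HH H) (tm η a) = tm η a := rfl
      rw [this, inner_tm]
      have h2 := inner_self_eq_norm_sq_to_K (𝕜 := ℂ) η
      rw [h2]
      simp
    have e6 : compr Q.M (Lop η) N hN Q.V = slcL Q.V η η := rfl
    rw [e5, e6, two_mul, add_smul]
  rw [e1, e2, e3, map_smul, hφ.one, smul_eq_mul, mul_one, map_sub, map_sub, map_smul, hφ.one,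
    smul_eq_mul, mul_one, hφ.map_star] at hb
  have e7 : (2 * (((‖η‖ ^ 2 : ℝ) : ℂ)) - φ (slcL Q.V η η) -
      (starRingEnd ℂ) (φ (slcL Q.V η η))).re = 2 * ‖η‖ ^ 2 - 2 * (φ (slcL Q.V η η)).re := by
    rw [Complex.sub_re, Complex.sub_re, Complex.conj_re]
    have : (2 * (((‖η‖ ^ 2 : ℝ) : ℂ))).re = 2 * ‖η‖ ^ 2 := by
      rw [Complex.mul_re, Complex.ofReal_re, Complex.ofReal_im]; simp
    rw [this]; ring
  rw [e7] at hb
  refine hb.trans ?_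
  refine mul_le_mul_of_nonneg_right ?_ (Real.sqrt_nonneg _)
  refine mul_le_mul_of_nonneg_left ?_ zero_le_two
  refine mul_le_mul (norm_Lop_le η) ?_ (norm_nonneg _) (norm_nonneg _)
  have h3 : ‖X‖ = ‖tens (x : H →L[ℂ] H) 1‖ := rfl
  rw [h3]
  refine (norm_tens_le _ _).trans ?_
  calc ‖(x : H →L[ℂ] H)‖ * ‖(1 : H →L[ℂ] H)‖ ≤ ‖(x : H →L[ℂ] H)‖ * 1 :=
        mul_le_mul_of_nonneg_left ContinuousLinearMap.norm_id_le (norm_nonneg _)
    _ = ‖x‖ := mul_one _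

end

end Pool.Agent.Lib.MP_893ae4_anV
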