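import Mathlib
import Pool.Agent.Lib.MP_893ae4_anV.QG
import Pool.Agent.Lib.MP_893ae4_anV.LCQGDefs

section

/-!
# Semigroups in Banach algebras with an approximate identity in a closed convex semigroup `S`
-/

set_option autoImplicit false

open Filter Topology NormedSpace

namespace Pool.Agent.Lib.MP_893ae4_anV

section Unital

variable {U : Type*} [NormedRing U] [NormedAlgebra ℝ U]

/-- `x` is `c` times an element of `S`, where `c ≥ 0`. -/
def InC (S : Set U) (c : ℝ) (x : U) : Prop := 0 ≤ c ∧ ∃ s ∈ S, x = c • s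

theorem InC.add {S : Set U} (hc : Convex ℝ S) {c d : ℝ} {x y : U} (hx : InC S c x)
    (hy : InC S d y) : InC S (c + d) (x + y) := by
  obtain ⟨hc0, s, hs, rfl⟩ := hx
  obtain ⟨hd0, r, hr, rfl⟩ := hy
  refine ⟨add_nonneg hc0 hd0, ?_⟩
  rcases (add_nonneg hc0 hd0).eq_or_lt with h | h
  · have h1 : c = 0 := by linarith
    have h2 : d = 0 := by linarith
    exact ⟨s, hs, by simp [h1, h2]⟩
  · refine ⟨(c / (c + d)) • s + (d / (c + d)) • r, hc hs hr (by positivity) (by positivity)
      (by field_simp), ?_⟩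
    rw [smul_add, smul_smul, smul_smul, mul_div_cancel₀ _ h.ne', mul_div_cancel₀ _ h.ne']

theorem InC.smul {S : Set U} {a c : ℝ} {x : U} (ha : 0 ≤ a) (hx : InC S c x) :
    InC S (a * c) (a • x) := by
  obtain ⟨hc0, s, hs, rfl⟩ := hx
  exact ⟨mul_nonneg ha hc0, s, hs, by rw [smul_smul]⟩

theorem InC.mul {S : Set U} (hm : ∀ a ∈ S, ∀ b ∈ S, a * b ∈ S) {c d : ℝ} {x y : U}
    (hx : InC S c x) (hy : InC S d y) : InC S (c * d) (x * y) := by
  obtain ⟨hc0, s, hs, rfl⟩ := hx
  obtain ⟨hd0, r, hr, rfl⟩ := hy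
  exact ⟨mul_nonneg hc0 hd0, s * r, hm s hs r hr, by rw [smul_mul_smul_comm]⟩

theorem InC.norm_le {S : Set U} (hn : ∀ a ∈ S, ‖a‖ ≤ 1) {c : ℝ} {x : U} (hx : InC S c x) :
    ‖x‖ ≤ c := by
  obtain ⟨hc0, s, hs, rfl⟩ := hx
  rw [norm_smul, Real.norm_of_nonneg hc0]
  exact mul_le_of_le_one_right hc0 (hn s hs)

theorem InC.lim {S : Set U} (hcl : IsClosed S) {c : ℕ → ℝ} {x : ℕ → U} {c₀ : ℝ} {x₀ : U}
    (hx : ∀ n, InC S (c n) (x n)) (h1 : Tendsto c atTop (𝓝 c₀)) (h2 : Tendsto x atTop (𝓝 x₀))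
    (hc₀ : 0 < c₀) : InC S c₀ x₀ := by
  refine ⟨hc₀.le, c₀⁻¹ • x₀, ?_, by rw [smul_smul, mul_inv_cancel₀ hc₀.ne', one_smul]⟩
  have h3 : Tendsto (fun n => (c n)⁻¹ • x n) atTop (𝓝 (c₀⁻¹ • x₀)) :=
    (h1.inv₀ hc₀.ne').smul h2
  refine hcl.mem_of_tendsto h3 ?_
  filter_upwards [h1.eventually (lt_mem_nhds hc₀)] with n hn
  obtain ⟨-, s, hs, hxs⟩ := hx n
  rw [hxs, smul_smul, inv_mul_cancel₀ hn.ne', one_smul]
  exact hs

variable (e : ℕ → U)

/-- Sum of the first `N` elements. -/
def P (N : ℕ) : U := ∑ n ∈ Finset.range N, e n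

theorem P_succ (N : ℕ) : P e (N + 1) = P e N + e N := Finset.sum_range_succ _ _

/-- The approximating semigroups. -/
noncomputable def E (N : ℕ) (t : ℝ) : U := Real.exp (-(N * t)) • exp (t • P e N)

theorem E_zero (N : ℕ) : E e N 0 = 1 := by simp [E]

variable [CompleteSpace U]

theorem E_add (N : ℕ) (s t : ℝ) : E e N (s + t) = E e N s * E e N t := by
  let _ : NormedAlgebra ℚ U := NormedAlgebra.restrictScalars ℚ ℝ U
  unfold E
  rw [add_smul, exp_add_of_commute (((Commute.refl (P e N)).smul_left s).smul_right t),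
    smul_mul_smul_comm, ← Real.exp_add]
  congr 2
  ring

theorem hasDerivAt_E (N : ℕ) (t : ℝ) : HasDerivAt (E e N) (E e N t * (P e N - (N : ℝ) • 1)) t := by
  have h1 : HasDerivAt (fun u : ℝ => exp (u • P e N)) (exp (t • P e N) * P e N) t :=
    hasDerivAt_exp_smul_const (P e N) t
  have h2 : HasDerivAt (fun u : ℝ => Real.exp (-(N * u))) (Real.exp (-(N * t)) * (-N)) t := by
    have : HasDerivAt (fun u : ℝ => -((N : ℝ) * u)) (-((N : ℝ) * 1)) t :=
      ((hasDerivAt_id t).const_mul (N : ℝ)).neg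
    rw [mul_one] at this
    exact this.exp
  refine (h2.smul h1).congr_deriv ?_
  unfold E
  rw [mul_sub, smul_mul_assoc, mul_smul_comm, mul_one, smul_smul, mul_neg, neg_smul,
    sub_eq_add_neg, mul_comm (Real.exp _) (N : ℝ)]

theorem hasDerivAt_E' (N : ℕ) (t : ℝ) : HasDerivAt (E e N) ((P e N - (N : ℝ) • 1) * E e N t) t := by
  have h := hasDerivAt_E e N t
  have h1 : Commute (P e N) (E e N t) := by
    let _ : NormedAlgebra ℚ U := NormedAlgebra.restrictScalars ℚ ℝ U
    unfold E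
    exact (Commute.exp_right ((Commute.refl (P e N)).smul_right t)).smul_right _
  rwa [mul_sub, ← h1.eq, mul_smul_comm, mul_one, ← one_mul (E e N t), ← smul_mul_assoc,
    ← mul_assoc, mul_one, ← sub_mul] at h

variable {e}
variable {S : Set U} (hc : Convex ℝ S) (hcl : IsClosed S) (hm : ∀ a ∈ S, ∀ b ∈ S, a * b ∈ S)
  (hn : ∀ a ∈ S, ‖a‖ ≤ 1) (he : ∀ n, e n ∈ S)

include hc he in
theorem inC_P (N : ℕ) : InC S N (P e N) := by
  induction N with
  | zero => exact ⟨by simp, e 0, he 0, by simp [P]⟩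
  | succ N ih =>
    rw [P_succ]
    push_cast
    exact ih.add hc ⟨zero_le_one, e N, he N, by simp⟩

include hc hm he in
theorem inC_P_pow (N k : ℕ) (hk : 1 ≤ k) : InC S ((N : ℝ) ^ k) (P e N ^ k) := by
  induction k, hk using Nat.le_induction with
  | base => simpa using inC_P hc he N
  | succ k _ ih =>
    rw [pow_succ, pow_succ]
    exact ih.mul hm (inC_P hc he N)

include hc hcl hm he in
theorem inC_exp (N : ℕ) (hN : 1 ≤ N) {t : ℝ} (ht : 0 < t) :
    InC S (Real.exp (N * t) - 1) (exp (t • P e N) - 1) := by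
  let _ : NormedAlgebra ℚ U := NormedAlgebra.restrictScalars ℚ ℝ U
  have h1 := (exp_series_hasSum_exp' (𝕂 := ℝ) (t • P e N)).tendsto_sum_nat
  have h2 := (exp_series_hasSum_exp' (𝕂 := ℝ) ((N : ℝ) * t)).tendsto_sum_nat
  rw [← Real.exp_eq_exp_ℝ] at h2
  have key : ∀ m : ℕ, InC S
      ((∑ k ∈ Finset.range (m + 1), ((k.factorial : ℝ))⁻¹ • ((N : ℝ) * t) ^ k) - 1)
      ((∑ k ∈ Finset.range (m + 1), ((k.factorial : ℝ))⁻¹ • (t • P e N) ^ k) - 1) := by
    intro m
    induction m with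
    | zero => exact ⟨by simp, e 0, he 0, by simp⟩
    | succ m ih =>
      rw [Finset.sum_range_succ _ (m + 1), Finset.sum_range_succ _ (m + 1), add_sub_right_comm,
        add_sub_right_comm]
      refine ih.add hc ?_
      have h3 := ((inC_P_pow hc hm he N (m + 1) (by omega)).smul
        (a := (((m + 1).factorial : ℝ))⁻¹ * t ^ (m + 1)) (by positivity))
      rw [smul_pow, smul_smul]
      convert h3 using 1
      rw [smul_eq_mul, mul_pow]
      ring
  have hN' : (1 : ℝ) ≤ N := by exact_mod_cast hN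
  refine InC.lim hcl key ?_ ?_ ?_
  · exact ((tendsto_add_atTop_iff_nat 1).mpr h2).sub_const 1
  · exact ((tendsto_add_atTop_iff_nat 1).mpr h1).sub_const 1
  · have : 0 < (N : ℝ) * t := by positivity
    have := Real.add_one_lt_exp this.ne'
    linarith

include hc hcl hm he in
theorem E_eq (N : ℕ) (hN : 1 ≤ N) {t : ℝ} (ht : 0 < t) :
    ∃ x : U, InC S (1 - Real.exp (-(N * t))) x ∧ E e N t = Real.exp (-(N * t)) • 1 + x := by
  refine ⟨Real.exp (-(N * t)) • (exp (t • P e N) - 1), ?_, ?_⟩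
  · have h := (inC_exp hc hcl hm he N hN ht).smul (a := Real.exp (-(N * t))) (by positivity)
    convert h using 1
    rw [mul_sub, ← Real.exp_add]
    simp
  · unfold E
    rw [smul_sub]
    abel

variable [NormOneClass U]

include hc hcl hm hn he in
theorem norm_exp_le' (N : ℕ) (hN : 1 ≤ N) {t : ℝ} (ht : 0 ≤ t) :
    ‖exp (t • P e N)‖ ≤ Real.exp (N * t) := by
  rcases ht.eq_or_lt with h | h
  · subst h; simp
  · have h1 := (inC_exp hc hcl hm he N hN h).norm_le hn
    calc ‖exp (t • P e N)‖ = ‖(exp (t • P e N) - 1) + 1‖ := by rw [sub_add_cancel]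
      _ ≤ ‖exp (t • P e N) - 1‖ + ‖(1 : U)‖ := norm_add_le _ _
      _ ≤ (Real.exp (N * t) - 1) + 1 := by rw [norm_one]; gcongr
      _ = _ := by ring

include hc hcl hm hn he in
theorem norm_E_le (N : ℕ) (hN : 1 ≤ N) {t : ℝ} (ht : 0 ≤ t) : ‖E e N t‖ ≤ 1 := by
  unfold E
  rw [norm_smul, Real.norm_of_nonneg (Real.exp_pos _).le]
  calc Real.exp (-(N * t)) * ‖exp (t • P e N)‖ ≤ Real.exp (-(N * t)) * Real.exp (N * t) := by
        gcongr; exact norm_exp_le' hc hcl hm hn he N hN ht
    _ = 1 := by rw [← Real.exp_add]; simp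

include hc hcl hm hn he in
/-- Left multiplication estimate. -/
theorem E_mul_sub (N : ℕ) (hN : 1 ≤ N) {t : ℝ} (ht : 0 ≤ t) {b : U} {δ : ℝ}
    (hb : ‖P e N * b‖ ≤ N * δ) : ‖E e N t * b - Real.exp (-(N * t)) • b‖ ≤ δ := by
  have hN' : (1 : ℝ) ≤ N := by exact_mod_cast hN
  have hδ : 0 ≤ δ := by
    by_contra h
    push Not at h
    have : (N : ℝ) * δ < 0 := mul_neg_of_pos_of_neg (by linarith) h
    linarith [norm_nonneg (P e N * b)]
  have key : ∀ ⦃x : ℝ⦄, x ∈ Set.Icc 0 t →
      ‖exp (x • P e N) * b - b‖ ≤ (Real.exp (N * x) - 1) * δ := by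
    refine image_norm_le_of_norm_deriv_right_le_deriv_boundary
      (f' := fun x => exp (x • P e N) * (P e N * b)) (B' := fun x => N * Real.exp (N * x) * δ)
      ?_ ?_ ?_ ?_ ?_
    · have : Continuous fun x : ℝ => exp (x • P e N) * b - b := by
        let _ : NormedAlgebra ℚ U := NormedAlgebra.restrictScalars ℚ ℝ U
        have h1 : Continuous fun x : ℝ => exp (x • P e N) :=
          continuous_iff_continuousAt.mpr fun x =>
            (hasDerivAt_exp_smul_const (P e N) x).continuousAt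
        exact (h1.mul continuous_const).sub continuous_const
      exact this.continuousOn
    · intro x _
      have h1 : HasDerivAt (fun u : ℝ => exp (u • P e N)) (exp (x • P e N) * P e N) x :=
        hasDerivAt_exp_smul_const (P e N) x
      have h2 := (h1.mul_const b).sub_const b
      rw [mul_assoc] at h2
      exact h2.hasDerivWithinAt
    · simp
    · intro x
      have h1 : HasDerivAt (fun u : ℝ => Real.exp (N * u)) (Real.exp (N * x) * N) x := by
        have : HasDerivAt (fun u : ℝ => (N : ℝ) * u) N x := by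
          simpa using (hasDerivAt_id x).const_mul (N : ℝ)
        exact this.exp
      refine ((h1.sub_const 1).mul_const δ).congr_deriv ?_
      ring
    · intro x hx
      calc ‖exp (x • P e N) * (P e N * b)‖ ≤ ‖exp (x • P e N)‖ * ‖P e N * b‖ := norm_mul_le _ _
        _ ≤ Real.exp (N * x) * (N * δ) := by
          gcongr
          exact norm_exp_le' hc hcl hm hn he N hN hx.1
        _ = _ := by ring
  have h1 := key (Set.right_mem_Icc.mpr ht)
  have h2 : E e N t * b - Real.exp (-(N * t)) • b =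
      Real.exp (-(N * t)) • (exp (t • P e N) * b - b) := by
    unfold E
    rw [smul_sub, smul_mul_assoc]
  rw [h2, norm_smul, Real.norm_of_nonneg (Real.exp_pos _).le]
  calc Real.exp (-(N * t)) * ‖exp (t • P e N) * b - b‖
      ≤ Real.exp (-(N * t)) * ((Real.exp (N * t) - 1) * δ) := by gcongr
    _ = (1 - Real.exp (-(N * t))) * δ := by
        rw [← mul_assoc, mul_sub, ← Real.exp_add]; simp
    _ ≤ 1 * δ := by gcongr; linarith [Real.exp_pos (-(N * t))]
    _ = δ := one_mul δ

include hc hcl hm hn he in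
/-- Right multiplication estimate. -/
theorem mul_E_sub (N : ℕ) (hN : 1 ≤ N) {t : ℝ} (ht : 0 ≤ t) {b : U} {δ : ℝ}
    (hb : ‖b * P e N‖ ≤ N * δ) : ‖b * E e N t - Real.exp (-(N * t)) • b‖ ≤ δ := by
  have hN' : (1 : ℝ) ≤ N := by exact_mod_cast hN
  have hδ : 0 ≤ δ := by
    by_contra h
    push Not at h
    have : (N : ℝ) * δ < 0 := mul_neg_of_pos_of_neg (by linarith) h
    linarith [norm_nonneg (b * P e N)]
  have key : ∀ ⦃x : ℝ⦄, x ∈ Set.Icc 0 t →
      ‖b * exp (x • P e N) - b‖ ≤ (Real.exp (N * x) - 1) * δ := by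
    refine image_norm_le_of_norm_deriv_right_le_deriv_boundary
      (f' := fun x => (b * P e N) * exp (x • P e N)) (B' := fun x => N * Real.exp (N * x) * δ)
      ?_ ?_ ?_ ?_ ?_
    · have : Continuous fun x : ℝ => b * exp (x • P e N) - b := by
        have h1 : Continuous fun x : ℝ => exp (x • P e N) :=
          continuous_iff_continuousAt.mpr fun x =>
            (hasDerivAt_exp_smul_const (P e N) x).continuousAt
        exact (continuous_const.mul h1).sub continuous_const
      exact this.continuousOn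
    · intro x _
      have h1 : HasDerivAt (fun u : ℝ => exp (u • P e N)) (P e N * exp (x • P e N)) x :=
        hasDerivAt_exp_smul_const' (P e N) x
      have h2 := (h1.const_mul b).sub_const b
      rw [← mul_assoc] at h2
      exact h2.hasDerivWithinAt
    · simp
    · intro x
      have h1 : HasDerivAt (fun u : ℝ => Real.exp (N * u)) (Real.exp (N * x) * N) x := by
        have : HasDerivAt (fun u : ℝ => (N : ℝ) * u) N x := by
          simpa using (hasDerivAt_id x).const_mul (N : ℝ)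
        exact this.exp
      refine ((h1.sub_const 1).mul_const δ).congr_deriv ?_
      ring
    · intro x hx
      calc ‖(b * P e N) * exp (x • P e N)‖ ≤ ‖b * P e N‖ * ‖exp (x • P e N)‖ := norm_mul_le _ _
        _ ≤ (N * δ) * Real.exp (N * x) := by
          gcongr
          exact norm_exp_le' hc hcl hm hn he N hN hx.1
        _ = _ := by ring
  have h1 := key (Set.right_mem_Icc.mpr ht)
  have h2 : b * E e N t - Real.exp (-(N * t)) • b =
      Real.exp (-(N * t)) • (b * exp (t • P e N) - b) := by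
    unfold E
    rw [smul_sub, mul_smul_comm]
  rw [h2, norm_smul, Real.norm_of_nonneg (Real.exp_pos _).le]
  calc Real.exp (-(N * t)) * ‖b * exp (t • P e N) - b‖
      ≤ Real.exp (-(N * t)) * ((Real.exp (N * t) - 1) * δ) := by gcongr
    _ = (1 - Real.exp (-(N * t))) * δ := by
        rw [← mul_assoc, mul_sub, ← Real.exp_add]; simp
    _ ≤ 1 * δ := by gcongr; linarith [Real.exp_pos (-(N * t))]
    _ = δ := one_mul δ

end Unital

end Pool.Agent.Lib.MP_893ae4_anV
end

section

/-!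
# Convergence of the approximating semigroups
-/

set_option autoImplicit false

open Filter Topology NormedSpace

namespace Pool.Agent.Lib.MP_893ae4_anV

section Limit

variable {U : Type*} [NormedRing U] [NormedAlgebra ℝ U]
variable {e : ℕ → U} {S : Set U}

omit [NormedAlgebra ℝ U] in
theorem norm_P_mul {N : ℕ} {b : U} {c : ℝ} (h : ∀ n < N, ‖e n * b‖ ≤ c) : ‖P e N * b‖ ≤ N * c := by
  unfold P
  rw [Finset.sum_mul]
  calc ‖∑ n ∈ Finset.range N, e n * b‖ ≤ ∑ n ∈ Finset.range N, c :=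
        norm_sum_le_of_le _ fun n hn => h n (Finset.mem_range.mp hn)
    _ = N * c := by simp

omit [NormedAlgebra ℝ U] in
theorem norm_mul_P {N : ℕ} {b : U} {c : ℝ} (h : ∀ n < N, ‖b * e n‖ ≤ c) : ‖b * P e N‖ ≤ N * c := by
  unfold P
  rw [Finset.mul_sum]
  calc ‖∑ n ∈ Finset.range N, b * e n‖ ≤ ∑ n ∈ Finset.range N, c :=
        norm_sum_le_of_le _ fun n hn => h n (Finset.mem_range.mp hn)
    _ = N * c := by simp

variable [CompleteSpace U]

theorem hasDerivAt_left (N : ℕ) (t s : ℝ) :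
    HasDerivAt (fun s => E e (N + 1) (t - s) * E e N s)
      (-(E e (N + 1) (t - s) * ((e N - 1) * E e N s))) s := by
  have h1 := HasDerivAt.comp_const_sub t s (hasDerivAt_E e (N + 1) (t - s))
  have h2 := hasDerivAt_E' e N s
  refine (h1.mul h2).congr_deriv ?_
  have h3 : P e (N + 1) - ((N + 1 : ℕ) : ℝ) • (1 : U) = (P e N - (N : ℝ) • 1) + (e N - 1) := by
    rw [P_succ]
    push_cast
    rw [add_smul, one_smul]
    abel
  rw [h3]
  noncomm_ring

theorem hasDerivAt_right (N : ℕ) (t s : ℝ) :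
    HasDerivAt (fun s => E e N s * E e (N + 1) (t - s))
      (-((E e N s * (e N - 1)) * E e (N + 1) (t - s))) s := by
  have h1 := HasDerivAt.comp_const_sub t s (hasDerivAt_E' e (N + 1) (t - s))
  have h2 := hasDerivAt_E e N s
  refine (h2.mul h1).congr_deriv ?_
  have h3 : P e (N + 1) - ((N + 1 : ℕ) : ℝ) • (1 : U) = (P e N - (N : ℝ) • 1) + (e N - 1) := by
    rw [P_succ]
    push_cast
    rw [add_smul, one_smul]
    abel
  rw [h3]
  noncomm_ring

variable [NormOneClass U]
variable (hc : Convex ℝ S) (hcl : IsClosed S) (hm : ∀ a ∈ S, ∀ b ∈ S, a * b ∈ S)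
  (hn : ∀ a ∈ S, ‖a‖ ≤ 1) (he : ∀ n, e n ∈ S)
variable {δ : ℕ → ℝ} (hδ : ∀ n, 0 ≤ δ n) (hl : ∀ N n, n < N → ‖e n * (e N - 1)‖ ≤ δ N)
  (hr : ∀ N n, n < N → ‖(e N - 1) * e n‖ ≤ δ N)

include hn he in
omit [NormedAlgebra ℝ U] [CompleteSpace U] in
theorem norm_e_sub_one (n : ℕ) : ‖e n - 1‖ ≤ 2 := by
  calc ‖e n - 1‖ ≤ ‖e n‖ + ‖(1 : U)‖ := norm_sub_le _ _
    _ ≤ 1 + 1 := by rw [norm_one]; gcongr; exact hn _ (he n)
    _ = 2 := by norm_num

include hc hcl hm hn he hδ hl hr in
theorem E_succ_sub (N : ℕ) (hN : 1 ≤ N) {t : ℝ} (ht : 0 ≤ t) :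
    ‖E e (N + 1) t - E e N t‖ ≤
      2 * t * Real.exp (-(N * t)) + 2 / (N * (N + 1)) + 2 * δ N * t := by
  have hN' : (1 : ℝ) ≤ N := by exact_mod_cast hN
  have key : ∀ ⦃x : ℝ⦄, x ∈ Set.Icc 0 t →
      ‖E e (N + 1) (t - x) * E e N x - E e (N + 1) t‖ ≤
        (2 * Real.exp (-(N * t)) + 2 * δ N) * x
          + 2 / (N * (N + 1)) * (1 - Real.exp (-(N * x))) := by
    refine image_norm_le_of_norm_deriv_right_le_deriv_boundary
      (f' := fun x => -(E e (N + 1) (t - x) * ((e N - 1) * E e N x)))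
      (B' := fun x => (2 * Real.exp (-(N * t)) + 2 * δ N) + 2 / (N + 1) * Real.exp (-(N * x)))
      ?_ ?_ ?_ ?_ ?_
    · have h1 : Continuous fun s => E e (N + 1) (t - s) * E e N s :=
        continuous_iff_continuousAt.mpr fun x => (hasDerivAt_left (e := e) N t x).continuousAt
      exact (h1.sub continuous_const).continuousOn
    · intro x _
      exact ((hasDerivAt_left (e := e) N t x).sub_const _).hasDerivWithinAt
    · simp [E_zero]
    · intro x
      have h1 : HasDerivAt (fun u : ℝ => Real.exp (-(N * u))) (Real.exp (-(N * x)) * (-N)) x := by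
        have : HasDerivAt (fun u : ℝ => -((N : ℝ) * u)) (-((N : ℝ) * 1)) x :=
          ((hasDerivAt_id x).const_mul (N : ℝ)).neg
        rw [mul_one] at this
        exact this.exp
      have h2 : HasDerivAt (fun x => (2 * Real.exp (-(N * t)) + 2 * δ N) * x
          + 2 / (N * (N + 1)) * (1 - Real.exp (-(N * x))))
          ((2 * Real.exp (-(N * t)) + 2 * δ N) * 1
            + 2 / (N * (N + 1)) * (-(Real.exp (-(N * x)) * (-N)))) x :=
        ((hasDerivAt_id x).const_mul _).add ((h1.const_sub 1).const_mul _)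
      refine h2.congr_deriv ?_
      field_simp
    · intro x hx
      have hx0 : 0 ≤ x := hx.1
      have hxt : 0 ≤ t - x := by linarith [hx.2]
      have hN1 : ((N + 1 : ℕ) : ℝ) = N + 1 := by push_cast; ring
      -- left factor
      have h1 : ‖P e (N + 1) * (e N - 1)‖ ≤ ((N + 1 : ℕ) : ℝ) * (δ N + 2 / (N + 1)) := by
        rw [P_succ, add_mul, hN1]
        calc ‖P e N * (e N - 1) + e N * (e N - 1)‖ ≤ ‖P e N * (e N - 1)‖ + ‖e N * (e N - 1)‖ :=
              norm_add_le _ _
          _ ≤ N * δ N + 1 * 2 := by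
              gcongr
              · exact norm_P_mul fun n h => hl N n h
              · exact (norm_mul_le _ _).trans (mul_le_mul (hn _ (he N))
                  (norm_e_sub_one hn he N) (norm_nonneg _) zero_le_one)
          _ ≤ (N + 1) * (δ N + 2 / (N + 1)) := by
              rw [mul_add, mul_div_cancel₀ _ (by positivity : (N : ℝ) + 1 ≠ 0)]
              nlinarith [hδ N]
      have h2 := E_mul_sub hc hcl hm hn he (N + 1) (by omega) hxt h1
      have h3 : ‖E e (N + 1) (t - x) * (e N - 1)‖ ≤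
          2 * Real.exp (-((N + 1) * (t - x))) + (δ N + 2 / (N + 1)) := by
        calc ‖E e (N + 1) (t - x) * (e N - 1)‖
            = ‖Real.exp (-(((N + 1 : ℕ) : ℝ) * (t - x))) • (e N - 1) +
                (E e (N + 1) (t - x) * (e N - 1) -
                  Real.exp (-(((N + 1 : ℕ) : ℝ) * (t - x))) • (e N - 1))‖ := by
              congr 1; abel
          _ ≤ Real.exp (-((N + 1) * (t - x))) * 2 + (δ N + 2 / (N + 1)) := by
              refine (norm_add_le _ _).trans (add_le_add ?_ h2)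
              rw [norm_smul, Real.norm_of_nonneg (Real.exp_pos _).le, hN1]
              gcongr
              exact norm_e_sub_one hn he N
          _ = _ := by ring
      have h4 := mul_E_sub hc hcl hm hn he N hN hx0 (norm_mul_P fun n h => hr N n h)
      have h5 : E e (N + 1) (t - x) * ((e N - 1) * E e N x) =
          E e (N + 1) (t - x) * ((e N - 1) * E e N x - Real.exp (-(N * x)) • (e N - 1))
            + Real.exp (-(N * x)) • (E e (N + 1) (t - x) * (e N - 1)) := by
        rw [mul_sub, mul_smul_comm]; abel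
      rw [norm_neg, h5]
      have h6 : Real.exp (-(N * x)) * Real.exp (-((N + 1) * (t - x))) ≤ Real.exp (-(N * t)) := by
        rw [← Real.exp_add]
        apply Real.exp_le_exp.mpr
        nlinarith
      have h7 : Real.exp (-(N * x)) ≤ 1 := by
        apply Real.exp_le_one_iff.mpr
        have : 0 ≤ (N : ℝ) * x := by positivity
        linarith
      calc ‖E e (N + 1) (t - x) * ((e N - 1) * E e N x - Real.exp (-(N * x)) • (e N - 1))
            + Real.exp (-(N * x)) • (E e (N + 1) (t - x) * (e N - 1))‖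
          ≤ 1 * δ N + Real.exp (-(N * x)) *
            (2 * Real.exp (-((N + 1) * (t - x))) + (δ N + 2 / (N + 1))) := by
            refine (norm_add_le _ _).trans (add_le_add ?_ ?_)
            · exact (norm_mul_le _ _).trans (mul_le_mul
                (norm_E_le hc hcl hm hn he (N + 1) (by omega) hxt) h4 (norm_nonneg _) zero_le_one)
            · rw [norm_smul, Real.norm_of_nonneg (Real.exp_pos _).le]
              gcongr
        _ = δ N + 2 * (Real.exp (-(N * x)) * Real.exp (-((N + 1) * (t - x))))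
              + Real.exp (-(N * x)) * δ N + 2 / (N + 1) * Real.exp (-(N * x)) := by ring
        _ ≤ δ N + 2 * Real.exp (-(N * t)) + 1 * δ N + 2 / (N + 1) * Real.exp (-(N * x)) := by
            gcongr
            exact hδ N
        _ = _ := by ring
  have h1 := key (Set.right_mem_Icc.mpr ht)
  rw [sub_self, E_zero, one_mul] at h1
  rw [norm_sub_rev]
  refine h1.trans ?_
  have h8 : 2 / ((N : ℝ) * (N + 1)) * (1 - Real.exp (-(N * t))) ≤ 2 / ((N : ℝ) * (N + 1)) := by
    apply mul_le_of_le_one_right (by positivity)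
    linarith [Real.exp_pos (-((N : ℝ) * t))]
  nlinarith [h8]

include hc hcl hm hn he hδ hr in
theorem E_succ_mul_sub (N : ℕ) (hN : 1 ≤ N) {t : ℝ} (ht : 0 ≤ t) (f : U) :
    ‖E e (N + 1) t * f - E e N t * f‖ ≤ (‖(e N - 1) * f‖ + δ N * ‖f‖) * t := by
  have key : ∀ ⦃x : ℝ⦄, x ∈ Set.Icc 0 t →
      ‖E e (N + 1) (t - x) * E e N x * f - E e (N + 1) t * f‖ ≤
        (‖(e N - 1) * f‖ + δ N * ‖f‖) * x := by
    refine image_norm_le_of_norm_deriv_right_le_deriv_boundary
      (f' := fun x => -(E e (N + 1) (t - x) * ((e N - 1) * E e N x)) * f)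
      (B' := fun _ => (‖(e N - 1) * f‖ + δ N * ‖f‖) * 1)
      ?_ ?_ ?_ ?_ ?_
    · have h1 : Continuous fun s => E e (N + 1) (t - s) * E e N s :=
        continuous_iff_continuousAt.mpr fun x => (hasDerivAt_left (e := e) N t x).continuousAt
      exact ((h1.mul continuous_const).sub continuous_const).continuousOn
    · intro x _
      exact (((hasDerivAt_left (e := e) N t x).mul_const f).sub_const _).hasDerivWithinAt
    · simp [E_zero]
    · intro x
      exact (hasDerivAt_id x).const_mul _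
    · intro x hx
      have hx0 : 0 ≤ x := hx.1
      have hxt : 0 ≤ t - x := by linarith [hx.2]
      have h4 := mul_E_sub hc hcl hm hn he N hN hx0 (norm_mul_P fun n h => hr N n h)
      have h7 : Real.exp (-(N * x)) ≤ 1 := by
        apply Real.exp_le_one_iff.mpr
        have : 0 ≤ (N : ℝ) * x := by positivity
        linarith
      have h5 : ((e N - 1) * E e N x) * f =
          ((e N - 1) * E e N x - Real.exp (-(N * x)) • (e N - 1)) * f
            + Real.exp (-(N * x)) • ((e N - 1) * f) := by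
        rw [sub_mul ((e N - 1) * E e N x), smul_mul_assoc]; abel
      rw [neg_mul, norm_neg, mul_assoc, mul_one]
      calc ‖E e (N + 1) (t - x) * ((e N - 1) * E e N x * f)‖
          ≤ 1 * ‖(e N - 1) * E e N x * f‖ :=
            (norm_mul_le _ _).trans (mul_le_mul_of_nonneg_right
              (norm_E_le hc hcl hm hn he (N + 1) (by omega) hxt) (norm_nonneg _))
        _ = ‖((e N - 1) * E e N x - Real.exp (-(N * x)) • (e N - 1)) * f
            + Real.exp (-(N * x)) • ((e N - 1) * f)‖ := by rw [one_mul, h5]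
        _ ≤ δ N * ‖f‖ + 1 * ‖(e N - 1) * f‖ := by
            refine (norm_add_le _ _).trans (add_le_add ?_ ?_)
            · exact (norm_mul_le _ _).trans (mul_le_mul_of_nonneg_right h4 (norm_nonneg _))
            · rw [norm_smul, Real.norm_of_nonneg (Real.exp_pos _).le]
              gcongr
        _ = _ := by ring
  have h1 := key (Set.right_mem_Icc.mpr ht)
  rw [sub_self, E_zero, one_mul] at h1
  rwa [norm_sub_rev]

include hc hcl hm hn he hδ hl in
theorem mul_E_succ_sub (N : ℕ) (hN : 1 ≤ N) {t : ℝ} (ht : 0 ≤ t) (f : U) :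
    ‖f * E e (N + 1) t - f * E e N t‖ ≤ (‖f * (e N - 1)‖ + δ N * ‖f‖) * t := by
  have key : ∀ ⦃x : ℝ⦄, x ∈ Set.Icc 0 t →
      ‖f * (E e N x * E e (N + 1) (t - x)) - f * E e (N + 1) t‖ ≤
        (‖f * (e N - 1)‖ + δ N * ‖f‖) * x := by
    refine image_norm_le_of_norm_deriv_right_le_deriv_boundary
      (f' := fun x => f * -((E e N x * (e N - 1)) * E e (N + 1) (t - x)))
      (B' := fun _ => (‖f * (e N - 1)‖ + δ N * ‖f‖) * 1)
      ?_ ?_ ?_ ?_ ?_
    · have h1 : Continuous fun s => E e N s * E e (N + 1) (t - s) :=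
        continuous_iff_continuousAt.mpr fun x => (hasDerivAt_right (e := e) N t x).continuousAt
      exact ((continuous_const.mul h1).sub continuous_const).continuousOn
    · intro x _
      exact (((hasDerivAt_right (e := e) N t x).const_mul f).sub_const _).hasDerivWithinAt
    · simp [E_zero]
    · intro x
      exact (hasDerivAt_id x).const_mul _
    · intro x hx
      have hx0 : 0 ≤ x := hx.1
      have hxt : 0 ≤ t - x := by linarith [hx.2]
      have h4 := E_mul_sub hc hcl hm hn he N hN hx0 (norm_P_mul fun n h => hl N n h)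
      have h7 : Real.exp (-(N * x)) ≤ 1 := by
        apply Real.exp_le_one_iff.mpr
        have : 0 ≤ (N : ℝ) * x := by positivity
        linarith
      have h5 : f * (E e N x * (e N - 1)) =
          f * (E e N x * (e N - 1) - Real.exp (-(N * x)) • (e N - 1))
            + Real.exp (-(N * x)) • (f * (e N - 1)) := by
        rw [mul_sub f (E e N x * (e N - 1)), mul_smul_comm]; abel
      rw [mul_neg, norm_neg, ← mul_assoc, mul_one]
      calc ‖f * (E e N x * (e N - 1)) * E e (N + 1) (t - x)‖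
          ≤ ‖f * (E e N x * (e N - 1))‖ * 1 :=
            (norm_mul_le _ _).trans (mul_le_mul_of_nonneg_left
              (norm_E_le hc hcl hm hn he (N + 1) (by omega) hxt) (norm_nonneg _))
        _ = ‖f * (E e N x * (e N - 1) - Real.exp (-(N * x)) • (e N - 1))
            + Real.exp (-(N * x)) • (f * (e N - 1))‖ := by rw [mul_one, h5]
        _ ≤ ‖f‖ * δ N + 1 * ‖f * (e N - 1)‖ := by
            refine (norm_add_le _ _).trans (add_le_add ?_ ?_)
            · exact (norm_mul_le _ _).trans (mul_le_mul_of_nonneg_left h4 (norm_nonneg _))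
            · rw [norm_smul, Real.norm_of_nonneg (Real.exp_pos _).le]
              gcongr
        _ = _ := by ring
  have h1 := key (Set.right_mem_Icc.mpr ht)
  rw [sub_self, E_zero, mul_one] at h1
  rwa [norm_sub_rev]

end Limit

end Pool.Agent.Lib.MP_893ae4_anV
end

section

/-!
# Semigroups in separable Banach algebras
-/

set_option autoImplicit false

open Filter Topology NormedSpace

namespace Pool.Agent.Lib.MP_893ae4_anV

section Unital

variable {U : Type*} [NormedRing U] [NormedAlgebra ℝ U] [CompleteSpace U] [NormOneClass U]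
variable {e : ℕ → U} {S : Set U}
variable (hc : Convex ℝ S) (hcl : IsClosed S) (hm : ∀ a ∈ S, ∀ b ∈ S, a * b ∈ S)
  (hn : ∀ a ∈ S, ‖a‖ ≤ 1) (he : ∀ n, e n ∈ S)
variable (hl : ∀ N n, n < N → ‖e n * (e N - 1)‖ ≤ (1 / 2 : ℝ) ^ N)
  (hr : ∀ N n, n < N → ‖(e N - 1) * e n‖ ≤ (1 / 2 : ℝ) ^ N)

include hc hcl hm hn he hl hr in
theorem cauchySeq_E {t : ℝ} (ht : 0 < t) : CauchySeq fun N => E e (N + 1) t := by
  refine cauchySeq_of_dist_le_of_summable
    (fun N : ℕ => 2 * t * Real.exp (-(((N + 1 : ℕ) : ℝ) * t)) +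
      2 / (((N + 1 : ℕ) : ℝ) * (((N + 1 : ℕ) : ℝ) + 1)) + 2 * (1 / 2 : ℝ) ^ (N + 1) * t)
    (fun N => ?_) ?_
  · rw [dist_eq_norm, norm_sub_rev]
    exact E_succ_sub hc hcl hm hn he (δ := fun n => (1 / 2 : ℝ) ^ n) (fun n => by positivity)
      hl hr (N + 1) (by omega) ht.le
  · refine (Summable.add ?_ ?_).add ?_
    · refine Summable.mul_left _ ?_
      have h1 : Summable fun N : ℕ => Real.exp (-t) ^ N :=
        summable_geometric_of_lt_one (Real.exp_pos _).le (by rw [← Real.exp_zero]; exact Real.exp_lt_exp.mpr (by linarith))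
      have h2 := (summable_nat_add_iff 1).mpr h1
      refine h2.congr fun N => ?_
      rw [← Real.exp_nat_mul]
      congr 1
      ring
    · have h1 : Summable fun N : ℕ => 2 * (1 / ((N : ℝ)) ^ 2) :=
        (Real.summable_one_div_nat_pow.mpr (by norm_num)).mul_left 2
      have h2 := (summable_nat_add_iff 1).mpr h1
      refine Summable.of_nonneg_of_le (fun N => by positivity) (fun N => ?_) h2
      rw [mul_one_div]
      gcongr
      nlinarith [(by positivity : (0 : ℝ) ≤ ((N + 1 : ℕ) : ℝ))]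
    · refine Summable.mul_right _ (Summable.mul_left _ ?_)
      exact (summable_nat_add_iff 1).mpr
        (summable_geometric_of_lt_one (by norm_num) (by norm_num))

include hc hcl hm he in
theorem lim_mem {t : ℝ} (ht : 0 < t) {m : U}
    (h : Tendsto (fun N => E e (N + 1) t) atTop (𝓝 m)) : m ∈ S := by
  choose x hx hE using fun N : ℕ => E_eq hc hcl hm he (N + 1) (by omega) ht
  have h1 : Tendsto (fun N : ℕ => Real.exp (-(((N + 1 : ℕ) : ℝ) * t))) atTop (𝓝 0) := by
    refine Real.tendsto_exp_neg_atTop_nhds_zero.comp ?_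
    refine Tendsto.atTop_mul_const ht ?_
    exact tendsto_natCast_atTop_atTop.comp (tendsto_add_atTop_nat 1)
  have h2 : Tendsto x atTop (𝓝 m) := by
    have h3 : Tendsto (fun N : ℕ => E e (N + 1) t - Real.exp (-(((N + 1 : ℕ) : ℝ) * t)) • (1 : U))
        atTop (𝓝 (m - (0 : ℝ) • 1)) := h.sub (h1.smul_const _)
    rw [zero_smul, sub_zero] at h3
    refine h3.congr fun N => ?_
    rw [hE N, add_sub_cancel_left]
  have h3 : Tendsto (fun N : ℕ => 1 - Real.exp (-(((N + 1 : ℕ) : ℝ) * t))) atTop (𝓝 1) := by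
    simpa using h1.const_sub 1
  obtain ⟨-, s, hs, hms⟩ := InC.lim hcl hx h3 h2 one_pos
  rw [hms, one_smul]
  exact hs

include hc hcl hm hn he hr in
theorem left_close {f : U} {j : ℕ} (hj : 1 ≤ j) (hf : ∀ N, j ≤ N → ‖(e N - 1) * f‖ ≤ (1 / 2 : ℝ) ^ N)
    {t : ℝ} (ht : 0 ≤ t) {m : U} (h : Tendsto (fun N => E e (N + 1) t) atTop (𝓝 m)) :
    ‖m * f - E e j t * f‖ ≤ 2 * (1 + ‖f‖) * t := by
  have h1 : ∀ k : ℕ, ‖E e (j + k) t * f - E e j t * f‖ ≤
      (1 + ‖f‖) * t * ∑ i ∈ Finset.range k, (1 / 2 : ℝ) ^ i := by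
    intro k
    induction k with
    | zero => simp
    | succ k ih =>
      have h2 := E_succ_mul_sub hc hcl hm hn he (δ := fun n => (1 / 2 : ℝ) ^ n)
        (fun n => by positivity) hr (j + k) (by omega) ht f
      have h3 := hf (j + k) (by omega)
      have h4 : (1 / 2 : ℝ) ^ (j + k) ≤ (1 / 2 : ℝ) ^ k :=
        pow_le_pow_of_le_one (by norm_num) (by norm_num) (by omega)
      rw [Finset.sum_range_succ, mul_add]
      calc ‖E e (j + (k + 1)) t * f - E e j t * f‖
          = ‖(E e (j + k) t * f - E e j t * f)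
              + (E e (j + k + 1) t * f - E e (j + k) t * f)‖ := by
            congr 1; rw [← add_assoc]; abel
        _ ≤ _ := by
            refine (norm_add_le _ _).trans (add_le_add ih (h2.trans ?_))
            calc (‖(e (j + k) - 1) * f‖ + (1 / 2 : ℝ) ^ (j + k) * ‖f‖) * t
                ≤ ((1 / 2 : ℝ) ^ (j + k) + (1 / 2 : ℝ) ^ (j + k) * ‖f‖) * t := by gcongr
              _ = (1 + ‖f‖) * t * (1 / 2 : ℝ) ^ (j + k) := by ring
              _ ≤ _ := by gcongr
  have h5 : Tendsto (fun k : ℕ => E e (j + k) t) atTop (𝓝 m) := by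
    have h6 : Tendsto (fun N => E e N t) atTop (𝓝 m) := (tendsto_add_atTop_iff_nat 1).mp h
    have h7 := (tendsto_add_atTop_iff_nat j).mpr h6
    refine h7.congr fun k => ?_
    rw [add_comm]
  have h8 : Tendsto (fun k : ℕ => ‖E e (j + k) t * f - E e j t * f‖) atTop
      (𝓝 ‖m * f - E e j t * f‖) := ((h5.mul_const f).sub_const _).norm
  refine le_of_tendsto h8 (Eventually.of_forall fun k => (h1 k).trans ?_)
  have h9 : ∑ i ∈ Finset.range k, (1 / 2 : ℝ) ^ i ≤ 2 := sum_geometric_two_le k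
  calc (1 + ‖f‖) * t * ∑ i ∈ Finset.range k, (1 / 2 : ℝ) ^ i ≤ (1 + ‖f‖) * t * 2 := by gcongr
    _ = _ := by ring

include hc hcl hm hn he hl in
theorem right_close {f : U} {j : ℕ} (hj : 1 ≤ j) (hf : ∀ N, j ≤ N → ‖f * (e N - 1)‖ ≤ (1 / 2 : ℝ) ^ N)
    {t : ℝ} (ht : 0 ≤ t) {m : U} (h : Tendsto (fun N => E e (N + 1) t) atTop (𝓝 m)) :
    ‖f * m - f * E e j t‖ ≤ 2 * (1 + ‖f‖) * t := by
  have h1 : ∀ k : ℕ, ‖f * E e (j + k) t - f * E e j t‖ ≤
      (1 + ‖f‖) * t * ∑ i ∈ Finset.range k, (1 / 2 : ℝ) ^ i := by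
    intro k
    induction k with
    | zero => simp
    | succ k ih =>
      have h2 := mul_E_succ_sub hc hcl hm hn he (δ := fun n => (1 / 2 : ℝ) ^ n)
        (fun n => by positivity) hl (j + k) (by omega) ht f
      have h3 := hf (j + k) (by omega)
      have h4 : (1 / 2 : ℝ) ^ (j + k) ≤ (1 / 2 : ℝ) ^ k :=
        pow_le_pow_of_le_one (by norm_num) (by norm_num) (by omega)
      rw [Finset.sum_range_succ, mul_add]
      calc ‖f * E e (j + (k + 1)) t - f * E e j t‖
          = ‖(f * E e (j + k) t - f * E e j t)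
              + (f * E e (j + k + 1) t - f * E e (j + k) t)‖ := by
            congr 1; rw [← add_assoc]; abel
        _ ≤ _ := by
            refine (norm_add_le _ _).trans (add_le_add ih (h2.trans ?_))
            calc (‖f * (e (j + k) - 1)‖ + (1 / 2 : ℝ) ^ (j + k) * ‖f‖) * t
                ≤ ((1 / 2 : ℝ) ^ (j + k) + (1 / 2 : ℝ) ^ (j + k) * ‖f‖) * t := by gcongr
              _ = (1 + ‖f‖) * t * (1 / 2 : ℝ) ^ (j + k) := by ring
              _ ≤ _ := by gcongr
  have h5 : Tendsto (fun k : ℕ => E e (j + k) t) atTop (𝓝 m) := by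
    have h6 : Tendsto (fun N => E e N t) atTop (𝓝 m) := (tendsto_add_atTop_iff_nat 1).mp h
    have h7 := (tendsto_add_atTop_iff_nat j).mpr h6
    refine h7.congr fun k => ?_
    rw [add_comm]
  have h8 : Tendsto (fun k : ℕ => ‖f * E e (j + k) t - f * E e j t‖) atTop
      (𝓝 ‖f * m - f * E e j t‖) := ((h5.const_mul f).sub_const _).norm
  refine le_of_tendsto h8 (Eventually.of_forall fun k => (h1 k).trans ?_)
  have h9 : ∑ i ∈ Finset.range k, (1 / 2 : ℝ) ^ i ≤ 2 := sum_geometric_two_le k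
  calc (1 + ‖f‖) * t * ∑ i ∈ Finset.range k, (1 / 2 : ℝ) ^ i ≤ (1 + ‖f‖) * t * 2 := by gcongr
    _ = _ := by ring

end Unital

section Main

variable {X : Type*} [NonUnitalNormedRing X] [NormedSpace ℝ X]

/-- The choice of the approximate identity. -/
theorem exists_seq [TopologicalSpace.SeparableSpace X] (S : Set X)
    (hai : ∀ ε > 0, ∀ F : Finset X, ∃ u ∈ S, ∀ f ∈ F, ‖u * f - f‖ < ε ∧ ‖f * u - f‖ < ε) :
    ∃ e : ℕ → X, (∀ n, e n ∈ S) ∧
      (∀ N n, n < N → ‖e N * e n - e n‖ ≤ (1 / 2 : ℝ) ^ N ∧ ‖e n * e N - e n‖ ≤ (1 / 2 : ℝ) ^ N) ∧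
      ∃ f : ℕ → X, DenseRange f ∧ ∀ N n, n ≤ N →
        ‖e N * f n - f n‖ ≤ (1 / 2 : ℝ) ^ N ∧ ‖f n * e N - f n‖ ≤ (1 / 2 : ℝ) ^ N := by
  classical
  obtain ⟨f, hf⟩ := TopologicalSpace.exists_dense_seq X
  obtain ⟨g, hg1, hg2⟩ := exists_seq_of_forall_finset_exists (α := ℕ × X)
    (fun y => y.2 ∈ S ∧ ∀ n ≤ y.1, ‖y.2 * f n - f n‖ ≤ (1 / 2 : ℝ) ^ y.1 ∧
      ‖f n * y.2 - f n‖ ≤ (1 / 2 : ℝ) ^ y.1)
    (fun x y => x.1 < y.1 ∧ ‖y.2 * x.2 - x.2‖ ≤ (1 / 2 : ℝ) ^ y.1 ∧
      ‖x.2 * y.2 - x.2‖ ≤ (1 / 2 : ℝ) ^ y.1) (by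
      intro s _
      set n := s.sup Prod.fst + 1 with hn
      obtain ⟨u, hu, hu'⟩ := hai ((1 / 2 : ℝ) ^ n) (by positivity)
        (s.image Prod.snd ∪ (Finset.range (n + 1)).image f)
      refine ⟨(n, u), ⟨hu, fun k hk => ?_⟩, fun x hx => ⟨?_, ?_⟩⟩
      · have := hu' (f k) (Finset.mem_union_right _ (Finset.mem_image_of_mem f
          (Finset.mem_range.mpr (Nat.lt_succ_of_le hk))))
        exact ⟨this.1.le, this.2.le⟩
      · have : x.1 ≤ s.sup Prod.fst := Finset.le_sup hx
        show x.1 < n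
        omega
      · have := hu' x.2 (Finset.mem_union_left _ (Finset.mem_image_of_mem Prod.snd hx))
        exact ⟨this.1.le, this.2.le⟩)
  have hmono : StrictMono fun n => (g n).1 := fun m n h => (hg2 m n h).1
  have hge : ∀ n, n ≤ (g n).1 := fun n => hmono.id_le n
  have hpow : ∀ n, (1 / 2 : ℝ) ^ (g n).1 ≤ (1 / 2 : ℝ) ^ n := fun n =>
    pow_le_pow_of_le_one (by norm_num) (by norm_num) (hge n)
  refine ⟨fun n => (g n).2, fun n => (hg1 n).1, fun N n h => ?_, f, hf, fun N n h => ?_⟩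
  · have := (hg2 n N h).2
    exact ⟨this.1.trans (hpow N), this.2.trans (hpow N)⟩
  · have := (hg1 N).2 n (h.trans (hge N))
    exact ⟨this.1.trans (hpow N), this.2.trans (hpow N)⟩

variable [IsScalarTower ℝ X X] [SMulCommClass ℝ X X] [CompleteSpace X]

/-- A separable Banach algebra which has an approximate identity inside a closed convex
multiplicative semigroup `S` of elements of norm at most one contains a semigroup
`(μ t)_{t > 0}` in `S` which converges to the identity. -/
theorem exists_semigroup [TopologicalSpace.SeparableSpace X] (S : Set X) (hc : Convex ℝ S)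
    (hcl : IsClosed S) (hm : ∀ a ∈ S, ∀ b ∈ S, a * b ∈ S) (hn : ∀ a ∈ S, ‖a‖ ≤ 1)
    (hai : ∀ ε > 0, ∀ F : Finset X, ∃ u ∈ S, ∀ f ∈ F, ‖u * f - f‖ < ε ∧ ‖f * u - f‖ < ε) :
    ∃ μ : ℝ → X, (∀ t > 0, μ t ∈ S) ∧ (∀ s > 0, ∀ t > 0, μ (s + t) = μ s * μ t) ∧
      (∀ f, Tendsto (fun t => μ t * f) (𝓝[>] 0) (𝓝 f)) ∧
      (∀ f, Tendsto (fun t => f * μ t) (𝓝[>] 0) (𝓝 f)) := by
  obtain ⟨e, heS, hee, f, hf, hef⟩ := exists_seq S hai
  -- the unitization
  let U := WithLp 1 (Unitization ℝ X)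
  haveI : NormOneClass U := ⟨by
    rw [WithLp.unitization_norm_def]
    show ‖(1 : Unitization ℝ X).fst‖ + ‖(1 : Unitization ℝ X).snd‖ = 1
    simp⟩
  let ι : X → U := fun x => WithLp.toLp 1 (x : Unitization ℝ X)
  have hιi : Isometry ι := WithLp.unitization_isometry_inr
  have hιn : ∀ x, ‖ι x‖ = ‖x‖ := fun x => WithLp.unitization_norm_inr x
  have hιm : ∀ x y, ι (x * y) = ι x * ι y := fun x y => by
    show WithLp.toLp 1 ((x * y : X) : Unitization ℝ X) = _
    rw [Unitization.inr_mul]; rfl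
  have hιs : ∀ x y, ι (x - y) = ι x - ι y := fun x y => by
    show WithLp.toLp 1 ((x - y : X) : Unitization ℝ X) = _
    rw [Unitization.inr_sub]; rfl
  have hιa : ∀ x y, ι (x + y) = ι x + ι y := fun x y => by
    show WithLp.toLp 1 ((x + y : X) : Unitization ℝ X) = _
    rw [Unitization.inr_add]; rfl
  have hιc : ∀ (r : ℝ) x, ι (r • x) = r • ι x := fun r x => by
    show WithLp.toLp 1 ((r • x : X) : Unitization ℝ X) = _
    rw [Unitization.inr_smul]; rfl
  set S' : Set U := ι '' S with hS'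
  have hc' : Convex ℝ S' := by
    rintro _ ⟨x, hx, rfl⟩ _ ⟨y, hy, rfl⟩ a b ha hb hab
    exact ⟨a • x + b • y, hc hx hy ha hb hab, by rw [hιa, hιc, hιc]⟩
  have hcl' : IsClosed S' := hιi.isClosedEmbedding.isClosedMap _ hcl
  have hm' : ∀ a ∈ S', ∀ b ∈ S', a * b ∈ S' := by
    rintro _ ⟨x, hx, rfl⟩ _ ⟨y, hy, rfl⟩
    exact ⟨x * y, hm x hx y hy, hιm x y⟩
  have hn' : ∀ a ∈ S', ‖a‖ ≤ 1 := by
    rintro _ ⟨x, hx, rfl⟩
    rw [hιn]; exact hn x hx
  set e' : ℕ → U := fun n => ι (e n) with he'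
  have heS' : ∀ n, e' n ∈ S' := fun n => ⟨e n, heS n, rfl⟩
  have hl' : ∀ N n, n < N → ‖e' n * (e' N - 1)‖ ≤ (1 / 2 : ℝ) ^ N := by
    intro N n h
    rw [mul_sub, mul_one, he', ← hιm, ← hιs, hιn]
    exact (hee N n h).2
  have hr' : ∀ N n, n < N → ‖(e' N - 1) * e' n‖ ≤ (1 / 2 : ℝ) ^ N := by
    intro N n h
    rw [sub_mul, one_mul, he', ← hιm, ← hιs, hιn]
    exact (hee N n h).1
  have hlim : ∀ t : ℝ, ∃ m : U, 0 < t → Tendsto (fun N => E e' (N + 1) t) atTop (𝓝 m) := by
    intro t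
    by_cases ht : 0 < t
    · obtain ⟨m, hm⟩ := cauchySeq_tendsto_of_complete
        (cauchySeq_E hc' hcl' hm' hn' heS' hl' hr' ht)
      exact ⟨m, fun _ => hm⟩
    · exact ⟨0, fun h => absurd h ht⟩
  choose m hmlim using hlim
  have hmS : ∀ t > 0, m t ∈ S' := fun t ht => lim_mem hc' hcl' hm' heS' ht (hmlim t ht)
  have hmX : ∀ t : ℝ, ∃ x : X, 0 < t → x ∈ S ∧ ι x = m t := by
    intro t
    by_cases ht : 0 < t
    · obtain ⟨x, hx, hxm⟩ := hmS t ht
      exact ⟨x, fun _ => ⟨hx, hxm⟩⟩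
    · exact ⟨0, fun h => absurd h ht⟩
  choose μ hμ using hmX
  refine ⟨μ, fun t ht => (hμ t ht).1, ?_, ?_, ?_⟩
  · intro s hs t ht
    apply hιi.injective
    rw [hιm, (hμ _ (add_pos hs ht)).2, (hμ s hs).2, (hμ t ht).2]
    refine tendsto_nhds_unique (hmlim _ (add_pos hs ht)) ?_
    refine ((hmlim s hs).mul (hmlim t ht)).congr fun N => ?_
    rw [E_add]
  · -- left strong continuity
    have hcont : ∀ n, Continuous fun t => E e' n t := fun n =>
      continuous_iff_continuousAt.mpr fun t => (hasDerivAt_E e' n t).continuousAt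
    have hdense : ∀ n, Tendsto (fun t => μ t * f n) (𝓝[>] 0) (𝓝 (f n)) := by
      intro n
      rw [tendsto_iff_norm_sub_tendsto_zero]
      have hb : ∀ t > 0, ‖μ t * f n - f n‖ ≤
          2 * (1 + ‖ι (f n)‖) * t + ‖E e' (n + 1) t * ι (f n) - ι (f n)‖ := by
        intro t ht
        have h1 := left_close hc' hcl' hm' hn' heS' hr' (f := ι (f n)) (j := n + 1) (by omega)
          (fun N hN => by
            rw [sub_mul, one_mul, he', ← hιm, ← hιs, hιn]
            exact (hef N n (by omega)).1) ht.le (hmlim t ht)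
        rw [← hιn, hιs, hιm, (hμ t ht).2]
        calc ‖m t * ι (f n) - ι (f n)‖ = ‖(m t * ι (f n) - E e' (n + 1) t * ι (f n))
              + (E e' (n + 1) t * ι (f n) - ι (f n))‖ := by congr 1; abel
          _ ≤ _ := (norm_add_le _ _).trans (add_le_add h1 le_rfl)
      have hlim0 : Tendsto (fun t : ℝ => 2 * (1 + ‖ι (f n)‖) * t
          + ‖E e' (n + 1) t * ι (f n) - ι (f n)‖) (𝓝[>] 0) (𝓝 0) := by
        have h2 : Continuous fun t : ℝ => 2 * (1 + ‖ι (f n)‖) * t
          + ‖E e' (n + 1) t * ι (f n) - ι (f n)‖ :=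
          (continuous_const.mul continuous_id).add
            ((((hcont (n + 1)).mul continuous_const).sub continuous_const).norm)
        have h3 := h2.tendsto 0
        simp only [mul_zero, E_zero, one_mul, sub_self, norm_zero, add_zero] at h3
        exact h3.mono_left nhdsWithin_le_nhds
      refine squeeze_zero' (Eventually.of_forall fun t => norm_nonneg _) ?_ hlim0
      filter_upwards [self_mem_nhdsWithin] with t ht
      exact hb t ht
    intro g
    rw [Metric.tendsto_nhds]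
    intro ε hε
    obtain ⟨n, hn1⟩ := hf.exists_dist_lt g (by positivity : 0 < ε / 3)
    have h4 := Metric.tendsto_nhds.mp (hdense n) (ε / 3) (by positivity)
    filter_upwards [h4, self_mem_nhdsWithin] with t ht1 ht0
    rw [dist_eq_norm] at hn1 ht1 ⊢
    calc ‖μ t * g - g‖ = ‖μ t * (g - f n) + (μ t * f n - f n) - (g - f n)‖ := by
          congr 1; rw [mul_sub]; abel
      _ ≤ ‖μ t * (g - f n)‖ + ‖μ t * f n - f n‖ + ‖g - f n‖ :=
          (norm_sub_le _ _).trans (add_le_add (norm_add_le _ _) le_rfl)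
      _ ≤ 1 * ‖g - f n‖ + ‖μ t * f n - f n‖ + ‖g - f n‖ := by
          gcongr
          exact (norm_mul_le _ _).trans (mul_le_mul_of_nonneg_right
            (hn _ (hμ t ht0).1) (norm_nonneg _))
      _ < ε := by linarith
  · -- right strong continuity
    have hcont : ∀ n, Continuous fun t => E e' n t := fun n =>
      continuous_iff_continuousAt.mpr fun t => (hasDerivAt_E e' n t).continuousAt
    have hdense : ∀ n, Tendsto (fun t => f n * μ t) (𝓝[>] 0) (𝓝 (f n)) := by
      intro n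
      rw [tendsto_iff_norm_sub_tendsto_zero]
      have hb : ∀ t > 0, ‖f n * μ t - f n‖ ≤
          2 * (1 + ‖ι (f n)‖) * t + ‖ι (f n) * E e' (n + 1) t - ι (f n)‖ := by
        intro t ht
        have h1 := right_close hc' hcl' hm' hn' heS' hl' (f := ι (f n)) (j := n + 1) (by omega)
          (fun N hN => by
            rw [mul_sub, mul_one, he', ← hιm, ← hιs, hιn]
            exact (hef N n (by omega)).2) ht.le (hmlim t ht)
        rw [← hιn, hιs, hιm, (hμ t ht).2]
        calc ‖ι (f n) * m t - ι (f n)‖ = ‖(ι (f n) * m t - ι (f n) * E e' (n + 1) t)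
              + (ι (f n) * E e' (n + 1) t - ι (f n))‖ := by congr 1; abel
          _ ≤ _ := (norm_add_le _ _).trans (add_le_add h1 le_rfl)
      have hlim0 : Tendsto (fun t : ℝ => 2 * (1 + ‖ι (f n)‖) * t
          + ‖ι (f n) * E e' (n + 1) t - ι (f n)‖) (𝓝[>] 0) (𝓝 0) := by
        have h2 : Continuous fun t : ℝ => 2 * (1 + ‖ι (f n)‖) * t
          + ‖ι (f n) * E e' (n + 1) t - ι (f n)‖ :=
          (continuous_const.mul continuous_id).add
            (((continuous_const.mul (hcont (n + 1))).sub continuous_const).norm)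
        have h3 := h2.tendsto 0
        simp only [mul_zero, E_zero, mul_one, sub_self, norm_zero, add_zero] at h3
        exact h3.mono_left nhdsWithin_le_nhds
      refine squeeze_zero' (Eventually.of_forall fun t => norm_nonneg _) ?_ hlim0
      filter_upwards [self_mem_nhdsWithin] with t ht
      exact hb t ht
    intro g
    rw [Metric.tendsto_nhds]
    intro ε hε
    obtain ⟨n, hn1⟩ := hf.exists_dist_lt g (by positivity : 0 < ε / 3)
    have h4 := Metric.tendsto_nhds.mp (hdense n) (ε / 3) (by positivity)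
    filter_upwards [h4, self_mem_nhdsWithin] with t ht1 ht0
    rw [dist_eq_norm] at hn1 ht1 ⊢
    calc ‖g * μ t - g‖ = ‖(g - f n) * μ t + (f n * μ t - f n) - (g - f n)‖ := by
          congr 1; rw [sub_mul]; abel
      _ ≤ ‖(g - f n) * μ t‖ + ‖f n * μ t - f n‖ + ‖g - f n‖ :=
          (norm_sub_le _ _).trans (add_le_add (norm_add_le _ _) le_rfl)
      _ ≤ ‖g - f n‖ * 1 + ‖f n * μ t - f n‖ + ‖g - f n‖ := by
          gcongr
          exact (norm_mul_le _ _).trans (mul_le_mul_of_nonneg_left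
            (hn _ (hμ t ht0).1) (norm_nonneg _))
      _ < ε := by linarith

end Main

end Pool.Agent.Lib.MP_893ae4_anV
end

section

/-!
The unitary between the completed algebraic tensor square and an abstract Hilbert space tensor
square, and transport of operators.
-/

open scoped InnerProductSpace TensorProduct ComplexOrder Topology
open UniformSpace Filter

namespace Pool.Agent.Lib.MP_893ae4_anV.Bridge

noncomputable section

universe u v

variable {H : Type u} {K : Type v} [NormedAddCommGroup H] [InnerProductSpace ℂ H]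
  [CompleteSpace H] [NormedAddCommGroup K] [InnerProductSpace ℂ K] [CompleteSpace K]

section U

variable (T : LCQG.HilbertTensor H K)

lemma L_add_left (a a' b : H) : T.L (a + a') b = T.L a b + T.L a' b := by
  rw [T.L_eq_R, T.L_eq_R, T.L_eq_R, map_add]

lemma L_smul_left (c : ℂ) (a b : H) : T.L (c • a) b = c • T.L a b := by
  rw [T.L_eq_R, T.L_eq_R, map_smul]

/-- The algebraic map `H ⊗ H → K`. -/
def u0 : (H ⊗[ℂ] H) →ₗ[ℂ] K :=
  TensorProduct.lift (LinearMap.mk₂ ℂ (fun a b => T.L a b) (fun a a' b => L_add_left T a a' b)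
    (fun c a b => L_smul_left T c a b) (fun a b b' => map_add _ _ _)
    (fun c a b => map_smul _ _ _))

lemma u0_tmul (a b : H) : u0 T (a ⊗ₜ[ℂ] b) = T.L a b := by
  unfold u0
  rw [TensorProduct.lift.tmul]
  rfl

lemma inner_u0 (x y : H ⊗[ℂ] H) : ⟪u0 T x, u0 T y⟫_ℂ = ⟪x, y⟫_ℂ := by
  induction x using TensorProduct.induction_on with
  | zero => rw [map_zero, inner_zero_left, inner_zero_left]
  | tmul a b =>
    induction y using TensorProduct.induction_on with
    | zero => rw [map_zero, inner_zero_right, inner_zero_right]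
    | tmul c d => rw [u0_tmul, u0_tmul, T.inner_eq, TensorProduct.inner_tmul]
    | add y y' hy hy' => rw [map_add, inner_add_right, inner_add_right, hy, hy']
  | add x x' hx hx' => rw [map_add, inner_add_left, inner_add_left, hx, hx']

lemma norm_u0 (x : H ⊗[ℂ] H) : ‖u0 T x‖ = ‖x‖ := by
  rw [@norm_eq_sqrt_re_inner ℂ, @norm_eq_sqrt_re_inner ℂ _ _ _ _ x, inner_u0]

/-- The algebraic map as a continuous map. -/
def u0L : (H ⊗[ℂ] H) →L[ℂ] K :=
  (u0 T).mkContinuous 1 (fun x => by rw [one_mul, norm_u0])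

/-- The unitary `HH H → K`. -/
def U : HH H →L[ℂ] K := (u0L T).extend (incl : (H ⊗[ℂ] H) →L[ℂ] HH H)

lemma U_incl (x : H ⊗[ℂ] H) : U T (incl x) = u0 T x :=
  ContinuousLinearMap.extend_eq (u0L T) denseRange_incl isUniformInducing_incl x

lemma U_tm (a b : H) : U T (tm a b) = T.L a b := by
  unfold tm
  rw [U_incl, u0_tmul]

lemma adj_U_comp_U (ζ : HH H) : ContinuousLinearMap.adjoint (U T) (U T ζ) = ζ := by
  have h : (ContinuousLinearMap.adjoint (U T) ∘L U T : HH H →L[ℂ] HH H) = 1 := by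
    refine ext_inner_tm fun a b c d => ?_
    rw [ContinuousLinearMap.comp_apply, ContinuousLinearMap.adjoint_inner_right, U_tm, U_tm,
      T.inner_eq]
    have : (1 : HH H →L[ℂ] HH H) (tm a b) = tm a b := rfl
    rw [this, inner_tm]
  have h2 := congrArg (fun z : HH H →L[ℂ] HH H => z ζ) h
  exact h2

lemma U_comp_adj_U (ζ : K) : U T (ContinuousLinearMap.adjoint (U T) ζ) = ζ := by
  have hc1 : Continuous fun ζ : K => U T (ContinuousLinearMap.adjoint (U T) ζ) :=
    (U T).continuous.comp (ContinuousLinearMap.adjoint (U T)).continuous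
  have h : (fun ζ : K => U T (ContinuousLinearMap.adjoint (U T) ζ)) = fun ζ => ζ := by
    refine Continuous.ext_on T.total hc1 continuous_id fun z hz => ?_
    induction hz using Submodule.span_induction with
    | mem x hx =>
      obtain ⟨a, b, rfl⟩ := hx
      rw [← U_tm T a b, adj_U_comp_U]
    | zero => rw [map_zero, map_zero]
    | add x y _ _ hx hy => rw [map_add, map_add, hx, hy]
    | smul c x _ hx => rw [map_smul, map_smul, hx]
  exact congrFun h ζ

/-- Transport of an operator from `K` to `HH H`. -/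
def cj (z : K →L[ℂ] K) : HH H →L[ℂ] HH H :=
  ContinuousLinearMap.adjoint (U T) ∘L z ∘L U T

/-- Transport of an operator from `HH H` to `K`. -/
def ci (z : HH H →L[ℂ] HH H) : K →L[ℂ] K :=
  U T ∘L z ∘L ContinuousLinearMap.adjoint (U T)

lemma cj_apply (z : K →L[ℂ] K) (ζ : HH H) :
    cj T z ζ = ContinuousLinearMap.adjoint (U T) (z (U T ζ)) := rfl

lemma ci_apply (z : HH H →L[ℂ] HH H) (ζ : K) :
    ci T z ζ = U T (z (ContinuousLinearMap.adjoint (U T) ζ)) := rfl

lemma cj_ci (z : HH H →L[ℂ] HH H) : cj T (ci T z) = z := by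
  ext ζ
  rw [cj_apply, ci_apply, adj_U_comp_U, adj_U_comp_U]

lemma ci_cj (z : K →L[ℂ] K) : ci T (cj T z) = z := by
  ext ζ
  rw [ci_apply, cj_apply, U_comp_adj_U, U_comp_adj_U]

lemma cj_mul (z w : K →L[ℂ] K) : cj T (z * w) = cj T z * cj T w := by
  ext ζ
  rw [mul_apply_eq_comp, cj_apply, cj_apply, cj_apply, mul_apply_eq_comp, U_comp_adj_U]

lemma cj_one : cj T (1 : K →L[ℂ] K) = 1 := by
  ext ζ
  rw [cj_apply]
  exact adj_U_comp_U T ζ

lemma cj_add (z w : K →L[ℂ] K) : cj T (z + w) = cj T z + cj T w := by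
  ext ζ
  rw [add_apply, cj_apply, cj_apply, cj_apply, add_apply, map_add]

lemma cj_smul (c : ℂ) (z : K →L[ℂ] K) : cj T (c • z) = c • cj T z := by
  ext ζ
  rw [smul_apply, cj_apply, cj_apply, smul_apply, map_smul]

lemma cj_star (z : K →L[ℂ] K) : cj T (star z) = star (cj T z) := by
  refine ext_inner_tm fun a b c d => ?_
  rw [ContinuousLinearMap.star_eq_adjoint (cj T z), ContinuousLinearMap.adjoint_inner_right,
    cj_apply, cj_apply, ContinuousLinearMap.adjoint_inner_right,
    ContinuousLinearMap.adjoint_inner_left, ContinuousLinearMap.star_eq_adjoint,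
    ContinuousLinearMap.adjoint_inner_right]

lemma ci_mul (z w : HH H →L[ℂ] HH H) : ci T (z * w) = ci T z * ci T w := by
  ext ζ
  rw [mul_apply_eq_comp, ci_apply, ci_apply, ci_apply, mul_apply_eq_comp, adj_U_comp_U]

lemma inner_cj (z : K →L[ℂ] K) (a b c d : H) :
    ⟪tm a b, cj T z (tm c d)⟫_ℂ = ⟪T.L a b, z (T.L c d)⟫_ℂ := by
  rw [cj_apply, ContinuousLinearMap.adjoint_inner_right, U_tm, U_tm]

lemma inner_cj' (z : K →L[ℂ] K) (ζ ζ' : HH H) :
    ⟪ζ', cj T z ζ⟫_ℂ = ⟪U T ζ', z (U T ζ)⟫_ℂ := by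
  rw [cj_apply, ContinuousLinearMap.adjoint_inner_right]

lemma inner_sliceL_LCQG (z : K →L[ℂ] K) (ξ η a b : H) :
    ⟪b, LCQG.sliceL T z ξ η a⟫_ℂ = ⟪T.L η b, z (T.L ξ a)⟫_ℂ := by
  unfold LCQG.sliceL
  rw [ContinuousLinearMap.comp_apply, ContinuousLinearMap.comp_apply,
    ContinuousLinearMap.adjoint_inner_right]

lemma inner_sliceR_LCQG (z : K →L[ℂ] K) (ξ η a b : H) :
    ⟪b, LCQG.sliceR T z ξ η a⟫_ℂ = ⟪T.L b η, z (T.L a ξ)⟫_ℂ := by
  unfold LCQG.sliceR
  rw [ContinuousLinearMap.comp_apply, ContinuousLinearMap.comp_apply,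
    ContinuousLinearMap.adjoint_inner_right, T.L_eq_R, T.L_eq_R]

lemma sliceL_cj (z : K →L[ℂ] K) (ξ η : H) : sliceL (cj T z) ξ η = LCQG.sliceL T z ξ η := by
  refine ext_inner_op fun a b => ?_
  rw [inner_sliceL, inner_cj, inner_sliceL_LCQG]

lemma sliceR_cj (z : K →L[ℂ] K) (ξ η : H) : sliceR (cj T z) ξ η = LCQG.sliceR T z ξ η := by
  refine ext_inner_op fun a b => ?_
  rw [inner_sliceR, inner_cj, inner_sliceR_LCQG]

lemma cj_of_isTens {z : K →L[ℂ] K} {x y : H →L[ℂ] H} (h : LCQG.IsTens T z x y) :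
    cj T z = tens x y := by
  refine ext_tm fun a b => ?_
  rw [cj_apply, U_tm, h a b, ← U_tm, adj_U_comp_U, tens_tm]

lemma isTens_ci (x y : H →L[ℂ] H) : LCQG.IsTens T (ci T (tens x y)) x y := by
  intro a b
  rw [ci_apply, ← U_tm T a b, adj_U_comp_U, tens_tm, U_tm]

lemma cj_inj {z w : K →L[ℂ] K} (h : cj T z = cj T w) : z = w := by
  rw [← ci_cj T z, h, ci_cj]

lemma cj_mem_tensorSq (M : VonNeumannAlgebra H) {z : K →L[ℂ] K}
    (hz : z ∈ LCQG.tensorSq T M) : cj T z ∈ tensorSq M := by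
  have key : ∀ g : HH H →L[ℂ] HH H, g ∈ StarSubalgebra.centralizer ℂ
      {z : HH H →L[ℂ] HH H | ∃ x ∈ M, ∃ y ∈ M, z = tens x y} → g * cj T z = cj T z * g := by
    intro g hg
    have h1 : ci T g ∈ Set.centralizer {z | ∃ x ∈ M, ∃ y ∈ M, LCQG.IsTens T z x y} := by
      rintro w ⟨x, hx, y, hy, hw⟩
      have h2 := ((StarSubalgebra.mem_centralizer_iff ℂ).1 hg _ ⟨x, hx, y, hy, rfl⟩).1
      apply cj_inj T
      rw [cj_mul, cj_mul, cj_ci, cj_of_isTens T hw]
      exact h2
    have h3 := hz _ h1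
    have h4 := congrArg (cj T) h3
    rw [cj_mul, cj_mul, cj_ci] at h4
    exact h4
  unfold tensorSq
  rw [StarSubalgebra.mem_centralizer_iff]
  intro g hg
  exact ⟨key g hg, key (star g) (star_mem hg)⟩

lemma cj_mem_leftAmpl (M : VonNeumannAlgebra H) {z : K →L[ℂ] K}
    (hz : z ∈ LCQG.leftAmpl T M) : cj T z ∈ leftAmpl M := by
  have key : ∀ g ∈ M.commutant, tens g 1 * cj T z = cj T z * tens g 1 := by
    intro g hg
    have h3 := hz (ci T (tens g 1)) ⟨g, hg, isTens_ci T g 1⟩
    have h4 := congrArg (cj T) h3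
    rw [cj_mul, cj_mul, cj_ci] at h4
    exact h4
  unfold leftAmpl
  rw [StarSubalgebra.mem_centralizer_iff]
  rintro _ ⟨g, hg, rfl⟩
  refine ⟨key g hg, ?_⟩
  rw [star_tens, star_one]
  exact key (star g) (star_mem hg)

lemma cj_mem_rightAmpl (M : VonNeumannAlgebra H) {z : K →L[ℂ] K}
    (hz : z ∈ LCQG.rightAmpl T M) : cj T z ∈ rightAmpl M := by
  have key : ∀ g ∈ M.commutant, tens 1 g * cj T z = cj T z * tens 1 g := by
    intro g hg
    have h3 := hz (ci T (tens 1 g)) ⟨g, hg, isTens_ci T 1 g⟩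
    have h4 := congrArg (cj T) h3
    rw [cj_mul, cj_mul, cj_ci] at h4
    exact h4
  unfold rightAmpl
  rw [StarSubalgebra.mem_centralizer_iff]
  rintro _ ⟨g, hg, rfl⟩
  refine ⟨key g hg, ?_⟩
  rw [star_tens, star_one]
  exact key (star g) (star_mem hg)

end U

end

end Pool.Agent.Lib.MP_893ae4_anV.Bridge
end
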