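import Pool.Agent.Lib.MP_893ae4_anV.HopfDef

/-!
The convolution product on the predual of a Hopf-von Neumann algebra.
-/

open scoped InnerProductSpace TensorProduct ComplexOrder Topology
open UniformSpace Filter

namespace Pool.Agent.Lib.MP_893ae4_anV

noncomputable section

universe u

variable {H : Type u} [NormedAddCommGroup H] [InnerProductSpace ℂ H] [CompleteSpace H]

namespace HopfVonNeumann

variable (Q : HopfVonNeumann H)

/-- The slice `(id ⊗ ν)(Δ(x))` as an element of `M`. -/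
def rslice (ν : L1 Q.M) (x : Alg Q.M) : Alg Q.M :=
  ⟨Sop (toFn ν) (Q.Δ x), Sop_mem (toFn_mem ν) (Q.Δ x)⟩

lemma inner_rslice (ν : L1 Q.M) (x : Alg Q.M) (ξ η : H) :
    ⟪η, (Q.rslice ν x : H →L[ℂ] H) ξ⟫_ℂ = ν (sl (Q.Δ x) ξ η) := inner_Sop _ _ _ _

lemma norm_rslice_le (ν : L1 Q.M) (x : Alg Q.M) : ‖Q.rslice ν x‖ ≤ ‖ν‖ * ‖x‖ := by
  have h1 : ‖Q.rslice ν x‖ ≤ ‖ν‖ * ‖Q.Δ x‖ := norm_Sop_le _ _
  exact h1.trans (mul_le_mul_of_nonneg_left (Q.norm_Δ_le x) (norm_nonneg ν))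

lemma rslice_add (ν : L1 Q.M) (x y : Alg Q.M) :
    Q.rslice ν (x + y) = Q.rslice ν x + Q.rslice ν y := by
  apply Subtype.ext
  change Sop (toFn ν) (Q.Δ (x + y)) = Sop (toFn ν) (Q.Δ x) + Sop (toFn ν) (Q.Δ y)
  rw [map_add, Sop_add_right]

lemma rslice_smul (ν : L1 Q.M) (c : ℂ) (x : Alg Q.M) :
    Q.rslice ν (c • x) = c • Q.rslice ν x := by
  apply Subtype.ext
  change Sop (toFn ν) (Q.Δ (c • x)) = c • Sop (toFn ν) (Q.Δ x)
  rw [map_smul, Sop_smul_right]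

lemma rslice_add_left (ν ν' : L1 Q.M) (x : Alg Q.M) :
    Q.rslice (ν + ν') x = Q.rslice ν x + Q.rslice ν' x := by
  apply Subtype.ext
  change Sop (toFn (ν + ν')) (Q.Δ x) = Sop (toFn ν) (Q.Δ x) + Sop (toFn ν') (Q.Δ x)
  rw [map_add, Sop_add_left]

lemma rslice_smul_left (c : ℂ) (ν : L1 Q.M) (x : Alg Q.M) :
    Q.rslice (c • ν) x = c • Q.rslice ν x := by
  apply Subtype.ext
  change Sop (toFn (c • ν)) (Q.Δ x) = c • Sop (toFn ν) (Q.Δ x)
  rw [map_smul, Sop_smul_left]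

lemma rslice_zero_left (x : Alg Q.M) : Q.rslice 0 x = 0 := by
  have h := Q.rslice_smul_left 0 0 x
  rw [zero_smul, zero_smul] at h
  exact h

lemma rslice_vec (ξ η : H) (x : Alg Q.M) :
    Q.rslice (vecL1 Q.M ξ η) x = sr (Q.Δ x) ξ η := by
  apply Subtype.ext
  exact Sop_vec _ _ _

/-- The functional `μ ⋆ ν = (μ ⊗ ν) ∘ Δ` for `μ` a bounded functional and `ν` normal. -/
def convD (μ : StrongDual ℂ (Alg Q.M)) (ν : L1 Q.M) : StrongDual ℂ (Alg Q.M) :=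
  LinearMap.mkContinuous
    { toFun := fun x => μ (Q.rslice ν x)
      map_add' := fun x y => by rw [rslice_add, map_add]
      map_smul' := fun c x => by rw [rslice_smul, map_smul]; rfl } (‖μ‖ * ‖ν‖)
    (fun x => by
      have h1 := μ.le_opNorm (Q.rslice ν x)
      calc ‖μ (Q.rslice ν x)‖ ≤ ‖μ‖ * ‖Q.rslice ν x‖ := h1
        _ ≤ ‖μ‖ * (‖ν‖ * ‖x‖) := mul_le_mul_of_nonneg_left (Q.norm_rslice_le ν x) (norm_nonneg _)
        _ = ‖μ‖ * ‖ν‖ * ‖x‖ := by ring)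

lemma convD_apply (μ : StrongDual ℂ (Alg Q.M)) (ν : L1 Q.M) (x : Alg Q.M) :
    Q.convD μ ν x = μ (Q.rslice ν x) := rfl

lemma norm_convD_le (μ : StrongDual ℂ (Alg Q.M)) (ν : L1 Q.M) :
    ‖Q.convD μ ν‖ ≤ ‖μ‖ * ‖ν‖ :=
  LinearMap.mkContinuous_norm_le _ (by positivity) _

lemma convD_add_left (μ μ' : StrongDual ℂ (Alg Q.M)) (ν : L1 Q.M) :
    Q.convD (μ + μ') ν = Q.convD μ ν + Q.convD μ' ν := by
  ext x
  rfl

lemma convD_smul_left (c : ℂ) (μ : StrongDual ℂ (Alg Q.M)) (ν : L1 Q.M) :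
    Q.convD (c • μ) ν = c • Q.convD μ ν := by
  ext x
  rfl

lemma convD_add_right (μ : StrongDual ℂ (Alg Q.M)) (ν ν' : L1 Q.M) :
    Q.convD μ (ν + ν') = Q.convD μ ν + Q.convD μ ν' := by
  ext x
  rw [add_apply, convD_apply, convD_apply, convD_apply, rslice_add_left, map_add]

lemma convD_smul_right (c : ℂ) (μ : StrongDual ℂ (Alg Q.M)) (ν : L1 Q.M) :
    Q.convD μ (c • ν) = c • Q.convD μ ν := by
  ext x
  rw [smul_apply, convD_apply, convD_apply, rslice_smul_left, map_smul]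

/-- `convD` as a continuous bilinear map. -/
def convL : StrongDual ℂ (Alg Q.M) →L[ℂ] L1 Q.M →L[ℂ] StrongDual ℂ (Alg Q.M) :=
  LinearMap.mkContinuous₂
    (LinearMap.mk₂ ℂ Q.convD Q.convD_add_left Q.convD_smul_left Q.convD_add_right
      (fun c μ ν => Q.convD_smul_right c μ ν)) 1
    (fun μ ν => by rw [one_mul]; exact Q.norm_convD_le μ ν)

lemma convL_apply (μ : StrongDual ℂ (Alg Q.M)) (ν : L1 Q.M) :
    Q.convL μ ν = Q.convD μ ν := rfl

lemma convD_vec_vec (ξ₁ η₁ ξ₂ η₂ : H) (x : Alg Q.M) :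
    Q.convD (vec Q.M ξ₁ η₁) (vecL1 Q.M ξ₂ η₂) x =
      ⟪tm η₁ η₂, (Q.Δ x : HH H →L[ℂ] HH H) (tm ξ₁ ξ₂)⟫_ℂ := by
  rw [convD_apply, rslice_vec, vec_apply, inner_sr]

lemma continuous_convD_right (μ : StrongDual ℂ (Alg Q.M)) :
    Continuous fun ν : L1 Q.M => Q.convD μ ν := (Q.convL μ).continuous

lemma continuous_convD_left (ν : L1 Q.M) :
    Continuous fun μ : StrongDual ℂ (Alg Q.M) => Q.convD μ ν :=
  (Q.convL.continuous).clm_apply continuous_const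

lemma convD_vec_vec_mem (ξ₁ η₁ ξ₂ η₂ : H) :
    Q.convD (vec Q.M ξ₁ η₁) (vecL1 Q.M ξ₂ η₂) ∈ predual Q.M := by
  obtain ⟨f, hf'⟩ := Q.normal (tm ξ₁ ξ₂) (tm η₁ η₂)
  have h : Q.convD (vec Q.M ξ₁ η₁) (vecL1 Q.M ξ₂ η₂) = toFn f := by
    refine ContinuousLinearMap.ext fun x => ?_
    exact (convD_vec_vec Q ξ₁ η₁ ξ₂ η₂ x).trans (hf' x).symm
  rw [h]; exact toFn_mem f

lemma convD_zero_right (μ : StrongDual ℂ (Alg Q.M)) : Q.convD μ 0 = 0 := (Q.convL μ).map_zero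

lemma convD_zero_left (ν : L1 Q.M) : Q.convD 0 ν = 0 := by
  refine ContinuousLinearMap.ext fun x => ?_
  rfl

lemma convD_vec_mem (ξ₁ η₁ : H) (ν : L1 Q.M) : Q.convD (vec Q.M ξ₁ η₁) ν ∈ predual Q.M := by
  refine L1_induction Q.M
    (P := fun ν : L1 Q.M => Q.convD (vec Q.M ξ₁ η₁) ν ∈ predual Q.M) ?_ ?_ ?_ ?_ ?_ ν
  · exact (isClosed_predual Q.M).preimage (Q.continuous_convD_right (vec Q.M ξ₁ η₁))
  · intro ξ₂ η₂
    exact Q.convD_vec_vec_mem ξ₁ η₁ ξ₂ η₂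
  · rw [convD_zero_right]; exact Submodule.zero_mem _
  · intro f g hf hg
    rw [convD_add_right]; exact Submodule.add_mem _ hf hg
  · intro c f hf
    rw [convD_smul_right]; exact Submodule.smul_mem _ _ hf

lemma convD_mem (μ ν : L1 Q.M) : Q.convD (toFn μ) ν ∈ predual Q.M := by
  refine predual_induction Q.M (P := fun μ => Q.convD μ ν ∈ predual Q.M)
    ?_ ?_ ?_ ?_ ?_ (toFn_mem μ)
  · exact (isClosed_predual Q.M).preimage (Q.continuous_convD_left ν)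
  · intro ξ₁ η₁
    exact Q.convD_vec_mem ξ₁ η₁ ν
  · rw [convD_zero_left]; exact Submodule.zero_mem _
  · intro f g hf hg
    rw [convD_add_left]; exact Submodule.add_mem _ hf hg
  · intro c f hf
    rw [convD_smul_left]; exact Submodule.smul_mem _ _ hf

/-- The convolution product `μ ⋆ ν = (μ ⊗ ν) ∘ Δ` on the predual. -/
def conv (μ ν : L1 Q.M) : L1 Q.M := L1mk (Q.convD (toFn μ) ν) (Q.convD_mem μ ν)

lemma conv_apply (μ ν : L1 Q.M) (x : Alg Q.M) : Q.conv μ ν x = μ (Q.rslice ν x) := rfl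

lemma norm_conv_le (μ ν : L1 Q.M) : ‖Q.conv μ ν‖ ≤ ‖μ‖ * ‖ν‖ := Q.norm_convD_le _ _

lemma conv_add_left (μ μ' ν : L1 Q.M) : Q.conv (μ + μ') ν = Q.conv μ ν + Q.conv μ' ν := by
  refine L1_ext fun x => ?_
  rw [map_add, add_apply, conv_apply, conv_apply, conv_apply, map_add, add_apply]

lemma conv_add_right (μ ν ν' : L1 Q.M) : Q.conv μ (ν + ν') = Q.conv μ ν + Q.conv μ ν' := by
  refine L1_ext fun x => ?_
  rw [map_add, add_apply, conv_apply, conv_apply, conv_apply, rslice_add_left, map_add]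

lemma conv_smul_left (c : ℂ) (μ ν : L1 Q.M) : Q.conv (c • μ) ν = c • Q.conv μ ν := by
  refine L1_ext fun x => ?_
  rw [map_smul, smul_apply, conv_apply, conv_apply, map_smul, smul_apply]

lemma conv_smul_right (c : ℂ) (μ ν : L1 Q.M) : Q.conv μ (c • ν) = c • Q.conv μ ν := by
  refine L1_ext fun x => ?_
  rw [map_smul, smul_apply, conv_apply, conv_apply, rslice_smul_left, map_smul]

/-- Convolution as a continuous bilinear map on the predual. -/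
def convPL : L1 Q.M →L[ℂ] L1 Q.M →L[ℂ] L1 Q.M :=
  LinearMap.mkContinuous₂
    (LinearMap.mk₂ ℂ Q.conv Q.conv_add_left Q.conv_smul_left Q.conv_add_right
      (fun c μ ν => Q.conv_smul_right c μ ν)) 1
    (fun μ ν => by rw [one_mul]; exact Q.norm_conv_le μ ν)

lemma convPL_apply (μ ν : L1 Q.M) : Q.convPL μ ν = Q.conv μ ν := rfl

/-- The key commutation of left and right slices (coassociativity). -/
lemma slice_comm (ν : L1 Q.M) (x : Alg Q.M) (ξ₁ η₁ : H) :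
    sl (Q.Δ (Q.rslice ν x)) ξ₁ η₁ = Q.rslice ν (sl (Q.Δ x) ξ₁ η₁) := by
  refine alg_ext fun ξ₂ η₂ => ?_
  obtain ⟨g, hg'⟩ := Q.normal (tm ξ₁ ξ₂) (tm η₁ η₂)
  have h1 : ⟪η₂, (sl (Q.Δ (Q.rslice ν x)) ξ₁ η₁ : H →L[ℂ] H) ξ₂⟫_ℂ = g (Q.rslice ν x) := by
    rw [inner_sl, hg']
  rw [h1, inner_rslice]
  refine L1_induction Q.M
    (P := fun ν : L1 Q.M => g (Q.rslice ν x) =
      ν (sl (Q.Δ (sl (Q.Δ x) ξ₁ η₁)) ξ₂ η₂)) ?_ ?_ ?_ ?_ ?_ ν
  · refine isClosed_eq ?_ ?_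
    · have hc : Continuous fun ν : L1 Q.M => Q.convL (toFn g) ν := (Q.convL (toFn g)).continuous
      exact hc.clm_apply continuous_const
    · exact toFn.continuous.clm_apply continuous_const
  · intro ξ₃ η₃
    rw [rslice_vec, hg', Q.coassoc, toFn_vecL1, vec_apply, inner_sl]
  · rw [rslice_zero_left, map_zero, map_zero]; rfl
  · intro f f' hf hf'
    rw [rslice_add_left, map_add, hf, hf', map_add, add_apply]
  · intro c f hf
    rw [rslice_smul_left, map_smul, hf, map_smul, smul_apply]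

lemma conv_assoc (μ ν ρ : L1 Q.M) : Q.conv (Q.conv μ ν) ρ = Q.conv μ (Q.conv ν ρ) := by
  refine L1_ext fun x => ?_
  rw [conv_apply, conv_apply, conv_apply]
  congr 1
  refine alg_ext fun ξ₁ η₁ => ?_
  rw [inner_rslice, inner_rslice, conv_apply, slice_comm]

end HopfVonNeumann

end

end Pool.Agent.Lib.MP_893ae4_anV
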