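import Pool.Agent.Lib.MP_893ae4_anV.StatesA
import Pool.Agent.Lib.MP_893ae4_anV.HopfVN
import Pool.Agent.Lib.MP_893ae4_anV.QG
import Pool.Agent.Lib.MP_893ae4_anV.BridgeU

section

/-!
The convolution of normal states is a normal state.
-/

open scoped InnerProductSpace TensorProduct ComplexOrder Topology
open UniformSpace Filter

namespace Pool.Agent.Lib.MP_893ae4_anV

noncomputable section

universe u

variable {H : Type u} [NormedAddCommGroup H] [InnerProductSpace ℂ H] [CompleteSpace H]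
variable {M : VonNeumannAlgebra H}

lemma sl_star_mul_self_nonneg (z : ↥(tensorSq M)) (ξ η : H) :
    0 ≤ ⟪η, (sl (star z * z) ξ ξ : H →L[ℂ] H) η⟫_ℂ := by
  rw [inner_sl]
  have h : ((star z * z : ↥(tensorSq M)) : HH H →L[ℂ] HH H) =
      star (z : HH H →L[ℂ] HH H) * (z : HH H →L[ℂ] HH H) := rfl
  rw [h, mul_apply_eq_comp, ContinuousLinearMap.star_eq_adjoint,
    ContinuousLinearMap.adjoint_inner_right]
  exact inner_self_nonneg' _

lemma sl_one (ξ η : H) : sl (1 : ↥(tensorSq M)) ξ η = ⟪η, ξ⟫_ℂ • (1 : Alg M) := by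
  refine alg_ext fun a b => ?_
  rw [inner_sl, coe_smul_alg, smul_apply, inner_smul_right]
  have h : ((1 : ↥(tensorSq M)) : HH H →L[ℂ] HH H) = 1 := rfl
  rw [h]
  exact inner_tm _ _ _ _

/-- The convolution of normal states is a normal state. -/
lemma isNormalState_conv (Q : HopfVonNeumann H) {μ ν : L1 Q.M} (hμ : IsNormalState Q.M μ)
    (hν : IsNormalState Q.M ν) : IsNormalState Q.M (Q.conv μ ν) := by
  have hμ' := isNormalState_iff.1 hμ
  have hν' := isNormalState_iff.1 hν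
  refine ⟨fun x => ?_, ?_⟩
  · rw [HopfVonNeumann.conv_apply]
    refine hμ'.nonneg fun ξ => ?_
    rw [HopfVonNeumann.inner_rslice, map_mul, StarHomClass.map_star]
    exact hν'.nonneg fun η => sl_star_mul_self_nonneg _ ξ η
  · rw [HopfVonNeumann.conv_apply]
    have h : Q.rslice ν 1 = 1 := by
      refine alg_ext fun ξ η => ?_
      rw [HopfVonNeumann.inner_rslice, map_one, sl_one, map_smul, hν'.one, smul_eq_mul, mul_one]
      rfl
    rw [h]; exact hμ.2

end

end Pool.Agent.Lib.MP_893ae4_anV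
end

section

/-!
Counits: a state which is the counit on the slices of `W` is a left counit on `M` and is the
counit on the slices of `V`. Nets of normal states converging to a counit are approximate
identities.
-/

open scoped InnerProductSpace TensorProduct ComplexOrder Topology
open UniformSpace Filter

namespace Pool.Agent.Lib.MP_893ae4_anV

noncomputable section

universe u

variable {H : Type u} [NormedAddCommGroup H] [InnerProductSpace ℂ H] [CompleteSpace H]

/-- Polarization for vector functionals. -/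
lemma vecL1_polarization (M : VonNeumannAlgebra H) (ξ η : H) :
    vecL1 M ξ η = (4 : ℂ)⁻¹ • (vecL1 M (ξ + η) (ξ + η)
      + Complex.I • vecL1 M (ξ + Complex.I • η) (ξ + Complex.I • η)
      + (-1 : ℂ) • vecL1 M (ξ - η) (ξ - η)
      + (-Complex.I) • vecL1 M (ξ - Complex.I • η) (ξ - Complex.I • η)) := by
  refine L1_ext fun x => ?_
  simp only [map_add, map_smul, add_apply, smul_apply, toFn_vecL1, vec_apply, smul_eq_mul,
    inner_add_left, inner_add_right, inner_sub_left, inner_sub_right, map_sub,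
    inner_smul_left, inner_smul_right, Complex.conj_I]
  linear_combination ((⟪η, (x : H →L[ℂ] H) ξ⟫_ℂ - ⟪ξ, (x : H →L[ℂ] H) η⟫_ℂ) / 2) * Complex.I_sq

/-- A property stable under linear combinations holds for all vector functionals if it holds for
the positive ones. -/
lemma vecL1_of_diag (M : VonNeumannAlgebra H) {P : L1 M → Prop}
    (hadd : ∀ f g, P f → P g → P (f + g)) (hsmul : ∀ (c : ℂ) f, P f → P (c • f))
    (hd : ∀ ζ, P (vecL1 M ζ ζ)) (ξ η : H) : P (vecL1 M ξ η) := by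
  rw [vecL1_polarization]
  exact hsmul _ _ (hadd _ _ (hadd _ _ (hadd _ _ (hd _) (hsmul _ _ (hd _)))
    (hsmul _ _ (hd _))) (hsmul _ _ (hd _)))

/-- A state restricting to the counit on the slices of `W`: `ε((id ⊗ ω)(W)) = ω(1)`. -/
def IsCounitState (Q : QuantumGroup H) (ε : StrongDual ℂ (Alg Q.M)) : Prop :=
  IsState ε ∧ ∀ ξ η : H, ε (slcR Q.W ξ η) = ⟪η, ξ⟫_ℂ

lemma re_inner_self' (η : H) : (⟪η, η⟫_ℂ).re = ‖η‖ ^ 2 := by
  have h := inner_self_eq_norm_sq (𝕜 := ℂ) η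
  exact h

/-- A counit state is a left counit on all of `M`. -/
lemma IsCounitState.left_counit (Q : QuantumGroup H) {ε : StrongDual ℂ (Alg Q.M)}
    (hε : IsCounitState Q ε) (x : Alg Q.M) (ξ η : H) :
    ε (sr (Q.Δ x) ξ η) = ⟪η, (x : H →L[ℂ] H) ξ⟫_ℂ := by
  have h : ε (Q.rslice (vecL1 Q.M ξ η) x) = (vecL1 Q.M ξ η) x := by
    refine vecL1_of_diag Q.M (P := fun f => ε (Q.rslice f x) = f x) ?_ ?_ ?_ ξ η
    · intro f g hf hg
      rw [HopfVonNeumann.rslice_add_left, map_add, hf, hg, map_add, add_apply]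
    · intro c f hf
      rw [HopfVonNeumann.rslice_smul_left, map_smul, hf, map_smul, smul_apply]
    · intro ζ
      have h1 := left_estimate Q hε.1 ζ x
      rw [hε.2 ζ ζ, re_inner_self', sub_self, Real.sqrt_zero, mul_zero] at h1
      have h2 := norm_le_zero_iff.1 h1
      rw [HopfVonNeumann.rslice_vec]
      exact sub_eq_zero.1 h2
  rw [HopfVonNeumann.rslice_vec] at h
  exact h

lemma eq_zero_of_star_V (Q : QuantumGroup H) (ζ : H)
    (h : ∀ ξ₁ ξ₃ η₃ : H, ⟪tm ζ η₃, (Q.V : HH H →L[ℂ] HH H) (tm ξ₁ ξ₃)⟫_ℂ = 0) : ζ = 0 := by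
  have h1 : star (Q.V : HH H →L[ℂ] HH H) (tm ζ ζ) = 0 := by
    have h2 : (innerSL ℂ (star (Q.V : HH H →L[ℂ] HH H) (tm ζ ζ)) : HH H →L[ℂ] ℂ) = 0 := by
      refine ext_tm fun a b => ?_
      rw [innerSL_apply_apply, ContinuousLinearMap.star_eq_adjoint,
        ContinuousLinearMap.adjoint_inner_left, h]
      rfl
    have h3 : (innerSL ℂ (star (Q.V : HH H →L[ℂ] HH H) (tm ζ ζ)) : HH H →L[ℂ] ℂ)
        (star (Q.V : HH H →L[ℂ] HH H) (tm ζ ζ)) = 0 := by rw [h2]; rfl
    rw [innerSL_apply_apply] at h3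
    exact inner_self_eq_zero.1 h3
  have h4 : (Q.V : HH H →L[ℂ] HH H) (star (Q.V : HH H →L[ℂ] HH H) (tm ζ ζ)) = tm ζ ζ := by
    have h5 := congrArg (fun z : ↥(rightAmpl Q.M) => (z : HH H →L[ℂ] HH H) (tm ζ ζ))
      Q.V_mul_star
    exact h5
  rw [h1, map_zero] at h4
  have h6 := norm_tm ζ ζ
  rw [← h4, norm_zero] at h6
  have h7 : ‖ζ‖ = 0 := by
    rcases mul_eq_zero.1 h6.symm with h | h <;> exact h
  exact norm_eq_zero.1 h7

lemma slice_V (Q : QuantumGroup H) (ξ₁ η₁ ξ₃ η₃ : H) :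
    sr (Q.Δ (slcL Q.V ξ₁ η₁)) ξ₃ η₃ =
      slcL Q.V (sliceR (Q.V : HH H →L[ℂ] HH H) ξ₃ η₃ ξ₁) η₁ := by
  refine alg_ext fun ξ₂ η₂ => ?_
  rw [inner_sr, Q.V_corep, inner_slcL, tens_tm]
  rfl

lemma slcL_add {M : VonNeumannAlgebra H} (V : ↥(rightAmpl M)) (ξ ξ' η : H) :
    slcL V (ξ + ξ') η = slcL V ξ η + slcL V ξ' η := by
  refine alg_ext fun a b => ?_
  rw [coe_add_alg, add_apply, inner_add_right, inner_slcL, inner_slcL, inner_slcL,
    tm_add_left, map_add, inner_add_right]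

lemma slcL_smul {M : VonNeumannAlgebra H} (V : ↥(rightAmpl M)) (c : ℂ) (ξ η : H) :
    slcL V (c • ξ) η = c • slcL V ξ η := by
  refine alg_ext fun a b => ?_
  rw [coe_smul_alg, smul_apply, inner_smul_right, inner_slcL, inner_slcL,
    tm_smul_left, map_smul, inner_smul_right]

lemma slcR_add {M : VonNeumannAlgebra H} (W : ↥(leftAmpl M)) (ξ ξ' η : H) :
    slcR W (ξ + ξ') η = slcR W ξ η + slcR W ξ' η := by
  refine alg_ext fun a b => ?_
  rw [coe_add_alg, add_apply, inner_add_right, inner_slcR, inner_slcR, inner_slcR,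
    tm_add_right, map_add, inner_add_right]

lemma slcR_smul {M : VonNeumannAlgebra H} (W : ↥(leftAmpl M)) (c : ℂ) (ξ η : H) :
    slcR W (c • ξ) η = c • slcR W ξ η := by
  refine alg_ext fun a b => ?_
  rw [coe_smul_alg, smul_apply, inner_smul_right, inner_slcR, inner_slcR,
    tm_smul_right, map_smul, inner_smul_right]

lemma norm_slcL_le {M : VonNeumannAlgebra H} (V : ↥(rightAmpl M)) (ξ η : H) :
    ‖slcL V ξ η‖ ≤ ‖η‖ * (‖V‖ * ‖ξ‖) := norm_sliceL_le _ _ _

lemma norm_slcR_le {M : VonNeumannAlgebra H} (W : ↥(leftAmpl M)) (ξ η : H) :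
    ‖slcR W ξ η‖ ≤ ‖η‖ * (‖W‖ * ‖ξ‖) := norm_sliceR_le _ _ _

/-- A counit state takes the expected values on the slices of `V`. -/
lemma IsCounitState.on_V (Q : QuantumGroup H) {ε : StrongDual ℂ (Alg Q.M)}
    (hε : IsCounitState Q ε) (ξ η : H) : ε (slcL Q.V ξ η) = ⟪η, ξ⟫_ℂ := by
  -- the functional `ξ ↦ ε(slcL V ξ η) - ⟪η, ξ⟫`
  let G : H →L[ℂ] ℂ := LinearMap.mkContinuous
    { toFun := fun ξ => ε (slcL Q.V ξ η)
      map_add' := fun a b => by rw [slcL_add, map_add]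
      map_smul' := fun c a => by rw [slcL_smul, map_smul]; rfl } (‖η‖ * ‖Q.V‖)
    (fun a => by
      refine (hε.1.norm_apply_le _).trans ((norm_slcL_le _ _ _).trans (le_of_eq ?_))
      ring) - innerSL ℂ η
  have hG : ∀ a, G a = ε (slcL Q.V a η) - ⟪η, a⟫_ℂ := fun a => rfl
  obtain ⟨ζ, hζ⟩ : ∃ ζ : H, ∀ a, ⟪ζ, a⟫_ℂ = G a :=
    ⟨(InnerProductSpace.toDual ℂ H).symm G, fun a => InnerProductSpace.toDual_symm_apply⟩
  have h0 : ∀ ξ₁ ξ₃ η₃ : H, ⟪tm ζ η₃, (Q.V : HH H →L[ℂ] HH H) (tm ξ₁ ξ₃)⟫_ℂ = 0 := by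
    intro ξ₁ ξ₃ η₃
    rw [← inner_sliceR, hζ, hG, ← slice_V, hε.left_counit, inner_slcL, inner_sliceR, sub_self]
  have hζ0 := eq_zero_of_star_V Q ζ h0
  have h1 := hζ ξ
  rw [hζ0, inner_zero_left, hG] at h1
  exact (sub_eq_zero.1 h1.symm)

end

end Pool.Agent.Lib.MP_893ae4_anV
end

section

/-!
Translation of functionals: functions on `B(H)` restricted to `M` versus elements of the dual and
of the predual of `M`.
-/

open scoped InnerProductSpace TensorProduct ComplexOrder Topology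
open UniformSpace Filter

namespace Pool.Agent.Lib.MP_893ae4_anV.Bridge

noncomputable section

universe u v

variable {H : Type u} [NormedAddCommGroup H] [InnerProductSpace ℂ H] [CompleteSpace H]
variable {M : VonNeumannAlgebra H}

section Positive

variable {φ : Alg M →ₗ[ℂ] ℂ} (hp : ∀ x : Alg M, 0 ≤ φ (star x * x)) (h1 : φ 1 = 1)

include hp in
lemma lin_nonneg {a : Alg M} (ha : ∀ ξ, 0 ≤ ⟪ξ, (a : H →L[ℂ] H) ξ⟫_ℂ) : 0 ≤ φ a := by
  obtain ⟨b, hb, hab⟩ := exists_sq M a.2 (isPositive_of_inner ha)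
  have h : a = star (⟨b, hb⟩ : Alg M) * ⟨b, hb⟩ := Subtype.ext hab
  rw [h]
  exact hp _

include hp h1 in
lemma lin_apply_star_mul_le (x : Alg M) : (φ (star x * x)).re ≤ ‖x‖ ^ 2 := by
  have h2 : 0 ≤ φ ((((‖x‖ ^ 2 : ℝ)) : ℂ) • (1 : Alg M) - star x * x) := by
    refine lin_nonneg hp fun ξ => ?_
    rw [coe_sub_alg, coe_smul_alg, coe_one_alg, coe_mul_alg, coe_star_alg, sub_apply,
      smul_apply, inner_sub_right, inner_smul_right, ContinuousLinearMap.star_eq_adjoint,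
      mul_apply_eq_comp, ContinuousLinearMap.adjoint_inner_right]
    have e1 : ⟪ξ, (1 : H →L[ℂ] H) ξ⟫_ℂ = ((‖ξ‖ ^ 2 : ℝ) : ℂ) := by
      have := inner_self_eq_norm_sq_to_K (𝕜 := ℂ) ξ
      simpa using this
    have e2 : ⟪(x : H →L[ℂ] H) ξ, (x : H →L[ℂ] H) ξ⟫_ℂ =
        ((‖(x : H →L[ℂ] H) ξ‖ ^ 2 : ℝ) : ℂ) := by
      have := inner_self_eq_norm_sq_to_K (𝕜 := ℂ) ((x : H →L[ℂ] H) ξ)
      simpa using this
    rw [e1, e2, ← Complex.ofReal_mul, ← Complex.ofReal_sub]
    rw [Complex.zero_le_real]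
    have h2 := (x : H →L[ℂ] H).le_opNorm ξ
    rw [norm_alg_coe] at h2
    have h3 : ‖(x : H →L[ℂ] H) ξ‖ ^ 2 ≤ (‖x‖ * ‖ξ‖) ^ 2 :=
      pow_le_pow_left₀ (norm_nonneg _) h2 2
    nlinarith
  rw [map_sub, map_smul, h1, smul_eq_mul, mul_one] at h2
  have h3 := (Complex.le_def.1 h2).1
  rw [Complex.sub_re, Complex.ofReal_re, Complex.zero_re] at h3
  linarith

include hp in
lemma lin_im_eq_zero (x : Alg M) : (φ (star x * x)).im = 0 := (Complex.le_def.1 (hp x)).2.symm

include hp h1 in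
lemma lin_map_star (x : Alg M) : φ (star x) = (starRingEnd ℂ) (φ x) := by
  have h1' := lin_im_eq_zero hp (x + 1)
  have h2 := lin_im_eq_zero hp (x + Complex.I • (1 : Alg M))
  have h3 := lin_im_eq_zero hp x
  have e1 : star (x + 1) * (x + 1) = star x * x + star x + x + 1 := by
    rw [star_add, star_one, add_mul, mul_add, mul_add, one_mul, mul_one, one_mul]
    abel
  have e2 : star (x + Complex.I • (1 : Alg M)) * (x + Complex.I • (1 : Alg M)) =
      star x * x + Complex.I • star x - Complex.I • x + 1 := by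
    rw [star_add, star_smul, star_one, add_mul, mul_add, mul_add, mul_smul_comm, mul_one,
      smul_mul_assoc, one_mul, smul_mul_smul_comm, one_mul]
    have : star Complex.I = -Complex.I := Complex.conj_I
    rw [this, neg_smul, neg_mul, Complex.I_mul_I, neg_neg, one_smul]
    abel
  rw [e1, map_add, map_add, map_add, h1] at h1'
  rw [e2, map_add, map_sub, map_add, map_smul, map_smul, h1] at h2
  simp only [Complex.add_im, Complex.sub_im, Complex.one_im, smul_eq_mul, Complex.mul_im,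
    Complex.I_re, Complex.I_im, zero_mul, one_mul, zero_add, add_zero] at h1' h2
  apply Complex.ext
  · rw [Complex.conj_re]; linarith
  · rw [Complex.conj_im]; linarith

include hp h1 in
lemma lin_norm_sq_le (x : Alg M) : ‖φ x‖ ^ 2 ≤ (φ (star x * x)).re := by
  have h2 := hp (x - (φ x) • (1 : Alg M))
  have e1 : star (x - (φ x) • (1 : Alg M)) * (x - (φ x) • (1 : Alg M)) =
      star x * x - (φ x) • star x - (starRingEnd ℂ (φ x)) • x
        + ((starRingEnd ℂ (φ x)) * φ x) • (1 : Alg M) := by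
    rw [star_sub, star_smul, star_one, sub_mul, mul_sub, mul_sub, mul_smul_comm, mul_one,
      smul_mul_assoc, one_mul, smul_mul_smul_comm, one_mul]
    have : star (φ x) = starRingEnd ℂ (φ x) := rfl
    rw [this]
    abel
  rw [e1, map_add, map_sub, map_sub, map_smul, map_smul, map_smul, h1,
    lin_map_star hp h1] at h2
  have h3 := (Complex.le_def.1 h2).1
  simp only [smul_eq_mul, mul_one, Complex.add_re, Complex.sub_re, Complex.zero_re] at h3
  have h4 : (φ x * (starRingEnd ℂ) (φ x)).re = ‖φ x‖ ^ 2 := by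
    rw [Complex.mul_conj, Complex.ofReal_re, Complex.normSq_eq_norm_sq]
  have h5 : ((starRingEnd ℂ) (φ x) * φ x).re = ‖φ x‖ ^ 2 := by rw [mul_comm, h4]
  rw [h4, h5] at h3
  linarith

include hp h1 in
lemma lin_norm_apply_le (x : Alg M) : ‖φ x‖ ≤ ‖x‖ := by
  have h := (lin_norm_sq_le hp h1 x).trans (lin_apply_star_mul_le hp h1 x)
  exact le_of_sq_le_sq h (norm_nonneg _)

end Positive

/-- A state given as a function on `B(H)` gives a state in the dual of `M`. -/
lemma exists_dual_of_state {φ : (H →L[ℂ] H) → ℂ} (hφ : LCQG.IsState M φ) :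
    ∃ ε : StrongDual ℂ (Alg M), IsState ε ∧ ∀ x : Alg M, ε x = φ (x : H →L[ℂ] H) := by
  let l : Alg M →ₗ[ℂ] ℂ :=
    { toFun := fun x => φ (x : H →L[ℂ] H)
      map_add' := fun x y => hφ.add _ x.2 _ y.2
      map_smul' := fun c x => hφ.smul c _ x.2 }
  have hp : ∀ x : Alg M, 0 ≤ l (star x * x) := fun x => hφ.nonneg _ x.2
  have h1 : l 1 = 1 := hφ.one
  refine ⟨l.mkContinuous 1 (fun x => by rw [one_mul]; exact lin_norm_apply_le hp h1 x),
    ⟨fun x => hp x, h1⟩, fun x => rfl⟩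

open Classical in
/-- Extension by zero of a functional on `M` to a function on `B(H)`. -/
def ext0 (f : StrongDual ℂ (Alg M)) (x : H →L[ℂ] H) : ℂ :=
  if h : x ∈ M.toStarSubalgebra then f ⟨x, h⟩ else 0

lemma ext0_apply (f : StrongDual ℂ (Alg M)) {x : H →L[ℂ] H} (h : x ∈ M) :
    ext0 f x = f ⟨x, h⟩ := by
  unfold ext0
  exact dif_pos h

lemma ext0_coe (f : StrongDual ℂ (Alg M)) (x : Alg M) : ext0 f (x : H →L[ℂ] H) = f x :=
  ext0_apply f x.2

lemma isState_ext0 {f : StrongDual ℂ (Alg M)} (hf : IsState f) : LCQG.IsState M (ext0 f) where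
  add x hx y hy := by
    rw [ext0_apply f hx, ext0_apply f hy, ext0_apply f (add_mem hx hy), ← map_add]
    rfl
  smul c x hx := by
    have hcx : c • x ∈ M := M.toStarSubalgebra.smul_mem hx c
    rw [ext0_apply f hx, ext0_apply f hcx]
    have h := f.map_smul c ⟨x, hx⟩
    rw [smul_eq_mul] at h
    rw [← h]
    rfl
  nonneg x hx := by
    rw [ext0_apply f (mul_mem (star_mem hx) hx)]
    exact hf.pos ⟨x, hx⟩
  one := by
    rw [ext0_apply f (one_mem M)]
    exact hf.one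

/-- Elements of the span of the vector functionals are finite sums of vector functionals. -/
lemma span_rep {s : StrongDual ℂ (Alg M)}
    (hs : s ∈ Submodule.span ℂ (Set.range fun p : H × H => vec M p.1 p.2)) :
    ∃ (n : ℕ) (ξ η : Fin n → H), ∀ x : Alg M,
      s x = ∑ i, ⟪η i, (x : H →L[ℂ] H) (ξ i)⟫_ℂ := by
  induction hs using Submodule.span_induction with
  | mem x hx =>
    obtain ⟨p, rfl⟩ := hx
    refine ⟨1, fun _ => p.1, fun _ => p.2, fun x => ?_⟩
    simp
  | zero => exact ⟨0, fun _ => 0, fun _ => 0, fun x => by simp⟩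
  | add f g _ _ hf hg =>
    obtain ⟨n, ξ, η, h⟩ := hf
    obtain ⟨m, ξ', η', h'⟩ := hg
    refine ⟨n + m, Fin.append ξ ξ', Fin.append η η', fun x => ?_⟩
    rw [Fin.sum_univ_add, add_apply, h, h']
    simp
  | smul c f _ hf =>
    obtain ⟨n, ξ, η, h⟩ := hf
    refine ⟨n, fun i => c • ξ i, η, fun x => ?_⟩
    rw [smul_apply, h, smul_eq_mul, Finset.mul_sum]
    refine Finset.sum_congr rfl fun i _ => ?_
    rw [map_smul, inner_smul_right]

/-- Elements of the predual are normal. -/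
lemma isNormal_of_L1 (g : L1 M) {F : (H →L[ℂ] H) → ℂ}
    (hF : ∀ x : Alg M, F (x : H →L[ℂ] H) = g x) : LCQG.IsNormal M F := by
  intro δ hδ
  have hg := toFn_mem g
  unfold predual at hg
  rw [← SetLike.mem_coe, Submodule.topologicalClosure_coe, Metric.mem_closure_iff] at hg
  obtain ⟨s, hs, hd⟩ := hg δ hδ
  obtain ⟨n, ξ, η, h⟩ := span_rep hs
  refine ⟨n, ξ, η, fun x hx => ?_⟩
  have h1 := hF ⟨x, hx⟩
  have h2 := h ⟨x, hx⟩
  rw [dist_eq_norm] at hd
  have h3 := (toFn g - s).le_opNorm ⟨x, hx⟩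
  rw [sub_apply, h2, ← h1] at h3
  refine h3.trans ?_
  exact mul_le_mul_of_nonneg_right hd.le (norm_nonneg _)

lemma isNormal_ext0 (g : L1 M) : LCQG.IsNormal M (ext0 (toFn g)) :=
  isNormal_of_L1 g fun x => ext0_coe _ x

/-- Normal functionals come from the predual. -/
lemma exists_L1_of_isNormal {f : (H →L[ℂ] H) → ℂ} (hf : LCQG.IsNormal M f) :
    ∃ g : L1 M, ∀ x : Alg M, g x = f (x : H →L[ℂ] H) := by
  choose N ξ η h using fun n : ℕ => hf (1 / ((n : ℝ) + 1)) (by positivity)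
  let v : ℕ → L1 M := fun n => ∑ i, vecL1 M (ξ n i) (η n i)
  have hv : ∀ n (x : Alg M), v n x = ∑ i, ⟪η n i, (x : H →L[ℂ] H) (ξ n i)⟫_ℂ := by
    intro n x
    change toFn (∑ i, vecL1 M (ξ n i) (η n i)) x = _
    rw [map_sum]
    simp
  have hb : ∀ n (x : Alg M), ‖f (x : H →L[ℂ] H) - v n x‖ ≤ 1 / ((n : ℝ) + 1) * ‖x‖ := by
    intro n x
    rw [hv]
    exact h n _ x.2
  have hcau : CauchySeq v := by
    refine cauchySeq_of_le_tendsto_0 (fun n : ℕ => 2 * (1 / ((n : ℝ) + 1))) ?_ ?_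
    · intro n m k hn hm
      rw [dist_eq_norm]
      refine norm_L1_le _ (by positivity) fun x => ?_
      have e : (v n - v m) x = (f (x : H →L[ℂ] H) - v m x) - (f (x : H →L[ℂ] H) - v n x) := by
        rw [map_sub, sub_apply]; ring
      rw [e]
      have a1 : 1 / ((n : ℝ) + 1) ≤ 1 / ((k : ℝ) + 1) :=
        one_div_le_one_div_of_le (by positivity) (by
          have : (k : ℝ) ≤ n := by exact_mod_cast hn
          linarith)
      have a2 : 1 / ((m : ℝ) + 1) ≤ 1 / ((k : ℝ) + 1) :=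
        one_div_le_one_div_of_le (by positivity) (by
          have : (k : ℝ) ≤ m := by exact_mod_cast hm
          linarith)
      calc _ ≤ ‖f (x : H →L[ℂ] H) - v m x‖ + ‖f (x : H →L[ℂ] H) - v n x‖ := norm_sub_le _ _
        _ ≤ 1 / ((m : ℝ) + 1) * ‖x‖ + 1 / ((n : ℝ) + 1) * ‖x‖ := add_le_add (hb m x) (hb n x)
        _ ≤ 1 / ((k : ℝ) + 1) * ‖x‖ + 1 / ((k : ℝ) + 1) * ‖x‖ := add_le_add
            (mul_le_mul_of_nonneg_right a2 (norm_nonneg _))
            (mul_le_mul_of_nonneg_right a1 (norm_nonneg _))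
        _ = 2 * (1 / ((k : ℝ) + 1)) * ‖x‖ := by ring
    · have := tendsto_one_div_add_atTop_nhds_zero_nat (𝕜 := ℝ)
      simpa using this.const_mul 2
  obtain ⟨g, hg⟩ := cauchySeq_tendsto_of_complete hcau
  refine ⟨g, fun x => ?_⟩
  have hc : Continuous fun f : L1 M => f x := toFn.continuous.clm_apply continuous_const
  have t1 : Tendsto (fun n => v n x) atTop (𝓝 (g x)) := (hc.tendsto g).comp hg
  have t2 : Tendsto (fun n => v n x) atTop (𝓝 (f (x : H →L[ℂ] H))) := by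
    rw [tendsto_iff_norm_sub_tendsto_zero]
    refine squeeze_zero (fun n => norm_nonneg _) (fun n => ?_)
      (g := fun n : ℕ => 1 / ((n : ℝ) + 1) * ‖x‖) ?_
    · rw [norm_sub_rev]; exact hb n x
    · have := tendsto_one_div_add_atTop_nhds_zero_nat (𝕜 := ℝ)
      simpa using this.mul_const ‖x‖
  exact tendsto_nhds_unique t1 t2

end

end Pool.Agent.Lib.MP_893ae4_anV.Bridge
end

section

/-!
From approximate identities of normal states to weak* convergence to the counit on the slices of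
`W`, and from that convergence to a counit state.
-/

open scoped InnerProductSpace TensorProduct ComplexOrder Topology
open UniformSpace Filter

namespace Pool.Agent.Lib.MP_893ae4_anV

noncomputable section

universe u

variable {H : Type u} [NormedAddCommGroup H] [InnerProductSpace ℂ H] [CompleteSpace H]

/-- `(id ⊗ ω_{a,b})(Δ((id ⊗ ω_{ξ,η})(W))) = (id ⊗ ω_{λξ,η})(W)`, with
`λ = (ω_{a,b} ⊗ id)(W)`. -/
lemma slice_W (Q : QuantumGroup H) (ξ η a b : H) :
    sr (Q.Δ (slcR Q.W ξ η)) a b =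
      slcR Q.W (sliceL (Q.W : HH H →L[ℂ] HH H) a b ξ) η := by
  refine alg_ext fun ξ₁ η₁ => ?_
  rw [inner_sr, Q.W_corep, inner_slcR]
  -- both sides equal `⟪η, s (sliceL W a b ξ)⟫` with `s = sliceL W ξ₁ η₁`
  have h1 : ⟪tm b η, tens 1 (sliceL (Q.W : HH H →L[ℂ] HH H) ξ₁ η₁)
      ((Q.W : HH H →L[ℂ] HH H) (tm a ξ))⟫_ℂ =
      ⟪η, sliceL (Q.W : HH H →L[ℂ] HH H) ξ₁ η₁ (sliceL (Q.W : HH H →L[ℂ] HH H) a b ξ)⟫_ℂ := by
    rw [← ContinuousLinearMap.adjoint_inner_left, ← ContinuousLinearMap.star_eq_adjoint,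
      star_tens, tens_tm, star_one]
    have h2 : (1 : H →L[ℂ] H) b = b := rfl
    rw [h2, ← inner_sliceL, ContinuousLinearMap.star_eq_adjoint,
      ContinuousLinearMap.adjoint_inner_left]
  rw [h1, inner_sliceL]

lemma eq_zero_of_star_W (Q : QuantumGroup H) (ζ : H)
    (h : ∀ b a ξ : H, ⟪tm b ζ, (Q.W : HH H →L[ℂ] HH H) (tm a ξ)⟫_ℂ = 0) : ζ = 0 := by
  have h1 : star (Q.W : HH H →L[ℂ] HH H) (tm ζ ζ) = 0 := by
    have h2 : (innerSL ℂ (star (Q.W : HH H →L[ℂ] HH H) (tm ζ ζ)) : HH H →L[ℂ] ℂ) = 0 := by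
      refine ext_tm fun a b => ?_
      rw [innerSL_apply_apply, ContinuousLinearMap.star_eq_adjoint,
        ContinuousLinearMap.adjoint_inner_left, h]
      rfl
    have h3 : (innerSL ℂ (star (Q.W : HH H →L[ℂ] HH H) (tm ζ ζ)) : HH H →L[ℂ] ℂ)
        (star (Q.W : HH H →L[ℂ] HH H) (tm ζ ζ)) = 0 := by rw [h2]; rfl
    rw [innerSL_apply_apply] at h3
    exact inner_self_eq_zero.1 h3
  have h4 : (Q.W : HH H →L[ℂ] HH H) (star (Q.W : HH H →L[ℂ] HH H) (tm ζ ζ)) = tm ζ ζ := by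
    have h5 := congrArg (fun z : ↥(leftAmpl Q.M) => (z : HH H →L[ℂ] HH H) (tm ζ ζ))
      Q.W_mul_star
    exact h5
  rw [h1, map_zero] at h4
  have h6 := norm_tm ζ ζ
  rw [← h4, norm_zero] at h6
  have h7 : ‖ζ‖ = 0 := by
    rcases mul_eq_zero.1 h6.symm with h | h <;> exact h
  exact norm_eq_zero.1 h7

/-- An approximate identity of normal states converges to the counit on the slices of `W`. -/
lemma tendsto_slices (Q : QuantumGroup H) {ι : Type*} (l : Filter ι) (e : ι → L1 Q.M)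
    (hst : ∀ᶠ i in l, IsNormalState Q.M (e i))
    (h : ∀ f, Tendsto (fun i => Q.conv (e i) f) l (𝓝 f)) (ξ η : H) :
    Tendsto (fun i => e i (slcR Q.W ξ η)) l (𝓝 ⟪η, ξ⟫_ℂ) := by
  classical
  -- replace `e` by a net of states everywhere defined
  let e' : ι → L1 Q.M := fun i => if IsNormalState Q.M (e i) then e i else 0
  have hee' : ∀ᶠ i in l, e i = e' i := by
    filter_upwards [hst] with i hi
    simp only [e', if_pos hi]
  have hn : ∀ i, ‖e' i‖ ≤ 1 := by
    intro i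
    by_cases hi : IsNormalState Q.M (e i)
    · simp only [e', if_pos hi]; exact hi.norm_le_one
    · simp only [e', if_neg hi, norm_zero]; exact zero_le_one
  have hb : ∀ i (x : Alg Q.M), ‖e' i x‖ ≤ ‖x‖ := by
    intro i x
    refine ((toFn (e' i)).le_opNorm x).trans ?_
    rw [norm_toFn]
    calc ‖e' i‖ * ‖x‖ ≤ 1 * ‖x‖ := mul_le_mul_of_nonneg_right (hn i) (norm_nonneg _)
      _ = ‖x‖ := one_mul _
  have hWn : ‖Q.W‖ ≤ 1 :=
    norm_le_one_of_star_mul (A := ↥(leftAmpl Q.M)) norm_one_le Q.W_star_mul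
  let K : Submodule ℂ H :=
    { carrier := {ξ | Tendsto (fun i => e' i (slcR Q.W ξ η)) l (𝓝 ⟪η, ξ⟫_ℂ)}
      add_mem' := by
        intro a b ha hb
        rw [Set.mem_ofPred_eq] at ha hb ⊢
        rw [inner_add_right]
        refine (ha.add hb).congr fun i => ?_
        rw [slcR_add, map_add]
      zero_mem' := by
        rw [Set.mem_ofPred_eq, inner_zero_right]
        have h0 : slcR Q.W (0 : H) η = 0 := by
          have := slcR_smul Q.W 0 0 η
          rw [zero_smul, zero_smul] at this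
          exact this
        refine tendsto_const_nhds.congr fun i => ?_
        rw [h0, map_zero]
      smul_mem' := by
        intro c a ha
        rw [Set.mem_ofPred_eq] at ha ⊢
        rw [inner_smul_right]
        refine (ha.const_mul c).congr fun i => ?_
        rw [slcR_smul, map_smul, smul_eq_mul] }
  have hKmem : ∀ ξ, ξ ∈ K ↔ Tendsto (fun i => e' i (slcR Q.W ξ η)) l (𝓝 ⟪η, ξ⟫_ℂ) :=
    fun ξ => Iff.rfl
  have hKc : IsClosed (K : Set H) := by
    refine isClosed_tendsto l (fun i ξ => e' i (slcR Q.W ξ η)) (fun ξ => ⟪η, ξ⟫_ℂ) ‖η‖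
      (norm_nonneg _) ?_ ?_
    · intro i v w
      have h1 : slcR Q.W v η = slcR Q.W (v - w) η + slcR Q.W w η := by
        rw [← slcR_add, sub_add_cancel]
      rw [h1, map_add, add_sub_cancel_right]
      refine (hb i _).trans ((norm_slcR_le _ _ _).trans ?_)
      refine mul_le_mul_of_nonneg_left ?_ (norm_nonneg _)
      calc ‖Q.W‖ * ‖v - w‖ ≤ 1 * ‖v - w‖ := mul_le_mul_of_nonneg_right hWn (norm_nonneg _)
        _ = ‖v - w‖ := one_mul _
    · intro v w
      rw [← inner_sub_right]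
      exact norm_inner_le_norm _ _
  have hmem : ∀ a b ξ, sliceL (Q.W : HH H →L[ℂ] HH H) a b ξ ∈ K := by
    intro a b ξ
    rw [hKmem, inner_sliceL]
    have h1 : Tendsto (fun i => Q.conv (e i) (vecL1 Q.M a b) (slcR Q.W ξ η)) l
        (𝓝 ((vecL1 Q.M a b) (slcR Q.W ξ η))) := by
      have hc : Continuous fun f : L1 Q.M => f (slcR Q.W ξ η) :=
        toFn.continuous.clm_apply continuous_const
      exact (hc.tendsto _).comp (h (vecL1 Q.M a b))
    rw [toFn_vecL1, vec_apply, inner_slcR] at h1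
    refine h1.congr' ?_
    filter_upwards [hee'] with i hi
    rw [HopfVonNeumann.conv_apply, HopfVonNeumann.rslice_vec, slice_W, hi]
  have hKperp : Kᗮ = ⊥ := by
    rw [Submodule.eq_bot_iff]
    intro ζ hζ
    refine eq_zero_of_star_W Q ζ fun b a ξ => ?_
    rw [← inner_sliceL]
    have h1 := (Submodule.mem_orthogonal' K ζ).1 hζ _ (hmem a b ξ)
    exact h1
  have hKtop : K = ⊤ := by
    have h1 := (Submodule.topologicalClosure_eq_top_iff (K := K)).2 hKperp
    rwa [IsClosed.submodule_topologicalClosure_eq hKc] at h1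
  have hξ : ξ ∈ K := by rw [hKtop]; exact Submodule.mem_top
  refine ((hKmem ξ).1 hξ).congr' ?_
  filter_upwards [hee'] with i hi
  rw [hi]

/-- If normal states converge to the counit on the slices of `W` (along a nontrivial filter),
there is a counit state. -/
lemma exists_counit_of_tendsto (Q : QuantumGroup H) {ι : Type*} (l : Filter ι) [l.NeBot]
    (e : ι → L1 Q.M) (hst : ∀ᶠ i in l, IsNormalState Q.M (e i))
    (h : ∀ ξ η : H, Tendsto (fun i => e i (slcR Q.W ξ η)) l (𝓝 ⟪η, ξ⟫_ℂ)) :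
    ∃ ε : StrongDual ℂ (Alg Q.M), IsCounitState Q ε := by
  let U : Ultrafilter ι := Ultrafilter.of l
  have hU : (U : Filter ι) ≤ l := Ultrafilter.of_le l
  let g : ι → WeakDual ℂ (Alg Q.M) := fun i => StrongDual.toWeakDual (toFn (e i))
  have hK := WeakDual.isCompact_closedBall (𝕜 := ℂ) (E := Alg Q.M) 0 1
  have hUK : ((U.map g : Ultrafilter _) : Filter (WeakDual ℂ (Alg Q.M))) ≤
      𝓟 (WeakDual.toStrongDual ⁻¹' Metric.closedBall 0 1) := by
    rw [le_principal_iff]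
    have h1 : ∀ᶠ i in (U : Filter ι), IsNormalState Q.M (e i) := hU hst
    change ∀ᶠ i in (U : Filter ι), g i ∈ WeakDual.toStrongDual ⁻¹' Metric.closedBall 0 1
    filter_upwards [h1] with i hi
    rw [Set.mem_preimage, mem_closedBall_zero_iff]
    exact hi.norm_le_one
  obtain ⟨φ, _, hφ⟩ := hK.ultrafilter_le_nhds _ hUK
  let ε : StrongDual ℂ (Alg Q.M) := WeakDual.toStrongDual φ
  have hlim : ∀ x : Alg Q.M, Tendsto (fun i => e i x) (U : Filter ι) (𝓝 (ε x)) := by
    intro x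
    have h1 : Tendsto g (U : Filter ι) (𝓝 φ) := hφ
    exact ((WeakDual.eval_continuous x).tendsto φ).comp h1
  have hst' : ∀ᶠ i in (U : Filter ι), IsNormalState Q.M (e i) := hU hst
  refine ⟨ε, ⟨⟨fun x => ?_, ?_⟩, fun ξ η => ?_⟩⟩
  · refine ge_of_tendsto (hlim (star x * x)) ?_
    filter_upwards [hst'] with i hi
    exact hi.1 x
  · refine tendsto_nhds_unique (hlim 1) ?_
    refine tendsto_const_nhds.congr' ?_
    filter_upwards [hst'] with i hi
    exact hi.2.symm
  · exact tendsto_nhds_unique (hlim _) ((h ξ η).mono_left hU)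

/-- If `H` is separable, so is the predual. -/
lemma separable_L1 [TopologicalSpace.SeparableSpace H] (M : VonNeumannAlgebra H) :
    TopologicalSpace.SeparableSpace (L1 M) := by
  have h0 : Continuous fun p : H × H => vec M p.1 p.2 := by
    have hb : ∀ ξ ξ' η η' : H, ‖vec M ξ η - vec M ξ' η'‖ ≤
        ‖ξ - ξ'‖ * ‖η‖ + ‖ξ'‖ * ‖η - η'‖ := by
      intro ξ ξ' η η'
      have h1 : vec M ξ η - vec M ξ' η' = vec M (ξ - ξ') η + vec M ξ' (η - η') := by
        ext x
        simp only [sub_apply, add_apply, vec_apply, map_sub, inner_sub_right, inner_sub_left]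
        ring
      rw [h1]
      exact (norm_add_le _ _).trans (add_le_add (norm_vec_le _ _ _) (norm_vec_le _ _ _))
    rw [continuous_iff_continuousAt]
    rintro ⟨ξ', η'⟩
    rw [ContinuousAt, tendsto_iff_norm_sub_tendsto_zero]
    have h2 : Tendsto (fun p : H × H => ‖p.1 - ξ'‖ * ‖p.2‖ + ‖ξ'‖ * ‖p.2 - η'‖)
        (𝓝 (ξ', η')) (𝓝 (‖ξ' - ξ'‖ * ‖η'‖ + ‖ξ'‖ * ‖η' - η'‖)) := by
      have hc : Continuous fun p : H × H => ‖p.1 - ξ'‖ * ‖p.2‖ + ‖ξ'‖ * ‖p.2 - η'‖ := by
        fun_prop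
      exact hc.tendsto (ξ', η')
    simp only [sub_self, norm_zero, zero_mul, mul_zero, add_zero] at h2
    exact squeeze_zero (fun p => norm_nonneg _) (fun p => hb _ _ _ _) h2
  have h1 : TopologicalSpace.IsSeparable (Set.range fun p : H × H => vec M p.1 p.2) :=
    TopologicalSpace.isSeparable_range h0
  have h2 : TopologicalSpace.IsSeparable
      ((Submodule.span ℂ (Set.range fun p : H × H => vec M p.1 p.2) :
        Submodule ℂ (StrongDual ℂ (Alg M))) : Set (StrongDual ℂ (Alg M))) := h1.span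
  have h3 : TopologicalSpace.IsSeparable ((predual M : Submodule ℂ (StrongDual ℂ (Alg M))) :
      Set (StrongDual ℂ (Alg M))) := by
    unfold predual
    rw [Submodule.topologicalClosure_coe]
    exact h2.closure
  exact h3.separableSpace

end

end Pool.Agent.Lib.MP_893ae4_anV
end

section

/-!
Convolution semigroups of normal states from approximate identities of normal states.
-/

open scoped InnerProductSpace TensorProduct ComplexOrder Topology
open UniformSpace Filter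

namespace Pool.Agent.Lib.MP_893ae4_anV

noncomputable section

universe u

variable {H : Type u} [NormedAddCommGroup H] [InnerProductSpace ℂ H] [CompleteSpace H]

/-- The convolution Banach algebra of a Hopf-von Neumann algebra. -/
def ConvAlg (Q : HopfVonNeumann H) : Type u := L1 Q.M

instance (Q : HopfVonNeumann H) : NormedAddCommGroup (ConvAlg Q) :=
  inferInstanceAs (NormedAddCommGroup (L1 Q.M))

instance (Q : HopfVonNeumann H) : NormedSpace ℂ (ConvAlg Q) :=
  inferInstanceAs (NormedSpace ℂ (L1 Q.M))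

instance (Q : HopfVonNeumann H) : CompleteSpace (ConvAlg Q) :=
  inferInstanceAs (CompleteSpace (L1 Q.M))

instance (Q : HopfVonNeumann H) : Mul (ConvAlg Q) := ⟨fun a b => Q.conv a b⟩

lemma convAlg_mul (Q : HopfVonNeumann H) (a b : ConvAlg Q) : a * b = Q.conv a b := rfl

instance (Q : HopfVonNeumann H) : NonUnitalNormedRing (ConvAlg Q) where
  dist_eq := fun x y => dist_eq_norm_neg_add x y
  left_distrib := fun a b c => Q.conv_add_right a b c
  right_distrib := fun a b c => Q.conv_add_left a b c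
  zero_mul := fun a => by
    have h := Q.conv_smul_left 0 0 a
    rw [zero_smul, zero_smul] at h
    exact h
  mul_zero := fun a => by
    have h := Q.conv_smul_right 0 a 0
    rw [zero_smul, zero_smul] at h
    exact h
  mul_assoc := fun a b c => Q.conv_assoc a b c
  norm_mul_le := fun a b => Q.norm_conv_le a b

instance (Q : HopfVonNeumann H) : IsScalarTower ℝ (ConvAlg Q) (ConvAlg Q) :=
  ⟨fun r a b => Q.conv_smul_left (r : ℂ) a b⟩

instance (Q : HopfVonNeumann H) : SMulCommClass ℝ (ConvAlg Q) (ConvAlg Q) :=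
  ⟨fun r a b => (Q.conv_smul_right (r : ℂ) a b).symm⟩

/-- Approximate identity of normal states (finite-set form). -/
def HasStateApproxUnit (Q : HopfVonNeumann H) : Prop :=
  ∀ ε > 0, ∀ F : Finset (L1 Q.M), ∃ e : L1 Q.M, IsNormalState Q.M e ∧
    ∀ f ∈ F, ‖Q.conv e f - f‖ < ε ∧ ‖Q.conv f e - f‖ < ε

theorem exists_conv_semigroup (Q : HopfVonNeumann H) [TopologicalSpace.SeparableSpace (L1 Q.M)]
    (h : HasStateApproxUnit Q) :
    ∃ μ : ℝ → L1 Q.M, (∀ t > 0, IsNormalState Q.M (μ t)) ∧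
      (∀ s > 0, ∀ t > 0, μ (s + t) = Q.conv (μ s) (μ t)) ∧
      (∀ f, Tendsto (fun t => Q.conv (μ t) f) (𝓝[>] 0) (𝓝 f)) ∧
      (∀ f, Tendsto (fun t => Q.conv f (μ t)) (𝓝[>] 0) (𝓝 f)) := by
  haveI : TopologicalSpace.SeparableSpace (ConvAlg Q) :=
    inferInstanceAs (TopologicalSpace.SeparableSpace (L1 Q.M))
  exact exists_semigroup (X := ConvAlg Q) {ω | IsNormalState Q.M ω}
    (convex_normalStates Q.M) (isClosed_normalStates Q.M)
    (fun a ha b hb => isNormalState_conv Q ha hb) (fun a ha => ha.norm_le_one) h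

/-- A convolution semigroup of contractions which is an approximate identity is norm continuous
on `(0, ∞)`. -/
theorem continuousOn_semigroup (Q : HopfVonNeumann H) (μ : ℝ → L1 Q.M)
    (hst : ∀ t > 0, IsNormalState Q.M (μ t))
    (hsg : ∀ s > 0, ∀ t > 0, μ (s + t) = Q.conv (μ s) (μ t))
    (hl : ∀ f, Tendsto (fun t => Q.conv (μ t) f) (𝓝[>] 0) (𝓝 f)) :
    ContinuousOn μ (Set.Ioi 0) := by
  intro t₁ ht₁
  refine ContinuousAt.continuousWithinAt ?_
  have ht₁' : (0 : ℝ) < t₁ := ht₁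
  rw [Metric.continuousAt_iff]
  intro ε hε
  set t₀ : ℝ := t₁ / 2 with ht₀
  have ht₀' : 0 < t₀ := by positivity
  have h1 := Metric.tendsto_nhdsWithin_nhds.1 (hl (μ t₀)) ε hε
  obtain ⟨δ, hδ, h2⟩ := h1
  -- the difference for `s < t` both at least `t₀`
  have key : ∀ s t, t₀ < s → s < t → t - s < δ → ‖μ t - μ s‖ < ε := by
    intro s t hs hst' hd
    have e1 : μ s = Q.conv (μ t₀) (μ (s - t₀)) := by
      rw [← hsg t₀ ht₀' (s - t₀) (by linarith)]; congr 1; ring
    have e2 : μ t = Q.conv (Q.conv (μ (t - s)) (μ t₀)) (μ (s - t₀)) := by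
      rw [← hsg (t - s) (by linarith) t₀ ht₀', ← hsg (t - s + t₀) (by linarith) (s - t₀)
        (by linarith)]
      congr 1; ring
    have e3 : μ t - μ s = Q.conv (Q.conv (μ (t - s)) (μ t₀) - μ t₀) (μ (s - t₀)) := by
      have h := Q.conv_add_left (Q.conv (μ (t - s)) (μ t₀) - μ t₀) (μ t₀) (μ (s - t₀))
      rw [sub_add_cancel] at h
      rw [e2, e1, h, add_sub_cancel_right]
    rw [e3]
    have h3 := h2 (x := t - s) (by show (0 : ℝ) < t - s; linarith)
      (by rw [Real.dist_eq, sub_zero, abs_of_pos (by linarith)]; exact hd)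
    rw [dist_eq_norm] at h3
    calc _ ≤ ‖Q.conv (μ (t - s)) (μ t₀) - μ t₀‖ * ‖μ (s - t₀)‖ := Q.norm_conv_le _ _
      _ ≤ ‖Q.conv (μ (t - s)) (μ t₀) - μ t₀‖ * 1 :=
          mul_le_mul_of_nonneg_left (hst (s - t₀) (by linarith)).norm_le_one (norm_nonneg _)
      _ = ‖Q.conv (μ (t - s)) (μ t₀) - μ t₀‖ := mul_one _
      _ < ε := h3
  refine ⟨min δ t₀, lt_min hδ ht₀', fun {t} ht => ?_⟩
  rw [Real.dist_eq] at ht
  have hta := lt_of_lt_of_le ht (min_le_left _ _)
  have htb := lt_of_lt_of_le ht (min_le_right _ _)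
  rw [dist_eq_norm]
  have hab := abs_lt.1 hta
  have hab' := abs_lt.1 htb
  rcases lt_trichotomy t t₁ with h | h | h
  · rw [norm_sub_rev]
    exact key t t₁ (by linarith) h (by linarith)
  · rw [h, sub_self, norm_zero]; exact hε
  · exact key t₁ t (by linarith) h (by linarith)

/-- A semigroup of normal states which is an approximate identity gives an approximate
identity of normal states. -/
theorem hasStateApproxUnit_of_semigroup (Q : HopfVonNeumann H) (μ : ℝ → L1 Q.M)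
    (hst : ∀ t > 0, IsNormalState Q.M (μ t))
    (hl : ∀ f, Tendsto (fun t => Q.conv (μ t) f) (𝓝[>] 0) (𝓝 f))
    (hr : ∀ f, Tendsto (fun t => Q.conv f (μ t)) (𝓝[>] 0) (𝓝 f)) :
    HasStateApproxUnit Q := by
  intro ε hε F
  have h1 : ∀ f ∈ F, ∀ᶠ t in 𝓝[>] (0 : ℝ),
      ‖Q.conv (μ t) f - f‖ < ε ∧ ‖Q.conv f (μ t) - f‖ < ε := by
    intro f _
    have h2 := (tendsto_iff_norm_sub_tendsto_zero.1 (hl f)).eventually_lt_const hε
    have h3 := (tendsto_iff_norm_sub_tendsto_zero.1 (hr f)).eventually_lt_const hε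
    exact h2.and h3
  have h2 := (Filter.eventually_all_finset F).2 h1
  have h3 : ∀ᶠ t in 𝓝[>] (0 : ℝ), 0 < t := eventually_mem_nhdsWithin
  obtain ⟨t, ht, ht'⟩ := (h2.and h3).exists
  exact ⟨μ t, hst t ht', ht⟩

end

end Pool.Agent.Lib.MP_893ae4_anV
end

section

/-!
Translation of quantum groups, convolutions and semigroups.
-/

open scoped InnerProductSpace TensorProduct ComplexOrder Topology
open UniformSpace Filter

namespace Pool.Agent.Lib.MP_893ae4_anV.Bridge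

noncomputable section

universe u v

variable {H : Type u} {K : Type v} [NormedAddCommGroup H] [InnerProductSpace ℂ H]
  [CompleteSpace H] [NormedAddCommGroup K] [InnerProductSpace ℂ K] [CompleteSpace K]

/-- The transported comultiplication. -/
abbrev trΔ (Q : LCQG.QuantumGroup H K) : Alg Q.M →⋆ₐ[ℂ] ↥(tensorSq Q.M) where
  toFun x := ⟨cj Q.T (Q.Δ (x : H →L[ℂ] H)), cj_mem_tensorSq Q.T Q.M (Q.Δ_mem _ x.2)⟩
  map_one' := by
    apply Subtype.ext
    change cj Q.T (Q.Δ 1) = 1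
    rw [Q.Δ_one, cj_one]
  map_mul' x y := by
    apply Subtype.ext
    change cj Q.T (Q.Δ ((x : H →L[ℂ] H) * y)) = cj Q.T (Q.Δ x) * cj Q.T (Q.Δ y)
    rw [Q.Δ_mul _ x.2 _ y.2, cj_mul]
  map_zero' := by
    apply Subtype.ext
    change cj Q.T (Q.Δ 0) = 0
    have h := Q.Δ_smul 0 0 (zero_mem Q.M)
    rw [zero_smul, zero_smul] at h
    rw [h]
    have h2 := cj_smul Q.T 0 0
    rw [zero_smul, zero_smul] at h2
    exact h2
  map_add' x y := by
    apply Subtype.ext
    change cj Q.T (Q.Δ ((x : H →L[ℂ] H) + y)) = cj Q.T (Q.Δ x) + cj Q.T (Q.Δ y)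
    rw [Q.Δ_add _ x.2 _ y.2, cj_add]
  commutes' c := by
    apply Subtype.ext
    have h1 : ((algebraMap ℂ (Alg Q.M) c : Alg Q.M) : H →L[ℂ] H) = c • (1 : H →L[ℂ] H) := by
      rw [Algebra.algebraMap_eq_smul_one]; rfl
    have h2 : ((algebraMap ℂ ↥(tensorSq Q.M) c : ↥(tensorSq Q.M)) : HH H →L[ℂ] HH H) =
        c • (1 : HH H →L[ℂ] HH H) := by
      rw [Algebra.algebraMap_eq_smul_one]; rfl
    rw [h2]
    change cj Q.T (Q.Δ ((algebraMap ℂ (Alg Q.M) c : Alg Q.M) : H →L[ℂ] H)) = _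
    rw [h1, Q.Δ_smul c 1 (one_mem Q.M), Q.Δ_one, cj_smul, cj_one]
  map_star' x := by
    apply Subtype.ext
    change cj Q.T (Q.Δ (star (x : H →L[ℂ] H))) = star (cj Q.T (Q.Δ x))
    rw [Q.Δ_star _ x.2, cj_star]

lemma coe_trΔ (Q : LCQG.QuantumGroup H K) (x : Alg Q.M) :
    ((trΔ Q x : ↥(tensorSq Q.M)) : HH H →L[ℂ] HH H) = cj Q.T (Q.Δ (x : H →L[ℂ] H)) := rfl

lemma coe_sl_trΔ (Q : LCQG.QuantumGroup H K) (x : Alg Q.M) (ξ η : H) :
    (sl (trΔ Q x) ξ η : H →L[ℂ] H) = LCQG.sliceL Q.T (Q.Δ (x : H →L[ℂ] H)) ξ η := by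
  rw [coe_sl, coe_trΔ, sliceL_cj]

lemma coe_sr_trΔ (Q : LCQG.QuantumGroup H K) (x : Alg Q.M) (ξ η : H) :
    (sr (trΔ Q x) ξ η : H →L[ℂ] H) = LCQG.sliceR Q.T (Q.Δ (x : H →L[ℂ] H)) ξ η := by
  rw [coe_sr, coe_trΔ, sliceR_cj]

/-- The transported Hopf-von Neumann algebra. -/
abbrev trHopf (Q : LCQG.QuantumGroup H K) : HopfVonNeumann H where
  M := Q.M
  Δ := trΔ Q
  injective := fun x y hxy => by
    apply Subtype.ext
    have h := congrArg (Subtype.val) hxy
    rw [coe_trΔ, coe_trΔ] at h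
    exact Q.Δ_injective _ x.2 _ y.2 (cj_inj Q.T h)
  normal := fun ζ ζ' => by
    obtain ⟨g, hg⟩ := exists_L1_of_isNormal (Q.Δ_normal (U Q.T ζ) (U Q.T ζ'))
    refine ⟨g, fun x => ?_⟩
    rw [hg x, coe_trΔ, inner_cj']
  coassoc := fun x ξ₁ ξ₂ ξ₃ η₁ η₂ η₃ => by
    rw [coe_trΔ, coe_trΔ, inner_cj, inner_cj, coe_sr_trΔ, coe_sl_trΔ]
    exact Q.Δ_coassoc _ x.2 ξ₁ ξ₂ ξ₃ η₁ η₂ η₃

/-- The transported left regular unitary. -/
abbrev trW (Q : LCQG.QuantumGroup H K) : ↥(leftAmpl Q.M) :=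
  ⟨cj Q.T Q.W, cj_mem_leftAmpl Q.T Q.M Q.W_mem⟩

/-- The transported right regular unitary. -/
abbrev trV (Q : LCQG.QuantumGroup H K) : ↥(rightAmpl Q.M) :=
  ⟨cj Q.T Q.V, cj_mem_rightAmpl Q.T Q.M Q.V_mem⟩

lemma coe_slcR_trW (Q : LCQG.QuantumGroup H K) (ξ η : H) :
    (slcR (trW Q) ξ η : H →L[ℂ] H) = LCQG.sliceR Q.T Q.W ξ η :=
  sliceR_cj Q.T Q.W ξ η

lemma coe_slcL_trV (Q : LCQG.QuantumGroup H K) (ξ η : H) :
    (slcL (trV Q) ξ η : H →L[ℂ] H) = LCQG.sliceL Q.T Q.V ξ η :=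
  sliceL_cj Q.T Q.V ξ η

/-- The transported quantum group. -/
abbrev tr (Q : LCQG.QuantumGroup H K) : QuantumGroup H where
  toHopfVonNeumann := trHopf Q
  W := trW Q
  W_star_mul := by
    apply Subtype.ext
    change star (cj Q.T Q.W) * cj Q.T Q.W = 1
    rw [← cj_star, ← cj_mul, Q.W_unitary.1, cj_one]
  W_mul_star := by
    apply Subtype.ext
    change cj Q.T Q.W * star (cj Q.T Q.W) = 1
    rw [← cj_star, ← cj_mul, Q.W_unitary.2, cj_one]
  W_impl := fun x => by
    change cj Q.T (Q.Δ (x : H →L[ℂ] H)) = star (cj Q.T Q.W) * tens 1 (x : H →L[ℂ] H) *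
      cj Q.T Q.W
    rw [Q.W_impl _ x.2 (ci Q.T (tens 1 (x : H →L[ℂ] H))) (isTens_ci _ _ _), cj_mul, cj_mul,
      cj_star, cj_ci]
  W_corep := fun ξ₁ η₁ ξ₂ η₂ ξ₃ η₃ => by
    change ⟪tm η₁ η₂, cj Q.T (Q.Δ (slcR (trW Q) ξ₃ η₃ : H →L[ℂ] H)) (tm ξ₁ ξ₂)⟫_ℂ =
      ⟪tm η₂ η₃, tens 1 (sliceL (cj Q.T Q.W) ξ₁ η₁) (cj Q.T Q.W (tm ξ₂ ξ₃))⟫_ℂ
    have h3 : ∀ (s : H →L[ℂ] H) (ζ : HH H), ⟪tm η₂ η₃, tens 1 s ζ⟫_ℂ =
        ⟪tm η₂ (ContinuousLinearMap.adjoint s η₃), ζ⟫_ℂ := by
      intro s ζ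
      rw [← ContinuousLinearMap.adjoint_inner_left, ← ContinuousLinearMap.star_eq_adjoint,
        star_tens, tens_tm, star_one]
      rfl
    rw [inner_cj, coe_slcR_trW, Q.W_corep, h3, ← inner_sliceL,
      ContinuousLinearMap.adjoint_inner_left, sliceL_cj, sliceL_cj]
  V := trV Q
  V_star_mul := by
    apply Subtype.ext
    change star (cj Q.T Q.V) * cj Q.T Q.V = 1
    rw [← cj_star, ← cj_mul, Q.V_unitary.1, cj_one]
  V_mul_star := by
    apply Subtype.ext
    change cj Q.T Q.V * star (cj Q.T Q.V) = 1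
    rw [← cj_star, ← cj_mul, Q.V_unitary.2, cj_one]
  V_impl := fun x => by
    change cj Q.T (Q.Δ (x : H →L[ℂ] H)) = cj Q.T Q.V * tens (x : H →L[ℂ] H) 1 *
      star (cj Q.T Q.V)
    rw [Q.V_impl _ x.2 (ci Q.T (tens (x : H →L[ℂ] H) 1)) (isTens_ci _ _ _), cj_mul, cj_mul,
      cj_star, cj_ci]
  V_corep := fun ξ₁ η₁ ξ₂ η₂ ξ₃ η₃ => by
    change ⟪tm η₂ η₃, cj Q.T (Q.Δ (slcL (trV Q) ξ₁ η₁ : H →L[ℂ] H)) (tm ξ₂ ξ₃)⟫_ℂ =
      ⟪tm η₁ η₂, cj Q.T Q.V (tens (sliceR (cj Q.T Q.V) ξ₃ η₃) 1 (tm ξ₁ ξ₂))⟫_ℂ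
    rw [inner_cj, coe_slcL_trV, Q.V_corep, tens_tm]
    have h2 : (1 : H →L[ℂ] H) ξ₂ = ξ₂ := rfl
    rw [h2, ← inner_sliceR, sliceR_cj, sliceR_cj]

lemma tr_M (Q : LCQG.QuantumGroup H K) : (tr Q).M = Q.M := rfl

/-- Transport of convolutions: abstract form. -/
lemma isConv_of_eq (Q : LCQG.QuantumGroup H K) {μ ν ρ : (H →L[ℂ] H) → ℂ}
    {μ' ν' : L1 Q.M} (hμ : ∀ x : Alg Q.M, μ (x : H →L[ℂ] H) = μ' x)
    (hν : ∀ x : Alg Q.M, ν (x : H →L[ℂ] H) = ν' x)
    (hρ : ∀ x : Alg Q.M, ρ (x : H →L[ℂ] H) = (trHopf Q).conv μ' ν' x) :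
    LCQG.IsConv Q μ ν ρ := by
  intro x hx
  let y : Alg Q.M := (trHopf Q).rslice ν' ⟨x, hx⟩
  refine ⟨(y : H →L[ℂ] H), y.2, fun ξ η => ?_, ?_⟩
  · have h1 := (trHopf Q).inner_rslice ν' ⟨x, hx⟩ ξ η
    have h2 : ν (LCQG.sliceL Q.T (Q.Δ x) ξ η) = ν' (sl ((trHopf Q).Δ ⟨x, hx⟩) ξ η) := by
      rw [← hν]
      congr 1
      exact (coe_sl_trΔ Q ⟨x, hx⟩ ξ η).symm
    rw [h2, ← h1]
  · rw [hμ y, hρ ⟨x, hx⟩, HopfVonNeumann.conv_apply]

end

end Pool.Agent.Lib.MP_893ae4_anV.Bridge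
end

section

/-!
Weak* density of normal states, approximate identities from counit states, and conversely.
-/

open scoped InnerProductSpace TensorProduct ComplexOrder Topology
open UniformSpace Filter

namespace Pool.Agent.Lib.MP_893ae4_anV

noncomputable section

universe u

variable {H : Type u} [NormedAddCommGroup H] [InnerProductSpace ℂ H] [CompleteSpace H]

/-- A unit vector gives a normal state. -/
lemma isNormalState_vec (M : VonNeumannAlgebra H) {ξ : H} (hξ : ‖ξ‖ = 1) :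
    IsNormalState M (vecL1 M ξ ξ) := by
  refine ⟨fun x => ?_, ?_⟩
  · rw [toFn_vecL1, vec_apply, coe_mul_alg, mul_apply_eq_comp, coe_star_alg,
      ContinuousLinearMap.star_eq_adjoint, ContinuousLinearMap.adjoint_inner_right]
    exact inner_self_nonneg' _
  · rw [toFn_vecL1, vec_apply, coe_one_alg]
    change ⟪ξ, ξ⟫_ℂ = 1
    rw [inner_self_eq_norm_sq_to_K, hξ]
    simp

/-- Normal states are weak* dense in the states. -/
lemma exists_normalState_near {M : VonNeumannAlgebra H} {ε : StrongDual ℂ (Alg M)}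
    (hε : IsState ε) (G : Finset (Alg M)) {δ : ℝ} (hδ : 0 < δ) :
    ∃ e : L1 M, IsNormalState M e ∧ ∀ x ∈ G, ‖e x - ε x‖ < δ := by
  classical
  let T : L1 M → (↥G → ℂ) := fun e x => e (x : Alg M)
  let C : Set (↥G → ℂ) := T '' {e | IsNormalState M e}
  let p : ↥G → ℂ := fun x => ε (x : Alg M)
  by_cases hp : p ∈ closure C
  · rw [Metric.mem_closure_iff] at hp
    obtain ⟨c, ⟨e, he, rfl⟩, hc⟩ := hp δ hδ
    refine ⟨e, he, fun x hx => ?_⟩
    have h1 := (dist_pi_lt_iff hδ).1 hc ⟨x, hx⟩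
    rw [dist_comm, dist_eq_norm] at h1
    exact h1
  exfalso
  have hconv : Convex ℝ C := by
    rintro _ ⟨e, he, rfl⟩ _ ⟨e', he', rfl⟩ a b ha hb hab
    refine ⟨a • e + b • e', convex_normalStates M he he' ha hb hab, ?_⟩
    have hr : ∀ (r : ℝ) (ρ : L1 M) (y : Alg M), (r • ρ) y = (r : ℂ) * ρ y := by
      intro r ρ y
      have : (r • ρ : L1 M) = (r : ℂ) • ρ := (Complex.coe_smul r ρ).symm
      rw [this, map_smul, smul_apply, smul_eq_mul]
    funext x
    change (a • e + b • e') (x : Alg M) = a • e (x : Alg M) + b • e' (x : Alg M)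
    rw [map_add, add_apply, hr, hr, Complex.real_smul, Complex.real_smul]
  obtain ⟨f, u, hfC, hfp⟩ := RCLike.geometric_hahn_banach_closed_point (𝕜 := ℂ)
    hconv.closure isClosed_closure hp
  let y : Alg M := ∑ x : ↥G, f (Pi.single x 1) • (x : Alg M)
  have hfz : ∀ z : ↥G → ℂ, f z = ∑ x : ↥G, z x * f (Pi.single x 1) := by
    intro z
    have h1 : z = ∑ x : ↥G, z x • (Pi.single x 1 : ↥G → ℂ) := by
      funext w
      rw [Finset.sum_apply]
      simp [Pi.single_apply]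
    conv_lhs => rw [h1]
    rw [map_sum]
    refine Finset.sum_congr rfl fun x _ => ?_
    rw [map_smul, smul_eq_mul]
  have hy : ∀ φ : StrongDual ℂ (Alg M), f (fun x : ↥G => φ (x : Alg M)) = φ y := by
    intro φ
    rw [hfz]
    change _ = φ (∑ x : ↥G, f (Pi.single x 1) • (x : Alg M))
    rw [map_sum]
    refine Finset.sum_congr rfl fun x _ => ?_
    rw [map_smul, smul_eq_mul, mul_comm]
  have h1 : ∀ e : L1 M, IsNormalState M e → (e y).re < u := by
    intro e he
    have h := hfC (T e) (subset_closure ⟨e, he, rfl⟩)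
    have h' : f (T e) = e y := hy (toFn e)
    rw [h'] at h
    exact h
  have h2 : u < (ε y).re := by
    have h' : f p = ε y := hy ε
    rw [h'] at hfp
    exact hfp
  have h3 : ∀ ξ : H, (⟪ξ, (y : H →L[ℂ] H) ξ⟫_ℂ).re ≤ u * ‖ξ‖ ^ 2 := by
    intro ξ
    by_cases h0 : ‖ξ‖ = 0
    · rw [norm_eq_zero.1 h0]; simp
    have hpos : 0 < ‖ξ‖ := lt_of_le_of_ne (norm_nonneg _) (Ne.symm h0)
    have hn : ‖((‖ξ‖⁻¹ : ℝ) : ℂ) • ξ‖ = 1 := by
      rw [norm_smul, Complex.norm_real, norm_inv, norm_norm, inv_mul_cancel₀ h0]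
    have h4 := h1 _ (isNormalState_vec M hn)
    rw [toFn_vecL1, vec_apply, map_smul, inner_smul_left, inner_smul_right, Complex.conj_ofReal,
      ← mul_assoc, ← Complex.ofReal_mul, Complex.re_ofReal_mul] at h4
    have h5 : (⟪ξ, (y : H →L[ℂ] H) ξ⟫_ℂ).re =
        ‖ξ‖ ^ 2 * (‖ξ‖⁻¹ * ‖ξ‖⁻¹ * (⟪ξ, (y : H →L[ℂ] H) ξ⟫_ℂ).re) := by
      field_simp
    rw [h5, mul_comm u]
    exact mul_le_mul_of_nonneg_left h4.le (by positivity)
  have h4 : 0 ≤ ε (((2 * u : ℝ) : ℂ) • (1 : Alg M) - y - star y) := by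
    refine hε.nonneg fun ξ => ?_
    rw [coe_sub_alg, coe_sub_alg, coe_smul_alg, coe_one_alg, coe_star_alg, sub_apply, sub_apply,
      smul_apply, inner_sub_right, inner_sub_right, inner_smul_right,
      ContinuousLinearMap.star_eq_adjoint, ContinuousLinearMap.adjoint_inner_right]
    have e1 : ⟪ξ, (1 : H →L[ℂ] H) ξ⟫_ℂ = ((‖ξ‖ ^ 2 : ℝ) : ℂ) := by
      have := inner_self_eq_norm_sq_to_K (𝕜 := ℂ) ξ
      simpa using this
    have e2 : ⟪(y : H →L[ℂ] H) ξ, ξ⟫_ℂ = (starRingEnd ℂ) ⟪ξ, (y : H →L[ℂ] H) ξ⟫_ℂ :=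
      (inner_conj_symm _ _).symm
    rw [e1, e2, sub_sub, Complex.add_conj, ← Complex.ofReal_mul, ← Complex.ofReal_sub,
      Complex.zero_le_real]
    have := h3 ξ
    linarith
  rw [map_sub, map_sub, map_smul, hε.one, smul_eq_mul, mul_one, hε.map_star, sub_sub,
    Complex.add_conj, ← Complex.ofReal_sub, Complex.zero_le_real] at h4
  linarith

/-- A net of normal states converging weak* to a state. -/
lemma exists_net {M : VonNeumannAlgebra H} {ε : StrongDual ℂ (Alg M)} (hε : IsState ε) :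
    ∃ e : Finset (Alg M) × ℕ → L1 M, (∀ i, IsNormalState M (e i)) ∧
      ∀ x, Tendsto (fun i => e i x) atTop (𝓝 (ε x)) := by
  classical
  choose e he he' using fun i : Finset (Alg M) × ℕ =>
    exists_normalState_near hε i.1 (δ := 1 / ((i.2 : ℝ) + 1)) (by positivity)
  refine ⟨e, he, fun x => ?_⟩
  rw [Metric.tendsto_atTop]
  intro δ hδ
  obtain ⟨n, hn⟩ := exists_nat_one_div_lt hδ
  refine ⟨({x}, n), fun i hi => ?_⟩
  rw [dist_eq_norm]
  have h1 : x ∈ i.1 := hi.1 (Finset.mem_singleton_self x)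
  have h2 : (n : ℝ) ≤ (i.2 : ℝ) := by exact_mod_cast hi.2
  refine (he' i x h1).trans_le (le_trans ?_ hn.le)
  exact one_div_le_one_div_of_le (by positivity) (by linarith)

section Limits

variable (Q : QuantumGroup H) {ι : Type*} (l : Filter ι) (e : ι → L1 Q.M)

/-- Left approximate identity from a net converging to a counit state. -/
lemma tendsto_conv_left {ε : StrongDual ℂ (Alg Q.M)} (hε : IsCounitState Q ε)
    (hst : ∀ i, IsNormalState Q.M (e i)) (hlim : ∀ x, Tendsto (fun i => e i x) l (𝓝 (ε x)))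
    (f : L1 Q.M) : Tendsto (fun i => Q.conv (e i) f) l (𝓝 f) := by
  have hadd : ∀ f g : L1 Q.M, Tendsto (fun i => Q.conv (e i) f) l (𝓝 f) →
      Tendsto (fun i => Q.conv (e i) g) l (𝓝 g) →
      Tendsto (fun i => Q.conv (e i) (f + g)) l (𝓝 (f + g)) := by
    intro f g hf hg
    have h : (fun i => Q.conv (e i) (f + g)) = fun i => Q.conv (e i) f + Q.conv (e i) g :=
      funext fun i => Q.conv_add_right _ _ _
    rw [h]; exact hf.add hg
  have hsmul : ∀ (c : ℂ) (f : L1 Q.M), Tendsto (fun i => Q.conv (e i) f) l (𝓝 f) →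
      Tendsto (fun i => Q.conv (e i) (c • f)) l (𝓝 (c • f)) := by
    intro c f hf
    have h : (fun i => Q.conv (e i) (c • f)) = fun i => c • Q.conv (e i) f :=
      funext fun i => Q.conv_smul_right _ _ _
    rw [h]; exact hf.const_smul c
  refine L1_induction Q.M (P := fun f => Tendsto (fun i => Q.conv (e i) f) l (𝓝 f))
    ?_ ?_ ?_ hadd hsmul f
  · refine isClosed_tendsto l (fun i f => Q.conv (e i) f) (fun f => f) 1 zero_le_one ?_ ?_
    · intro i v w
      have h := Q.conv_add_right (e i) (v - w) w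
      rw [sub_add_cancel] at h
      rw [h, add_sub_cancel_right]
      exact (Q.norm_conv_le _ _).trans (mul_le_mul_of_nonneg_right (hst i).norm_le_one
        (norm_nonneg _))
    · intro v w; rw [one_mul]
  · refine vecL1_of_diag Q.M hadd hsmul fun ζ => ?_
    rw [tendsto_iff_norm_sub_tendsto_zero]
    have hb : ∀ i, ‖Q.conv (e i) (vecL1 Q.M ζ ζ) - vecL1 Q.M ζ ζ‖ ≤
        2 * ‖ζ‖ * √(2 * ‖ζ‖ ^ 2 - 2 * (e i (slcR Q.W ζ ζ)).re) := by
      intro i
      refine norm_L1_le _ (by positivity) fun x => ?_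
      have h := left_estimate Q (isNormalState_iff.1 (hst i)) ζ x
      have h2 : (Q.conv (e i) (vecL1 Q.M ζ ζ) - vecL1 Q.M ζ ζ) x =
          e i (sr (Q.Δ x) ζ ζ) - ⟪ζ, (x : H →L[ℂ] H) ζ⟫_ℂ := by
        rw [map_sub, sub_apply, HopfVonNeumann.conv_apply, HopfVonNeumann.rslice_vec,
          toFn_vecL1, vec_apply]
      rw [h2]
      refine h.trans (le_of_eq ?_)
      ring
    have h0 : Tendsto (fun i => 2 * ‖ζ‖ * √(2 * ‖ζ‖ ^ 2 - 2 * (e i (slcR Q.W ζ ζ)).re)) l
        (𝓝 (2 * ‖ζ‖ * √(2 * ‖ζ‖ ^ 2 - 2 * (ε (slcR Q.W ζ ζ)).re))) := by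
      refine Tendsto.const_mul _ ?_
      refine (Real.continuous_sqrt.tendsto _).comp ?_
      refine Tendsto.const_sub _ (Tendsto.const_mul _ ?_)
      exact (Complex.continuous_re.tendsto _).comp (hlim _)
    rw [hε.2 ζ ζ, re_inner_self', sub_self, Real.sqrt_zero, mul_zero] at h0
    exact squeeze_zero (fun i => norm_nonneg _) hb h0
  · have h : (fun i => Q.conv (e i) 0) = fun _ => (0 : L1 Q.M) := by
      funext i
      have := Q.conv_smul_right 0 (e i) 0
      rw [zero_smul, zero_smul] at this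
      exact this
    rw [h]; exact tendsto_const_nhds

/-- Right approximate identity from a net converging to a counit state. -/
lemma tendsto_conv_right {ε : StrongDual ℂ (Alg Q.M)} (hε : IsCounitState Q ε)
    (hst : ∀ i, IsNormalState Q.M (e i)) (hlim : ∀ x, Tendsto (fun i => e i x) l (𝓝 (ε x)))
    (f : L1 Q.M) : Tendsto (fun i => Q.conv f (e i)) l (𝓝 f) := by
  have hadd : ∀ f g : L1 Q.M, Tendsto (fun i => Q.conv f (e i)) l (𝓝 f) →
      Tendsto (fun i => Q.conv g (e i)) l (𝓝 g) →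
      Tendsto (fun i => Q.conv (f + g) (e i)) l (𝓝 (f + g)) := by
    intro f g hf hg
    have h : (fun i => Q.conv (f + g) (e i)) = fun i => Q.conv f (e i) + Q.conv g (e i) :=
      funext fun i => Q.conv_add_left _ _ _
    rw [h]; exact hf.add hg
  have hsmul : ∀ (c : ℂ) (f : L1 Q.M), Tendsto (fun i => Q.conv f (e i)) l (𝓝 f) →
      Tendsto (fun i => Q.conv (c • f) (e i)) l (𝓝 (c • f)) := by
    intro c f hf
    have h : (fun i => Q.conv (c • f) (e i)) = fun i => c • Q.conv f (e i) :=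
      funext fun i => Q.conv_smul_left _ _ _
    rw [h]; exact hf.const_smul c
  refine L1_induction Q.M (P := fun f => Tendsto (fun i => Q.conv f (e i)) l (𝓝 f))
    ?_ ?_ ?_ hadd hsmul f
  · refine isClosed_tendsto l (fun i f => Q.conv f (e i)) (fun f => f) 1 zero_le_one ?_ ?_
    · intro i v w
      have h := Q.conv_add_left (v - w) w (e i)
      rw [sub_add_cancel] at h
      rw [h, add_sub_cancel_right]
      refine (Q.norm_conv_le _ _).trans ?_
      rw [mul_comm]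
      exact mul_le_mul_of_nonneg_right (hst i).norm_le_one (norm_nonneg _)
    · intro v w; rw [one_mul]
  · refine vecL1_of_diag Q.M hadd hsmul fun ζ => ?_
    rw [tendsto_iff_norm_sub_tendsto_zero]
    have hb : ∀ i, ‖Q.conv (vecL1 Q.M ζ ζ) (e i) - vecL1 Q.M ζ ζ‖ ≤
        2 * ‖ζ‖ * √(2 * ‖ζ‖ ^ 2 - 2 * (e i (slcL Q.V ζ ζ)).re) := by
      intro i
      refine norm_L1_le _ (by positivity) fun x => ?_
      have h := right_estimate Q (isNormalState_iff.1 (hst i)) ζ x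
      have h2 : (Q.conv (vecL1 Q.M ζ ζ) (e i) - vecL1 Q.M ζ ζ) x =
          e i (sl (Q.Δ x) ζ ζ) - ⟪ζ, (x : H →L[ℂ] H) ζ⟫_ℂ := by
        rw [map_sub, sub_apply, HopfVonNeumann.conv_apply, toFn_vecL1, vec_apply, vec_apply,
          HopfVonNeumann.inner_rslice]
      rw [h2]
      refine h.trans (le_of_eq ?_)
      ring
    have h0 : Tendsto (fun i => 2 * ‖ζ‖ * √(2 * ‖ζ‖ ^ 2 - 2 * (e i (slcL Q.V ζ ζ)).re)) l
        (𝓝 (2 * ‖ζ‖ * √(2 * ‖ζ‖ ^ 2 - 2 * (ε (slcL Q.V ζ ζ)).re))) := by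
      refine Tendsto.const_mul _ ?_
      refine (Real.continuous_sqrt.tendsto _).comp ?_
      refine Tendsto.const_sub _ (Tendsto.const_mul _ ?_)
      exact (Complex.continuous_re.tendsto _).comp (hlim _)
    rw [hε.on_V Q ζ ζ, re_inner_self', sub_self, Real.sqrt_zero, mul_zero] at h0
    exact squeeze_zero (fun i => norm_nonneg _) hb h0
  · have h : (fun i => Q.conv 0 (e i)) = fun _ => (0 : L1 Q.M) := by
      funext i
      have := Q.conv_smul_left 0 0 (e i)
      rw [zero_smul, zero_smul] at this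
      exact this
    rw [h]; exact tendsto_const_nhds

end Limits

/-- A counit state gives an approximate identity of normal states. -/
theorem hasStateApproxUnit_of_counit (Q : QuantumGroup H) {ε : StrongDual ℂ (Alg Q.M)}
    (hε : IsCounitState Q ε) : HasStateApproxUnit Q.toHopfVonNeumann := by
  classical
  obtain ⟨e, he, hlim⟩ := exists_net hε.1
  intro δ hδ F
  have h1 : ∀ f ∈ F, ∀ᶠ i in (atTop : Filter (Finset (Alg Q.M) × ℕ)),
      ‖Q.conv (e i) f - f‖ < δ ∧ ‖Q.conv f (e i) - f‖ < δ := by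
    intro f _
    have h2 := (tendsto_iff_norm_sub_tendsto_zero.1
      (tendsto_conv_left Q atTop e hε he hlim f)).eventually_lt_const hδ
    have h3 := (tendsto_iff_norm_sub_tendsto_zero.1
      (tendsto_conv_right Q atTop e hε he hlim f)).eventually_lt_const hδ
    exact h2.and h3
  obtain ⟨i, hi⟩ := ((Filter.eventually_all_finset F).2 h1).exists
  exact ⟨e i, he i, hi⟩

end

end Pool.Agent.Lib.MP_893ae4_anV
end

section

/-!
Translation of quantum groups, convolutions and semigroups.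
-/

open scoped InnerProductSpace TensorProduct ComplexOrder Topology
open UniformSpace Filter

namespace Pool.Agent.Lib.MP_893ae4_anV.Bridge

noncomputable section

universe u v

variable {H : Type u} {K : Type v} [NormedAddCommGroup H] [InnerProductSpace ℂ H]
  [CompleteSpace H] [NormedAddCommGroup K] [InnerProductSpace ℂ K] [CompleteSpace K]

lemma normTendsto_of_tendsto {M : VonNeumannAlgebra H} {l : Filter ℝ} {g : ℝ → L1 M} {g₀ : L1 M}
    {f : (H →L[ℂ] H) → ℂ} (hf : ∀ x : Alg M, f (x : H →L[ℂ] H) = g₀ x)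
    (h : Tendsto g l (𝓝 g₀)) : LCQG.NormTendsto M l (fun t => ext0 (toFn (g t))) f := by
  intro δ hδ
  have h2 : ∀ᶠ t in l, dist (g t) g₀ < δ := Metric.tendsto_nhds.1 h δ hδ
  filter_upwards [h2] with t ht x hx
  rw [dist_eq_norm] at ht
  have h3 := (toFn (g t - g₀)).le_opNorm ⟨x, hx⟩
  have h4 : toFn (g t - g₀) ⟨x, hx⟩ = ext0 (toFn (g t)) x - f x := by
    rw [map_sub, sub_apply, ext0_apply _ hx, ← hf ⟨x, hx⟩]
  rw [h4, norm_toFn] at h3
  exact h3.trans (mul_le_mul_of_nonneg_right ht.le (norm_nonneg _))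

/-- A co-amenable quantum group has a strongly continuous convolution semigroup. -/
theorem exists_semigroup_of_coAmenable (Q : LCQG.QuantumGroup H K)
    [TopologicalSpace.SeparableSpace H] (hQ : LCQG.CoAmenable Q) :
    ∃ μ : ℝ → (H →L[ℂ] H) → ℂ, LCQG.IsSemigroup Q μ ∧ LCQG.IsStronglyContinuous Q μ := by
  obtain ⟨φ, hφ, hφW⟩ := hQ
  obtain ⟨ε, hε, hεφ⟩ := exists_dual_of_state hφ
  have hco : IsCounitState (tr Q) ε := by
    refine ⟨hε, fun ξ η => ?_⟩
    change ε (slcR (trW Q) ξ η) = ⟪η, ξ⟫_ℂ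
    rw [hεφ, coe_slcR_trW, hφW]
  have hau := hasStateApproxUnit_of_counit (tr Q) hco
  haveI : TopologicalSpace.SeparableSpace (L1 (tr Q).toHopfVonNeumann.M) := separable_L1 _
  obtain ⟨μ, hst, hsg, hl, hr⟩ := exists_conv_semigroup (tr Q).toHopfVonNeumann hau
  have hc := continuousOn_semigroup (tr Q).toHopfVonNeumann μ hst hsg hl
  let μ' : ℝ → L1 Q.M := μ
  have hex : ∀ t (x : Alg Q.M), ext0 (toFn (μ' t)) (x : H →L[ℂ] H) = μ' t x :=
    fun t x => ext0_coe _ x
  have hslice : ∀ (t : ℝ) (ξ η : H), ext0 (toFn (μ' t)) (LCQG.sliceR Q.T Q.W ξ η) =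
      μ' t (slcR (trW Q) ξ η) := by
    intro t ξ η
    rw [← coe_slcR_trW]
    exact ext0_coe _ _
  refine ⟨fun t => ext0 (toFn (μ' t)), ⟨?_, ?_, ?_, ?_, ?_⟩, ⟨?_, ?_, ?_⟩⟩
  · intro t ht
    exact isState_ext0 (isNormalState_iff.1 (hst t ht))
  · intro t _
    exact isNormal_ext0 _
  · intro s hs t ht
    refine isConv_of_eq Q (hex s) (hex t) fun x => ?_
    rw [hex]
    have h := hsg s hs t ht
    exact congrArg (fun f : L1 Q.M => f x) h
  · intro ξ η
    have h1 : ContinuousOn (fun t => μ' t (slcR (trW Q) ξ η)) (Set.Ioi 0) :=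
      (toFn.continuous.clm_apply continuous_const).comp_continuousOn hc
    exact h1.congr fun t _ => hslice t ξ η
  · intro ξ η
    have h1 := tendsto_slices (tr Q) (𝓝[>] 0) μ (by
      filter_upwards [self_mem_nhdsWithin] with t ht
      exact hst t ht) hl ξ η
    exact h1.congr fun t => (hslice t ξ η).symm
  · intro s hs
    have h1 : ContinuousAt μ' s := (hc s hs).continuousAt (Ioi_mem_nhds hs)
    exact normTendsto_of_tendsto (hex s) h1
  · intro f hf
    obtain ⟨g, hg⟩ := exists_L1_of_isNormal hf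
    refine ⟨fun t => ext0 (toFn ((trHopf Q).conv (μ' t) g)), fun t _ => ?_, ?_⟩
    · exact isConv_of_eq Q (hex t) (fun x => (hg x).symm) fun x => ext0_coe _ x
    · exact normTendsto_of_tendsto (fun x => (hg x).symm) (hl g)
  · intro f hf
    obtain ⟨g, hg⟩ := exists_L1_of_isNormal hf
    refine ⟨fun t => ext0 (toFn ((trHopf Q).conv g (μ' t))), fun t _ => ?_, ?_⟩
    · exact isConv_of_eq Q (fun x => (hg x).symm) (hex t) fun x => ext0_coe _ x
    · exact normTendsto_of_tendsto (fun x => (hg x).symm) (hr g)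

/-- A weak* continuous convolution semigroup of normal states gives a counit state. -/
theorem coAmenable_of_semigroup (Q : LCQG.QuantumGroup H K) (μ : ℝ → (H →L[ℂ] H) → ℂ)
    (hμ : LCQG.IsSemigroup Q μ) : LCQG.CoAmenable Q := by
  classical
  have h1 : ∀ t : ℝ, ∃ g : L1 Q.M, 0 < t → ∀ x : Alg Q.M, g x = μ t (x : H →L[ℂ] H) := by
    intro t
    by_cases ht : 0 < t
    · obtain ⟨g, hg⟩ := exists_L1_of_isNormal (hμ.normal t ht)
      exact ⟨g, fun _ => hg⟩
    · exact ⟨0, fun h => absurd h ht⟩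
  choose e he using h1
  have hst : ∀ᶠ t in 𝓝[>] (0 : ℝ), IsNormalState (tr Q).M (e t) := by
    filter_upwards [self_mem_nhdsWithin] with t ht
    have ht' : 0 < t := ht
    refine ⟨fun x => ?_, ?_⟩
    · rw [he t ht']
      exact (hμ.state t ht').nonneg _ x.2
    · rw [he t ht']
      exact (hμ.state t ht').one
  obtain ⟨ε, hε, hεW⟩ := exists_counit_of_tendsto (tr Q) (𝓝[>] (0 : ℝ)) e hst (by
    intro ξ η
    refine (hμ.tendsto_zero ξ η).congr' ?_
    filter_upwards [self_mem_nhdsWithin] with t ht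
    have h2 := he t ht (slcR (trW Q) ξ η)
    rw [coe_slcR_trW] at h2
    exact h2.symm)
  refine ⟨ext0 (M := Q.M) ε, isState_ext0 hε, fun ξ η => ?_⟩
  rw [← coe_slcR_trW]
  exact (ext0_coe (M := Q.M) ε _).trans (hεW ξ η)

end

end Pool.Agent.Lib.MP_893ae4_anV.Bridge
end
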