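import Pool.Agent.Lib.MP_893ae4_anV.StatesA

/-!
Cauchy-Schwarz estimates for states composed with compressions.
-/

open scoped InnerProductSpace TensorProduct ComplexOrder
open UniformSpace

namespace Pool.Agent.Lib.MP_893ae4_anV

noncomputable section

universe u

/-- Cauchy-Schwarz inequality for positive hermitian functionals on a complex *-algebra. -/
lemma cauchy_schwarz_star {A : Type*} [Ring A] [StarRing A] [Algebra ℂ A] [StarModule ℂ A]
    (ψ : A →ₗ[ℂ] ℂ) (hpos : ∀ a, 0 ≤ (ψ (star a * a)).re)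
    (hherm : ∀ a, ψ (star a) = (starRingEnd ℂ) (ψ a)) (a b : A) :
    ‖ψ (star a * b)‖ ≤ √(ψ (star a * a)).re * √(ψ (star b * b)).re := by
  let c : PreInnerProductSpace.Core ℂ A :=
    { inner := fun x y => ψ (star x * y)
      conj_inner_symm := fun x y => by
        change (starRingEnd ℂ) (ψ (star y * x)) = ψ (star x * y)
        rw [← hherm, star_mul, star_star]
      re_inner_nonneg := fun x => hpos x
      add_left := fun x y z => by
        change ψ (star (x + y) * z) = ψ (star x * z) + ψ (star y * z)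
        rw [star_add, add_mul, map_add]
      smul_left := fun x y r => by
        change ψ (star (r • x) * y) = (starRingEnd ℂ) r * ψ (star x * y)
        rw [star_smul, smul_mul_assoc, map_smul]
        rfl }
  have h := @InnerProductSpace.Core.inner_mul_inner_self_le ℂ A _ _ _ c a b
  have h' : ‖ψ (star a * b)‖ * ‖ψ (star b * a)‖ ≤
      (ψ (star a * a)).re * (ψ (star b * b)).re := h
  have hs : ‖ψ (star b * a)‖ = ‖ψ (star a * b)‖ := by
    have : star b * a = star (star a * b) := by rw [star_mul, star_star]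
    rw [this, hherm, RCLike.norm_conj]
  rw [hs] at h'
  rw [← Real.sqrt_mul (hpos a)]
  apply Real.le_sqrt_of_sq_le
  rw [sq]; exact h'

/-- If a positive functional almost fixes a unitary, it is almost invariant under the
conjugation by this unitary. -/
lemma unitary_bound {A : Type*} [NormedRing A] [StarRing A] [CStarRing A] [NormedAlgebra ℂ A]
    [StarModule ℂ A] (ψ : A →ₗ[ℂ] ℂ) (hpos : ∀ a, 0 ≤ (ψ (star a * a)).re)
    (hherm : ∀ a, ψ (star a) = (starRingEnd ℂ) (ψ a)) {K : ℝ} (hK : 0 ≤ K)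
    (hbd : ∀ a, (ψ (star a * a)).re ≤ (K * ‖a‖) ^ 2) {U X : A} (hU : ‖U‖ ≤ 1) :
    ‖ψ (star U * X * U) - ψ X‖ ≤ 2 * (K * ‖X‖) * √(ψ (star (U - 1) * (U - 1))).re := by
  have e : star U * X * U - X = star (star X * U) * (U - 1) + star (U - 1) * X := by
    rw [star_mul, star_star, star_sub, star_one, mul_sub, sub_mul, mul_one, one_mul]
    abel
  rw [← map_sub, e, map_add]
  have h1 := cauchy_schwarz_star ψ hpos hherm (star X * U) (U - 1)
  have h2 := cauchy_schwarz_star ψ hpos hherm (U - 1) X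
  have b1 : √(ψ (star (star X * U) * (star X * U))).re ≤ K * ‖X‖ := by
    rw [Real.sqrt_le_left (by positivity)]
    refine (hbd _).trans ?_
    have h3 : ‖star X * U‖ ≤ ‖X‖ := by
      calc ‖star X * U‖ ≤ ‖star X‖ * ‖U‖ := norm_mul_le _ _
        _ ≤ ‖star X‖ * 1 := mul_le_mul_of_nonneg_left hU (norm_nonneg _)
        _ = ‖X‖ := by rw [mul_one, norm_star]
    exact pow_le_pow_left₀ (by positivity) (mul_le_mul_of_nonneg_left h3 hK) 2
  have b2 : √(ψ (star X * X)).re ≤ K * ‖X‖ := by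
    rw [Real.sqrt_le_left (by positivity)]
    exact hbd _
  calc ‖ψ (star (star X * U) * (U - 1)) + ψ (star (U - 1) * X)‖
      ≤ ‖ψ (star (star X * U) * (U - 1))‖ + ‖ψ (star (U - 1) * X)‖ := norm_add_le _ _
    _ ≤ K * ‖X‖ * √(ψ (star (U - 1) * (U - 1))).re +
        √(ψ (star (U - 1) * (U - 1))).re * (K * ‖X‖) := by
        refine add_le_add (h1.trans ?_) (h2.trans ?_)
        · exact mul_le_mul_of_nonneg_right b1 (Real.sqrt_nonneg _)
        · exact mul_le_mul_of_nonneg_left b2 (Real.sqrt_nonneg _)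
    _ = _ := by ring

variable {H : Type u} [NormedAddCommGroup H] [InnerProductSpace ℂ H] [CompleteSpace H]
variable {M : VonNeumannAlgebra H}

/-- Compression by a bounded operator `T : H → H ⊗ H`. -/
def compr (M : VonNeumannAlgebra H) (T : H →L[ℂ] HH H) (N : StarSubalgebra ℂ (HH H →L[ℂ] HH H))
    (hN : ∀ z ∈ N, (ContinuousLinearMap.adjoint T ∘L z ∘L T) ∈ M.toStarSubalgebra) :
    ↥N →ₗ[ℂ] Alg M where
  toFun z := ⟨ContinuousLinearMap.adjoint T ∘L (z : HH H →L[ℂ] HH H) ∘L T, hN z z.2⟩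
  map_add' z z' := by
    apply Subtype.ext
    ext ξ
    have h : ((z + z' : ↥N) : HH H →L[ℂ] HH H) = (z : HH H →L[ℂ] HH H) + z' := rfl
    simp [h]
  map_smul' c z := by
    apply Subtype.ext
    ext ξ
    have h : ((c • z : ↥N) : HH H →L[ℂ] HH H) = c • (z : HH H →L[ℂ] HH H) := rfl
    simp [h]

lemma coe_compr (T : H →L[ℂ] HH H) (N : StarSubalgebra ℂ (HH H →L[ℂ] HH H))
    (hN : ∀ z ∈ N, (ContinuousLinearMap.adjoint T ∘L z ∘L T) ∈ M.toStarSubalgebra) (z : ↥N) :
    (compr M T N hN z : H →L[ℂ] H) =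
      ContinuousLinearMap.adjoint T ∘L (z : HH H →L[ℂ] HH H) ∘L T := rfl

lemma inner_compr (T : H →L[ℂ] HH H) (N : StarSubalgebra ℂ (HH H →L[ℂ] HH H))
    (hN : ∀ z ∈ N, (ContinuousLinearMap.adjoint T ∘L z ∘L T) ∈ M.toStarSubalgebra) (z : ↥N)
    (a b : H) : ⟪b, (compr M T N hN z : H →L[ℂ] H) a⟫_ℂ =
      ⟪T b, (z : HH H →L[ℂ] HH H) (T a)⟫_ℂ := by
  rw [coe_compr]
  simp [ContinuousLinearMap.adjoint_inner_right]

lemma norm_compr_le (T : H →L[ℂ] HH H) (N : StarSubalgebra ℂ (HH H →L[ℂ] HH H))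
    (hN : ∀ z ∈ N, (ContinuousLinearMap.adjoint T ∘L z ∘L T) ∈ M.toStarSubalgebra) (z : ↥N) :
    ‖compr M T N hN z‖ ≤ ‖T‖ * (‖z‖ * ‖T‖) := by
  have h1 : ‖compr M T N hN z‖ =
      ‖ContinuousLinearMap.adjoint T ∘L (z : HH H →L[ℂ] HH H) ∘L T‖ := rfl
  rw [h1]
  refine (ContinuousLinearMap.opNorm_comp_le _ _).trans ?_
  rw [LinearIsometryEquiv.norm_map]
  exact mul_le_mul_of_nonneg_left (ContinuousLinearMap.opNorm_comp_le _ _) (norm_nonneg _)

lemma compr_star (T : H →L[ℂ] HH H) (N : StarSubalgebra ℂ (HH H →L[ℂ] HH H))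
    (hN : ∀ z ∈ N, (ContinuousLinearMap.adjoint T ∘L z ∘L T) ∈ M.toStarSubalgebra) (z : ↥N) :
    compr M T N hN (star z) = star (compr M T N hN z) := by
  refine alg_ext fun a b => ?_
  have h : ((star z : ↥N) : HH H →L[ℂ] HH H) = star (z : HH H →L[ℂ] HH H) := rfl
  rw [inner_compr, coe_star_alg, ContinuousLinearMap.star_eq_adjoint,
    ContinuousLinearMap.adjoint_inner_right, h, ContinuousLinearMap.star_eq_adjoint,
    ContinuousLinearMap.adjoint_inner_right]
  have e := congrArg (starRingEnd ℂ) (inner_compr (M := M) T N hN z b a)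
  rw [inner_conj_symm, inner_conj_symm] at e
  exact e.symm

lemma compr_star_mul_self_nonneg (T : H →L[ℂ] HH H) (N : StarSubalgebra ℂ (HH H →L[ℂ] HH H))
    (hN : ∀ z ∈ N, (ContinuousLinearMap.adjoint T ∘L z ∘L T) ∈ M.toStarSubalgebra) (z : ↥N)
    (ξ : H) : 0 ≤ ⟪ξ, (compr M T N hN (star z * z) : H →L[ℂ] H) ξ⟫_ℂ := by
  rw [inner_compr]
  have h : ((star z * z : ↥N) : HH H →L[ℂ] HH H) =
      star (z : HH H →L[ℂ] HH H) * (z : HH H →L[ℂ] HH H) := rfl
  rw [h, mul_apply_eq_comp, ContinuousLinearMap.star_eq_adjoint,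
    ContinuousLinearMap.adjoint_inner_right]
  exact inner_self_nonneg' _

/-- Main estimate: near-invariance under conjugation with a unitary. -/
lemma IsState.conj_bound {φ : StrongDual ℂ (Alg M)} (hφ : IsState φ) (T : H →L[ℂ] HH H)
    (N : StarSubalgebra ℂ (HH H →L[ℂ] HH H))
    (hN : ∀ z ∈ N, (ContinuousLinearMap.adjoint T ∘L z ∘L T) ∈ M.toStarSubalgebra)
    (U X : ↥N) (hU : ‖U‖ ≤ 1) :
    ‖φ (compr M T N hN (star U * X * U)) - φ (compr M T N hN X)‖ ≤
      2 * (‖T‖ * ‖X‖) * √(φ (compr M T N hN (star (U - 1) * (U - 1)))).re := by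
  have hcs : CStarRing ↥N := inferInstance
  refine unitary_bound (A := ↥N) ((φ : Alg M →ₗ[ℂ] ℂ) ∘ₗ compr M T N hN) ?_ ?_
    (norm_nonneg T) ?_ hU
  · intro a
    exact (Complex.le_def.1 (hφ.nonneg fun ξ => compr_star_mul_self_nonneg T N hN a ξ)).1
  · intro a
    change φ (compr M T N hN (star a)) = _
    rw [compr_star, hφ.map_star]
    rfl
  · intro a
    change (φ (compr M T N hN (star a * a))).re ≤ _
    refine (Complex.re_le_norm _).trans ((hφ.norm_apply_le _).trans ?_)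
    refine (norm_compr_le T N hN _).trans ?_
    have h1 : ‖star a * a‖ = ‖a‖ * ‖a‖ := CStarRing.norm_star_mul_self
    rw [h1]
    apply le_of_eq
    ring

end

end Pool.Agent.Lib.MP_893ae4_anV
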