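import Pool.Agent.Lib.MP_893ae4_anV.Tensor

/-!
The predual of a von Neumann algebra as the norm closure of the span of the vector functionals,
normal states, slice maps by bounded functionals.
-/

open scoped InnerProductSpace TensorProduct ComplexOrder
open UniformSpace

namespace Pool.Agent.Lib.MP_893ae4_anV

noncomputable section

universe u

variable {H : Type u} [NormedAddCommGroup H] [InnerProductSpace ℂ H] [CompleteSpace H]

/-- The underlying normed *-algebra of a von Neumann algebra. -/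
abbrev Alg (M : VonNeumannAlgebra H) : Type u := ↥M.toStarSubalgebra

lemma mem_toStarSubalgebra {M : VonNeumannAlgebra H} {x : H →L[ℂ] H} :
    x ∈ M.toStarSubalgebra ↔ x ∈ M := Iff.rfl

lemma isClosed_vn (M : VonNeumannAlgebra H) : IsClosed (M.toStarSubalgebra : Set (H →L[ℂ] H)) := by
  have h := M.centralizer_centralizer
  rw [VonNeumannAlgebra.coe_toStarSubalgebra, ← h]
  exact Set.isClosed_centralizer _

/-- The C*-algebra structure of a von Neumann algebra (not an instance). -/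
@[reducible] def cstarVN (M : VonNeumannAlgebra H) : CStarAlgebra (Alg M) :=
  haveI := isClosed_vn M
  StarSubalgebra.cstarAlgebra M.toStarSubalgebra

lemma norm_alg_coe {M : VonNeumannAlgebra H} (x : Alg M) : ‖(x : H →L[ℂ] H)‖ = ‖x‖ := rfl

/-- A positive element of a von Neumann algebra is of the form `b* b` with `b` in the algebra. -/
lemma exists_sq (M : VonNeumannAlgebra H) {a : H →L[ℂ] H} (ha : a ∈ M)
    (hpos : a.IsPositive) : ∃ b ∈ M, a = star b * b := by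
  have h0 : (0 : H →L[ℂ] H) ≤ a := by
    rw [ContinuousLinearMap.le_def, sub_zero]; exact hpos
  refine ⟨CFC.sqrt a, ?_, ?_⟩
  · rw [← VonNeumannAlgebra.commutant_commutant M, VonNeumannAlgebra.mem_commutant_iff]
    intro g hg
    have hc : Commute a g := (VonNeumannAlgebra.mem_commutant_iff.1 hg) a ha
    exact (hc.cfcₙ_nnreal NNReal.sqrt).eq.symm
  · have h1 : IsSelfAdjoint (CFC.sqrt a) := IsSelfAdjoint.of_nonneg (CFC.sqrt_nonneg a)
    rw [h1.star_eq, CFC.sqrt_mul_sqrt_self a h0]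

/-- The vector functional `ω_{ξ,η} : x ↦ ⟪η, x ξ⟫` on a von Neumann algebra. -/
def vec (M : VonNeumannAlgebra H) (ξ η : H) : StrongDual ℂ (Alg M) :=
  LinearMap.mkContinuous
    { toFun := fun x => ⟪η, (x : H →L[ℂ] H) ξ⟫_ℂ
      map_add' := fun x y => by simp
      map_smul' := fun c x => by simp } (‖ξ‖ * ‖η‖)
    (fun x => by
      refine (norm_inner_le_norm _ _).trans ?_
      have h := (x : H →L[ℂ] H).le_opNorm ξ
      calc ‖η‖ * ‖(x : H →L[ℂ] H) ξ‖ ≤ ‖η‖ * (‖(x : H →L[ℂ] H)‖ * ‖ξ‖) :=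
            mul_le_mul_of_nonneg_left h (norm_nonneg _)
        _ = ‖ξ‖ * ‖η‖ * ‖(x : H →L[ℂ] H)‖ := by ring)

@[simp] lemma vec_apply (M : VonNeumannAlgebra H) (ξ η : H) (x : Alg M) :
    vec M ξ η x = ⟪η, (x : H →L[ℂ] H) ξ⟫_ℂ := rfl

lemma norm_vec_le (M : VonNeumannAlgebra H) (ξ η : H) : ‖vec M ξ η‖ ≤ ‖ξ‖ * ‖η‖ :=
  LinearMap.mkContinuous_norm_le _ (by positivity) _

/-- The predual `M_*` of a von Neumann algebra: the norm closure, in the dual of `M`, of the
linear span of the vector functionals. -/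
def predual (M : VonNeumannAlgebra H) : Submodule ℂ (StrongDual ℂ (Alg M)) :=
  (Submodule.span ℂ (Set.range fun p : H × H => vec M p.1 p.2)).topologicalClosure

lemma vec_mem_predual (M : VonNeumannAlgebra H) (ξ η : H) : vec M ξ η ∈ predual M :=
  Submodule.le_topologicalClosure _ (Submodule.subset_span ⟨(ξ, η), rfl⟩)

lemma isClosed_predual (M : VonNeumannAlgebra H) :
    IsClosed (predual M : Set (StrongDual ℂ (Alg M))) :=
  Submodule.isClosed_topologicalClosure _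

/-- Induction principle for the predual. -/
lemma predual_induction (M : VonNeumannAlgebra H) {P : StrongDual ℂ (Alg M) → Prop}
    (hclosed : IsClosed {f | P f}) (hvec : ∀ ξ η, P (vec M ξ η)) (hzero : P 0)
    (hadd : ∀ f g, P f → P g → P (f + g)) (hsmul : ∀ (c : ℂ) f, P f → P (c • f))
    {f : StrongDual ℂ (Alg M)} (hf : f ∈ predual M) : P f := by
  have h1 : ∀ g ∈ Submodule.span ℂ (Set.range fun p : H × H => vec M p.1 p.2), P g := by
    intro g hg
    induction hg using Submodule.span_induction with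
    | mem x hx => obtain ⟨p, rfl⟩ := hx; exact hvec _ _
    | zero => exact hzero
    | add x y _ _ hx hy => exact hadd x y hx hy
    | smul c x _ hx => exact hsmul c x hx
  have h2 : (predual M : Set (StrongDual ℂ (Alg M))) ⊆ {f | P f} := by
    unfold predual
    rw [Submodule.topologicalClosure_coe]
    exact closure_minimal h1 hclosed
  exact h2 hf

/-- The predual `M_*` of a von Neumann algebra, as a Banach space. -/
def L1 (M : VonNeumannAlgebra H) : Type u := ↥(predual M)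

instance (M : VonNeumannAlgebra H) : NormedAddCommGroup (L1 M) :=
  inferInstanceAs (NormedAddCommGroup ↥(predual M))

instance (M : VonNeumannAlgebra H) : NormedSpace ℂ (L1 M) :=
  inferInstanceAs (NormedSpace ℂ ↥(predual M))

instance (M : VonNeumannAlgebra H) : CompleteSpace (L1 M) :=
  (isClosed_predual M).completeSpace_coe

/-- An element of the predual as a bounded functional. -/
def toFn {M : VonNeumannAlgebra H} : L1 M →L[ℂ] StrongDual ℂ (Alg M) :=
  LinearMap.mkContinuous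
    { toFun := fun f => (Subtype.val f : StrongDual ℂ (Alg M))
      map_add' := fun _ _ => rfl
      map_smul' := fun _ _ => rfl } 1 (fun f => by rw [one_mul]; exact le_refl _)

instance (M : VonNeumannAlgebra H) : CoeFun (L1 M) (fun _ => Alg M → ℂ) :=
  ⟨fun f => toFn f⟩

lemma norm_toFn {M : VonNeumannAlgebra H} (f : L1 M) : ‖toFn f‖ = ‖f‖ := rfl

lemma toFn_injective {M : VonNeumannAlgebra H} {f g : L1 M} (h : toFn f = toFn g) : f = g :=
  Subtype.ext h

lemma L1_ext {M : VonNeumannAlgebra H} {f g : L1 M} (h : ∀ x, f x = g x) : f = g :=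
  toFn_injective (ContinuousLinearMap.ext h)

lemma toFn_mem {M : VonNeumannAlgebra H} (f : L1 M) : toFn f ∈ predual M := Subtype.property f

/-- Constructor for elements of the predual. -/
def L1mk {M : VonNeumannAlgebra H} (f : StrongDual ℂ (Alg M)) (hf : f ∈ predual M) : L1 M :=
  ⟨f, hf⟩

@[simp] lemma toFn_L1mk {M : VonNeumannAlgebra H} (f : StrongDual ℂ (Alg M))
    (hf : f ∈ predual M) : toFn (L1mk f hf) = f := rfl

/-- The vector functional as an element of the predual. -/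
def vecL1 (M : VonNeumannAlgebra H) (ξ η : H) : L1 M := L1mk (vec M ξ η) (vec_mem_predual M ξ η)

@[simp] lemma toFn_vecL1 (M : VonNeumannAlgebra H) (ξ η : H) :
    toFn (vecL1 M ξ η) = vec M ξ η := rfl

/-- Induction principle for the predual, in subtype form. -/
lemma L1_induction (M : VonNeumannAlgebra H) {P : L1 M → Prop}
    (hclosed : IsClosed {f | P f}) (hvec : ∀ ξ η, P (vecL1 M ξ η))
    (hzero : P 0) (hadd : ∀ f g, P f → P g → P (f + g))
    (hsmul : ∀ (c : ℂ) f, P f → P (c • f)) (f : L1 M) : P f := by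
  have key : ∃ h : toFn f ∈ predual M, P (L1mk (toFn f) h) := by
    refine predual_induction M (P := fun g => ∃ h : g ∈ predual M, P (L1mk g h))
      ?_ ?_ ?_ ?_ ?_ (toFn_mem f)
    · have h1 : {g : StrongDual ℂ (Alg M) | ∃ h : g ∈ predual M, P (L1mk g h)}
          = Subtype.val '' {f : ↥(predual M) | P f} := by
        ext g
        constructor
        · rintro ⟨h, hP⟩; exact ⟨⟨g, h⟩, hP, rfl⟩
        · rintro ⟨⟨g', h⟩, hP, rfl⟩; exact ⟨h, hP⟩
      rw [h1]
      exact (isClosed_predual M).isClosedEmbedding_subtypeVal.isClosedMap _ hclosed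
    · intro ξ η; exact ⟨vec_mem_predual M ξ η, hvec ξ η⟩
    · exact ⟨zero_mem _, hzero⟩
    · rintro f g ⟨hf, hf'⟩ ⟨hg, hg'⟩; exact ⟨add_mem hf hg, hadd _ _ hf' hg'⟩
    · rintro c f ⟨hf, hf'⟩; exact ⟨Submodule.smul_mem _ _ hf, hsmul _ _ hf'⟩
  obtain ⟨_, h⟩ := key
  exact h

/-- Slices, as elements of the von Neumann algebra. -/
def sl {M : VonNeumannAlgebra H} (z : ↥(tensorSq M)) (ξ η : H) : Alg M :=
  ⟨sliceL (z : HH H →L[ℂ] HH H) ξ η, sliceL_mem M z.2 ξ η⟩

/-- Slices on the right, as elements of the von Neumann algebra. -/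
def sr {M : VonNeumannAlgebra H} (z : ↥(tensorSq M)) (ξ η : H) : Alg M :=
  ⟨sliceR (z : HH H →L[ℂ] HH H) ξ η, sliceR_mem M z.2 ξ η⟩

@[simp] lemma coe_sl {M : VonNeumannAlgebra H} (z : ↥(tensorSq M)) (ξ η : H) :
    (sl z ξ η : H →L[ℂ] H) = sliceL (z : HH H →L[ℂ] HH H) ξ η := rfl

@[simp] lemma coe_sr {M : VonNeumannAlgebra H} (z : ↥(tensorSq M)) (ξ η : H) :
    (sr z ξ η : H →L[ℂ] H) = sliceR (z : HH H →L[ℂ] HH H) ξ η := rfl

lemma alg_ext {M : VonNeumannAlgebra H} {x y : Alg M}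
    (h : ∀ a b, ⟪b, (x : H →L[ℂ] H) a⟫_ℂ = ⟪b, (y : H →L[ℂ] H) a⟫_ℂ) : x = y :=
  Subtype.ext (ext_inner_op h)

lemma inner_sl {M : VonNeumannAlgebra H} (z : ↥(tensorSq M)) (ξ η a b : H) :
    ⟪b, (sl z ξ η : H →L[ℂ] H) a⟫_ℂ = ⟪tm η b, (z : HH H →L[ℂ] HH H) (tm ξ a)⟫_ℂ :=
  inner_sliceL _ _ _ _ _

lemma inner_sr {M : VonNeumannAlgebra H} (z : ↥(tensorSq M)) (ξ η a b : H) :
    ⟪b, (sr z ξ η : H →L[ℂ] H) a⟫_ℂ = ⟪tm b η, (z : HH H →L[ℂ] HH H) (tm a ξ)⟫_ℂ :=
  inner_sliceR _ _ _ _ _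

lemma norm_sl_le {M : VonNeumannAlgebra H} (z : ↥(tensorSq M)) (ξ η : H) :
    ‖sl z ξ η‖ ≤ ‖η‖ * (‖z‖ * ‖ξ‖) := norm_sliceL_le _ _ _

lemma tm_add_left (a b c : H) : tm (a + b) c = tm a c + tm b c := by
  rw [← tmL_apply, map_add]; rfl

lemma tm_add_right (a b c : H) : tm a (b + c) = tm a b + tm a c := by
  rw [← tmL_apply, map_add]; rfl

lemma tm_smul_left (t : ℂ) (a b : H) : tm (t • a) b = t • tm a b := by
  rw [← tmL_apply, map_smul]; rfl

lemma tm_smul_right (t : ℂ) (a b : H) : tm a (t • b) = t • tm a b := by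
  rw [← tmL_apply, map_smul]; rfl

lemma sl_add_left {M : VonNeumannAlgebra H} (z : ↥(tensorSq M)) (ξ ξ' η : H) :
    sl z (ξ + ξ') η = sl z ξ η + sl z ξ' η := by
  refine alg_ext fun a b => ?_
  have h : ((sl z ξ η + sl z ξ' η : Alg M) : H →L[ℂ] H)
      = (sl z ξ η : H →L[ℂ] H) + (sl z ξ' η : H →L[ℂ] H) := rfl
  rw [h, add_apply, inner_add_right, inner_sl, inner_sl, inner_sl,
    tm_add_left, map_add, inner_add_right]

lemma sl_add_right {M : VonNeumannAlgebra H} (z : ↥(tensorSq M)) (ξ η η' : H) :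
    sl z ξ (η + η') = sl z ξ η + sl z ξ η' := by
  refine alg_ext fun a b => ?_
  have h : ((sl z ξ η + sl z ξ η' : Alg M) : H →L[ℂ] H)
      = (sl z ξ η : H →L[ℂ] H) + (sl z ξ η' : H →L[ℂ] H) := rfl
  rw [h, add_apply, inner_add_right, inner_sl, inner_sl, inner_sl,
    tm_add_left, inner_add_left]

lemma sl_smul_left {M : VonNeumannAlgebra H} (z : ↥(tensorSq M)) (c : ℂ) (ξ η : H) :
    sl z (c • ξ) η = c • sl z ξ η := by
  refine alg_ext fun a b => ?_
  have h : ((c • sl z ξ η : Alg M) : H →L[ℂ] H) = c • (sl z ξ η : H →L[ℂ] H) := rfl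
  rw [h, smul_apply, inner_smul_right, inner_sl, inner_sl,
    tm_smul_left, map_smul, inner_smul_right]

lemma sl_smul_right {M : VonNeumannAlgebra H} (z : ↥(tensorSq M)) (c : ℂ) (ξ η : H) :
    sl z ξ (c • η) = (starRingEnd ℂ c) • sl z ξ η := by
  refine alg_ext fun a b => ?_
  have h : (((starRingEnd ℂ c) • sl z ξ η : Alg M) : H →L[ℂ] H)
      = (starRingEnd ℂ c) • (sl z ξ η : H →L[ℂ] H) := rfl
  rw [h, smul_apply, inner_smul_right, inner_sl, inner_sl,
    tm_smul_left, inner_smul_left]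

lemma sl_add_z {M : VonNeumannAlgebra H} (z z' : ↥(tensorSq M)) (ξ η : H) :
    sl (z + z') ξ η = sl z ξ η + sl z' ξ η := by
  refine alg_ext fun a b => ?_
  have h : ((sl z ξ η + sl z' ξ η : Alg M) : H →L[ℂ] H)
      = (sl z ξ η : H →L[ℂ] H) + (sl z' ξ η : H →L[ℂ] H) := rfl
  have h' : ((z + z' : ↥(tensorSq M)) : HH H →L[ℂ] HH H)
      = (z : HH H →L[ℂ] HH H) + (z' : HH H →L[ℂ] HH H) := rfl
  rw [h, add_apply, inner_add_right, inner_sl, inner_sl, inner_sl,
    h', add_apply, inner_add_right]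

lemma sl_smul_z {M : VonNeumannAlgebra H} (c : ℂ) (z : ↥(tensorSq M)) (ξ η : H) :
    sl (c • z) ξ η = c • sl z ξ η := by
  refine alg_ext fun a b => ?_
  have h : ((c • sl z ξ η : Alg M) : H →L[ℂ] H) = c • (sl z ξ η : H →L[ℂ] H) := rfl
  have h' : ((c • z : ↥(tensorSq M)) : HH H →L[ℂ] HH H) = c • (z : HH H →L[ℂ] HH H) := rfl
  rw [h, smul_apply, inner_smul_right, inner_sl, inner_sl,
    h', smul_apply, inner_smul_right]

/-- The bounded sesquilinear form `(η, ξ) ↦ ν((ω_{ξ,η} ⊗ id)(z))`. -/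
def sform {M : VonNeumannAlgebra H} (ν : StrongDual ℂ (Alg M)) (z : ↥(tensorSq M)) :
    H →L⋆[ℂ] H →L[ℂ] ℂ :=
  LinearMap.mkContinuous₂
    (LinearMap.mk₂'ₛₗ (starRingEnd ℂ) (RingHom.id ℂ) (fun η ξ => ν (sl z ξ η))
      (fun η η' ξ => by rw [sl_add_right, map_add])
      (fun c η ξ => by rw [sl_smul_right, map_smul])
      (fun η ξ ξ' => by rw [sl_add_left, map_add])
      (fun c η ξ => by rw [sl_smul_left, map_smul]; rfl))
    (‖ν‖ * ‖z‖) (fun η ξ => by
      have h1 := ν.le_opNorm (sl z ξ η)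
      have h2 := norm_sl_le z ξ η
      calc ‖ν (sl z ξ η)‖ ≤ ‖ν‖ * ‖sl z ξ η‖ := h1
        _ ≤ ‖ν‖ * (‖η‖ * (‖z‖ * ‖ξ‖)) := mul_le_mul_of_nonneg_left h2 (norm_nonneg _)
        _ = ‖ν‖ * ‖z‖ * ‖η‖ * ‖ξ‖ := by ring)

/-- The slice `(id ⊗ ν)(z)` of `z ∈ M ⊗̄ M` by a bounded functional `ν` on `M`: the operator
with `⟪η, (id ⊗ ν)(z) ξ⟫ = ν((ω_{ξ,η} ⊗ id)(z))`. -/
def Sop {M : VonNeumannAlgebra H} (ν : StrongDual ℂ (Alg M)) (z : ↥(tensorSq M)) : H →L[ℂ] H :=
  ContinuousLinearMap.adjoint (InnerProductSpace.continuousLinearMapOfBilin (sform ν z))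

lemma inner_Sop {M : VonNeumannAlgebra H} (ν : StrongDual ℂ (Alg M)) (z : ↥(tensorSq M))
    (ξ η : H) : ⟪η, Sop ν z ξ⟫_ℂ = ν (sl z ξ η) := by
  unfold Sop
  rw [ContinuousLinearMap.adjoint_inner_right,
    InnerProductSpace.continuousLinearMapOfBilin_apply]
  rfl

lemma norm_Sop_le {M : VonNeumannAlgebra H} (ν : StrongDual ℂ (Alg M)) (z : ↥(tensorSq M)) :
    ‖Sop ν z‖ ≤ ‖ν‖ * ‖z‖ := by
  refine ContinuousLinearMap.opNorm_le_bound _ (by positivity) fun ξ => ?_
  by_cases h0 : ‖Sop ν z ξ‖ = 0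
  · rw [h0]; positivity
  have h1 : ‖⟪Sop ν z ξ, Sop ν z ξ⟫_ℂ‖ ≤ ‖ν‖ * (‖Sop ν z ξ‖ * (‖z‖ * ‖ξ‖)) := by
    rw [inner_Sop]
    exact (ν.le_opNorm _).trans (mul_le_mul_of_nonneg_left (norm_sl_le _ _ _) (norm_nonneg _))
  have h2 : ‖⟪Sop ν z ξ, Sop ν z ξ⟫_ℂ‖ = ‖Sop ν z ξ‖ * ‖Sop ν z ξ‖ := by
    rw [inner_self_eq_norm_sq_to_K]
    norm_cast
    rw [abs_of_nonneg (sq_nonneg _), sq]
  rw [h2] at h1
  have h3 : 0 < ‖Sop ν z ξ‖ := lt_of_le_of_ne (norm_nonneg _) (Ne.symm h0)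
  have h4 : ‖Sop ν z ξ‖ * ‖Sop ν z ξ‖ ≤ ‖Sop ν z ξ‖ * (‖ν‖ * ‖z‖ * ‖ξ‖) := by
    calc _ ≤ _ := h1
      _ = _ := by ring
  exact le_of_mul_le_mul_left h4 h3

lemma Sop_add_left {M : VonNeumannAlgebra H} (ν ν' : StrongDual ℂ (Alg M))
    (z : ↥(tensorSq M)) : Sop (ν + ν') z = Sop ν z + Sop ν' z := by
  refine ext_inner_op fun a b => ?_
  rw [add_apply, inner_add_right, inner_Sop, inner_Sop, inner_Sop,
    add_apply]

lemma Sop_smul_left {M : VonNeumannAlgebra H} (c : ℂ) (ν : StrongDual ℂ (Alg M))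
    (z : ↥(tensorSq M)) : Sop (c • ν) z = c • Sop ν z := by
  refine ext_inner_op fun a b => ?_
  rw [smul_apply, inner_smul_right, inner_Sop, inner_Sop,
    smul_apply, smul_eq_mul]

lemma Sop_sub_left {M : VonNeumannAlgebra H} (ν ν' : StrongDual ℂ (Alg M))
    (z : ↥(tensorSq M)) : Sop (ν - ν') z = Sop ν z - Sop ν' z := by
  refine ext_inner_op fun a b => ?_
  rw [sub_apply, inner_sub_right, inner_Sop, inner_Sop, inner_Sop,
    sub_apply]

lemma Sop_add_right {M : VonNeumannAlgebra H} (ν : StrongDual ℂ (Alg M))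
    (z z' : ↥(tensorSq M)) : Sop ν (z + z') = Sop ν z + Sop ν z' := by
  refine ext_inner_op fun a b => ?_
  rw [add_apply, inner_add_right, inner_Sop, inner_Sop, inner_Sop,
    sl_add_z, map_add]

lemma Sop_smul_right {M : VonNeumannAlgebra H} (ν : StrongDual ℂ (Alg M)) (c : ℂ)
    (z : ↥(tensorSq M)) : Sop ν (c • z) = c • Sop ν z := by
  refine ext_inner_op fun a b => ?_
  rw [smul_apply, inner_smul_right, inner_Sop, inner_Sop,
    sl_smul_z, map_smul, smul_eq_mul]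

lemma Sop_vec {M : VonNeumannAlgebra H} (ξ₀ η₀ : H) (z : ↥(tensorSq M)) :
    Sop (vec M ξ₀ η₀) z = (sr z ξ₀ η₀ : H →L[ℂ] H) := by
  refine ext_inner_op fun a b => ?_
  rw [inner_Sop, vec_apply, inner_sl, inner_sr]

lemma continuous_Sop_left {M : VonNeumannAlgebra H} (z : ↥(tensorSq M)) :
    Continuous fun ν : StrongDual ℂ (Alg M) => Sop ν z := by
  have : LipschitzWith (Real.toNNReal ‖z‖) fun ν : StrongDual ℂ (Alg M) => Sop ν z := by
    refine LipschitzWith.of_dist_le_mul fun ν ν' => ?_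
    rw [dist_eq_norm, dist_eq_norm, ← Sop_sub_left, Real.coe_toNNReal _ (norm_nonneg z),
      mul_comm]
    exact norm_Sop_le _ _
  exact this.continuous

lemma Sop_mem {M : VonNeumannAlgebra H} {ν : StrongDual ℂ (Alg M)} (hν : ν ∈ predual M)
    (z : ↥(tensorSq M)) : Sop ν z ∈ M := by
  rw [← mem_toStarSubalgebra]
  refine predual_induction M (P := fun ν => Sop ν z ∈ M.toStarSubalgebra) ?_ ?_ ?_ ?_ ?_ hν
  · exact (isClosed_vn M).preimage (continuous_Sop_left z)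
  · intro ξ η
    rw [Sop_vec]
    exact (sr z ξ η).2
  · have h : Sop (0 : StrongDual ℂ (Alg M)) z = 0 := by
      refine ext_inner_op fun a b => ?_
      rw [inner_Sop]; simp
    rw [h]; exact zero_mem _
  · intro f g hf hg
    rw [Sop_add_left]; exact add_mem hf hg
  · intro c f hf
    rw [Sop_smul_left]; exact M.toStarSubalgebra.smul_mem hf c

end

end Pool.Agent.Lib.MP_893ae4_anV
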