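import Pool.Agent.Lib.MP_893ae4_anV.Predual

/-!
States on von Neumann algebras: norm bound, hermitian symmetry, closure properties.
-/

open scoped InnerProductSpace TensorProduct ComplexOrder Topology
open UniformSpace Filter

namespace Pool.Agent.Lib.MP_893ae4_anV

noncomputable section

universe u

variable {H : Type u} [NormedAddCommGroup H] [InnerProductSpace ℂ H] [CompleteSpace H]
variable {M : VonNeumannAlgebra H}

/-- Normal states on a von Neumann algebra: positive unital elements of the predual. -/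
def IsNormalState (M : VonNeumannAlgebra H) (ω : L1 M) : Prop :=
  (∀ x : Alg M, 0 ≤ ω (star x * x)) ∧ ω 1 = 1

/-- A state: a positive unital functional. -/
structure IsState (φ : StrongDual ℂ (Alg M)) : Prop where
  pos : ∀ x : Alg M, 0 ≤ φ (star x * x)
  one : φ 1 = 1

lemma isNormalState_iff {ω : L1 M} : IsNormalState M ω ↔ IsState (toFn ω) :=
  ⟨fun h => ⟨h.1, h.2⟩, fun h => ⟨h.pos, h.one⟩⟩

lemma inner_self_nonneg' {E : Type*} [NormedAddCommGroup E] [InnerProductSpace ℂ E] (v : E) :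
    0 ≤ ⟪v, v⟫_ℂ := by
  have h := inner_self_eq_norm_sq_to_K (𝕜 := ℂ) v
  rw [h]
  have h2 : (0 : ℂ) ≤ ((‖v‖ ^ 2 : ℝ) : ℂ) := Complex.zero_le_real.2 (sq_nonneg _)
  simpa using h2

lemma isPositive_of_inner {a : H →L[ℂ] H} (h : ∀ ξ, 0 ≤ ⟪ξ, a ξ⟫_ℂ) : a.IsPositive := by
  rw [ContinuousLinearMap.isPositive_iff_complex]
  intro ξ
  have h1 := h ξ
  have h2 : ⟪a ξ, ξ⟫_ℂ = ⟪ξ, a ξ⟫_ℂ := by
    rw [← inner_conj_symm, Complex.conj_eq_iff_im.2]
    exact (Complex.le_def.1 h1).2.symm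
  rw [h2]
  refine ⟨?_, (Complex.le_def.1 h1).1⟩
  apply Complex.ext
  · simp
  · simpa using (Complex.le_def.1 h1).2

/-- A state is nonnegative on elements which are positive operators. -/
lemma IsState.nonneg {φ : StrongDual ℂ (Alg M)} (hφ : IsState φ) {a : Alg M}
    (ha : ∀ ξ, 0 ≤ ⟪ξ, (a : H →L[ℂ] H) ξ⟫_ℂ) : 0 ≤ φ a := by
  obtain ⟨b, hb, hab⟩ := exists_sq M a.2 (isPositive_of_inner ha)
  have h : a = star (⟨b, hb⟩ : Alg M) * ⟨b, hb⟩ := Subtype.ext hab
  rw [h]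
  exact hφ.pos _

lemma coe_sub_alg (a b : Alg M) :
    ((a - b : Alg M) : H →L[ℂ] H) = (a : H →L[ℂ] H) - (b : H →L[ℂ] H) := rfl

lemma coe_add_alg (a b : Alg M) :
    ((a + b : Alg M) : H →L[ℂ] H) = (a : H →L[ℂ] H) + (b : H →L[ℂ] H) := rfl

lemma coe_smul_alg (c : ℂ) (a : Alg M) :
    ((c • a : Alg M) : H →L[ℂ] H) = c • (a : H →L[ℂ] H) := rfl

lemma coe_one_alg : ((1 : Alg M) : H →L[ℂ] H) = 1 := rfl

lemma coe_mul_alg (a b : Alg M) :
    ((a * b : Alg M) : H →L[ℂ] H) = (a : H →L[ℂ] H) * (b : H →L[ℂ] H) := rfl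

lemma coe_star_alg (a : Alg M) :
    ((star a : Alg M) : H →L[ℂ] H) = star (a : H →L[ℂ] H) := rfl

/-- `φ(x* x) ≤ ‖x‖²`. -/
lemma IsState.apply_star_mul_le {φ : StrongDual ℂ (Alg M)} (hφ : IsState φ) (x : Alg M) :
    (φ (star x * x)).re ≤ ‖x‖ ^ 2 := by
  have h1 : 0 ≤ φ ((((‖x‖ ^ 2 : ℝ)) : ℂ) • (1 : Alg M) - star x * x) := by
    refine hφ.nonneg fun ξ => ?_
    rw [coe_sub_alg, coe_smul_alg, coe_one_alg, coe_mul_alg, coe_star_alg, sub_apply,
      smul_apply, inner_sub_right, inner_smul_right, ContinuousLinearMap.star_eq_adjoint,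
      mul_apply_eq_comp, ContinuousLinearMap.adjoint_inner_right]
    have e1 : ⟪ξ, (1 : H →L[ℂ] H) ξ⟫_ℂ = ((‖ξ‖ ^ 2 : ℝ) : ℂ) := by
      have := inner_self_eq_norm_sq_to_K (𝕜 := ℂ) ξ
      simpa using this
    have e2 : ⟪(x : H →L[ℂ] H) ξ, (x : H →L[ℂ] H) ξ⟫_ℂ =
        ((‖(x : H →L[ℂ] H) ξ‖ ^ 2 : ℝ) : ℂ) := by
      have := inner_self_eq_norm_sq_to_K (𝕜 := ℂ) ((x : H →L[ℂ] H) ξ)
      simpa using this
    rw [e1, e2, ← Complex.ofReal_mul, ← Complex.ofReal_sub]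
    rw [Complex.zero_le_real]
    have h2 := (x : H →L[ℂ] H).le_opNorm ξ
    rw [norm_alg_coe] at h2
    have h3 : ‖(x : H →L[ℂ] H) ξ‖ ^ 2 ≤ (‖x‖ * ‖ξ‖) ^ 2 :=
      pow_le_pow_left₀ (norm_nonneg _) h2 2
    nlinarith
  rw [map_sub, map_smul, hφ.one, smul_eq_mul, mul_one] at h1
  have h2 := (Complex.le_def.1 h1).1
  rw [Complex.sub_re, Complex.ofReal_re, Complex.zero_re] at h2
  linarith

lemma IsState.im_eq_zero {φ : StrongDual ℂ (Alg M)} (hφ : IsState φ) (x : Alg M) :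
    (φ (star x * x)).im = 0 := (Complex.le_def.1 (hφ.pos x)).2.symm

/-- States are hermitian. -/
lemma IsState.map_star {φ : StrongDual ℂ (Alg M)} (hφ : IsState φ) (x : Alg M) :
    φ (star x) = (starRingEnd ℂ) (φ x) := by
  have h1 := hφ.im_eq_zero (x + 1)
  have h2 := hφ.im_eq_zero (x + Complex.I • (1 : Alg M))
  have h3 := hφ.im_eq_zero x
  have e1 : star (x + 1) * (x + 1) = star x * x + star x + x + 1 := by
    rw [star_add, star_one, add_mul, mul_add, mul_add, one_mul, mul_one, one_mul]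
    abel
  have e2 : star (x + Complex.I • (1 : Alg M)) * (x + Complex.I • (1 : Alg M)) =
      star x * x + Complex.I • star x - Complex.I • x + 1 := by
    rw [star_add, star_smul, star_one, add_mul, mul_add, mul_add, mul_smul_comm, mul_one,
      smul_mul_assoc, one_mul, smul_mul_smul_comm, one_mul]
    have : star Complex.I = -Complex.I := Complex.conj_I
    rw [this, neg_smul, neg_mul, Complex.I_mul_I, neg_neg, one_smul]
    abel
  rw [e1, map_add, map_add, map_add, hφ.one] at h1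
  rw [e2, map_add, map_sub, map_add, map_smul, map_smul, hφ.one] at h2
  simp only [Complex.add_im, Complex.sub_im, Complex.one_im, smul_eq_mul, Complex.mul_im,
    Complex.I_re, Complex.I_im, zero_mul, one_mul, zero_add, add_zero] at h1 h2
  apply Complex.ext
  · rw [Complex.conj_re]; linarith
  · rw [Complex.conj_im]; linarith

/-- Cauchy-Schwarz with `1`: `|φ(x)|² ≤ φ(x* x)`. -/
lemma IsState.norm_sq_le {φ : StrongDual ℂ (Alg M)} (hφ : IsState φ) (x : Alg M) :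
    ‖φ x‖ ^ 2 ≤ (φ (star x * x)).re := by
  have h1 := hφ.pos (x - (φ x) • (1 : Alg M))
  have e1 : star (x - (φ x) • (1 : Alg M)) * (x - (φ x) • (1 : Alg M)) =
      star x * x - (φ x) • star x - (starRingEnd ℂ (φ x)) • x
        + ((starRingEnd ℂ (φ x)) * φ x) • (1 : Alg M) := by
    rw [star_sub, star_smul, star_one, sub_mul, mul_sub, mul_sub, mul_smul_comm, mul_one,
      smul_mul_assoc, one_mul, smul_mul_smul_comm, one_mul]
    have : star (φ x) = starRingEnd ℂ (φ x) := rfl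
    rw [this]
    abel
  rw [e1, map_add, map_sub, map_sub, map_smul, map_smul, map_smul, hφ.one, hφ.map_star] at h1
  have h2 := (Complex.le_def.1 h1).1
  simp only [smul_eq_mul, mul_one, Complex.add_re, Complex.sub_re, Complex.zero_re] at h2
  have h3 : (φ x * (starRingEnd ℂ) (φ x)).re = ‖φ x‖ ^ 2 := by
    rw [Complex.mul_conj, Complex.ofReal_re, Complex.normSq_eq_norm_sq]
  have h4 : ((starRingEnd ℂ) (φ x) * φ x).re = ‖φ x‖ ^ 2 := by rw [mul_comm, h3]
  rw [h3, h4] at h2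
  linarith

lemma IsState.norm_apply_le {φ : StrongDual ℂ (Alg M)} (hφ : IsState φ) (x : Alg M) :
    ‖φ x‖ ≤ ‖x‖ := by
  have h := (hφ.norm_sq_le x).trans (hφ.apply_star_mul_le x)
  exact le_of_sq_le_sq h (norm_nonneg _)

lemma IsState.norm_le_one {φ : StrongDual ℂ (Alg M)} (hφ : IsState φ) : ‖φ‖ ≤ 1 :=
  ContinuousLinearMap.opNorm_le_bound _ zero_le_one fun x => by
    rw [one_mul]; exact hφ.norm_apply_le x

lemma IsNormalState.norm_le_one {ω : L1 M} (h : IsNormalState M ω) : ‖ω‖ ≤ 1 := by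
  rw [← norm_toFn]
  exact (isNormalState_iff.1 h).norm_le_one

lemma isClosed_normalStates (M : VonNeumannAlgebra H) : IsClosed {ω : L1 M | IsNormalState M ω} := by
  have h : {ω : L1 M | IsNormalState M ω} =
      (⋂ x : Alg M, {ω : L1 M | 0 ≤ ω (star x * x)}) ∩ {ω : L1 M | ω 1 = 1} := by
    ext ω
    simp only [IsNormalState, Set.mem_ofPred_eq, Set.mem_inter_iff, Set.mem_iInter]
  rw [h]
  have hc : ∀ y : Alg M, Continuous fun ω : L1 M => ω y := fun y =>
    toFn.continuous.clm_apply continuous_const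
  refine IsClosed.inter (isClosed_iInter fun x => ?_) (isClosed_eq (hc 1) continuous_const)
  exact isClosed_le continuous_const (hc _)

lemma convex_normalStates (M : VonNeumannAlgebra H) :
    Convex ℝ {ω : L1 M | IsNormalState M ω} := by
  intro ω hω ω' hω' a b ha hb hab
  have hr : ∀ (r : ℝ) (ρ : L1 M) (y : Alg M), (r • ρ) y = (r : ℂ) * ρ y := by
    intro r ρ y
    have : (r • ρ : L1 M) = (r : ℂ) • ρ := (Complex.coe_smul r ρ).symm
    rw [this, map_smul, smul_apply, smul_eq_mul]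
  refine ⟨fun x => ?_, ?_⟩
  · rw [map_add, add_apply, hr, hr]
    have h1 := hω.1 x
    have h2 := hω'.1 x
    have ha' : (0 : ℂ) ≤ (a : ℂ) := Complex.zero_le_real.2 ha
    have hb' : (0 : ℂ) ≤ (b : ℂ) := Complex.zero_le_real.2 hb
    exact add_nonneg (mul_nonneg ha' h1) (mul_nonneg hb' h2)
  · rw [map_add, add_apply, hr, hr, hω.2, hω'.2, mul_one, mul_one, ← Complex.ofReal_add, hab,
      Complex.ofReal_one]

lemma isClosed_tendsto {ι E F : Type*} [NormedAddCommGroup E] [NormedAddCommGroup F]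
    (l : Filter ι) (T : ι → E → F) (T' : E → F) (C : ℝ) (hC : 0 ≤ C)
    (hT : ∀ i v w, ‖T i v - T i w‖ ≤ C * ‖v - w‖)
    (hT' : ∀ v w, ‖T' v - T' w‖ ≤ C * ‖v - w‖) :
    IsClosed {v | Tendsto (fun i => T i v) l (𝓝 (T' v))} := by
  rw [← isSeqClosed_iff_isClosed]
  intro v w hv hvw
  rw [Set.mem_ofPred_eq, Metric.tendsto_nhds]
  intro ε hε
  have h1 : ∀ᶠ n in atTop, ‖v n - w‖ < ε / (3 * (C + 1)) := by
    have h := tendsto_iff_norm_sub_tendsto_zero.1 hvw
    exact h.eventually_lt_const (by positivity)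
  obtain ⟨n, hn⟩ := h1.exists
  have h2 : ∀ᶠ i in l, dist (T i (v n)) (T' (v n)) < ε / 3 :=
    Metric.tendsto_nhds.1 (hv n) (ε / 3) (by positivity)
  have h3 : C * ‖v n - w‖ < ε / 3 := by
    have h4 : C * ‖v n - w‖ ≤ C * (ε / (3 * (C + 1))) := mul_le_mul_of_nonneg_left hn.le hC
    have h5 : C * (ε / (3 * (C + 1))) < ε / 3 := by
      rw [mul_div_assoc', div_lt_div_iff₀ (by positivity) (by positivity)]
      nlinarith
    linarith
  filter_upwards [h2] with i hi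
  rw [dist_eq_norm] at hi ⊢
  calc ‖T i w - T' w‖ = ‖(T i w - T i (v n)) + (T i (v n) - T' (v n)) + (T' (v n) - T' w)‖ := by
        congr 1; abel
    _ ≤ ‖T i w - T i (v n)‖ + ‖T i (v n) - T' (v n)‖ + ‖T' (v n) - T' w‖ := norm_add₃_le
    _ < ε / 3 + ε / 3 + ε / 3 := by
        have a1 : ‖T i w - T i (v n)‖ < ε / 3 := by
          rw [norm_sub_rev]; exact (hT i _ _).trans_lt h3
        have a2 : ‖T' (v n) - T' w‖ < ε / 3 := (hT' _ _).trans_lt h3
        linarith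
    _ = ε := by ring

lemma norm_L1_le {M : VonNeumannAlgebra H} (f : L1 M) {K : ℝ} (hK : 0 ≤ K)
    (h : ∀ x : Alg M, ‖f x‖ ≤ K * ‖x‖) : ‖f‖ ≤ K := by
  rw [← norm_toFn]
  exact ContinuousLinearMap.opNorm_le_bound _ hK h

end

end Pool.Agent.Lib.MP_893ae4_anV
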