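import Mathlib

/-!
Hilbert space tensor square, tensor products of operators, slices of operators on the tensor
square, the von Neumann algebra tensor square.
-/

open scoped InnerProductSpace TensorProduct
open UniformSpace

namespace Pool.Agent.Lib.MP_893ae4_anV

noncomputable section

universe u

variable (H : Type u) [NormedAddCommGroup H] [InnerProductSpace ℂ H]

/-- The Hilbert space tensor square `H ⊗ H`: the completion of the algebraic tensor product with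
respect to the inner product `⟪a ⊗ b, c ⊗ d⟫ = ⟪a, c⟫ ⟪b, d⟫`. -/
def HH : Type u := Completion (H ⊗[ℂ] H)

instance : NormedAddCommGroup (HH H) :=
  inferInstanceAs (NormedAddCommGroup (Completion (H ⊗[ℂ] H)))

instance : InnerProductSpace ℂ (HH H) :=
  inferInstanceAs (InnerProductSpace ℂ (Completion (H ⊗[ℂ] H)))

instance : CompleteSpace (HH H) :=
  inferInstanceAs (CompleteSpace (Completion (H ⊗[ℂ] H)))

variable {H}

/-- The inclusion of the algebraic tensor product in the Hilbert space tensor square. -/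
def incl : (H ⊗[ℂ] H) →L[ℂ] HH H :=
  (Completion.toComplL : (H ⊗[ℂ] H) →L[ℂ] Completion (H ⊗[ℂ] H))

/-- The elementary tensor `ξ ⊗ η` in the Hilbert space tensor square. -/
def tm (ξ η : H) : HH H := incl (ξ ⊗ₜ[ℂ] η : H ⊗[ℂ] H)

lemma inner_incl (a b : H ⊗[ℂ] H) : ⟪incl a, incl b⟫_ℂ = ⟪a, b⟫_ℂ :=
  Completion.inner_coe a b

lemma norm_incl (a : H ⊗[ℂ] H) : ‖incl a‖ = ‖a‖ :=
  Completion.norm_coe a

lemma denseRange_incl : DenseRange (incl : (H ⊗[ℂ] H) →L[ℂ] HH H) :=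
  Completion.denseRange_coe

lemma isUniformInducing_incl : IsUniformInducing (incl : (H ⊗[ℂ] H) →L[ℂ] HH H) :=
  Completion.isUniformInducing_coe _

lemma inner_tm (ξ η ξ' η' : H) :
    ⟪tm ξ η, tm ξ' η'⟫_ℂ = ⟪ξ, ξ'⟫_ℂ * ⟪η, η'⟫_ℂ := by
  unfold tm
  rw [inner_incl, TensorProduct.inner_tmul]

lemma norm_tm (ξ η : H) : ‖tm ξ η‖ = ‖ξ‖ * ‖η‖ := by
  unfold tm
  rw [norm_incl, TensorProduct.norm_tmul]

/-- Bilinear continuous map `(ξ, η) ↦ ξ ⊗ η`. -/
def tmL : H →L[ℂ] H →L[ℂ] HH H :=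
  (ContinuousLinearMap.compL ℂ H (H ⊗[ℂ] H) (HH H) incl) ∘L (TensorProduct.mkL ℂ H H)

lemma tmL_apply (ξ η : H) : tmL ξ η = tm ξ η := rfl

/-- Density of elementary tensors, in the form of an extensionality lemma. -/
lemma ext_tm {E : Type*} [NormedAddCommGroup E] [NormedSpace ℂ E] {f g : HH H →L[ℂ] E}
    (h : ∀ ξ η, f (tm ξ η) = g (tm ξ η)) : f = g := by
  ext z
  refine denseRange_incl.induction_on z (isClosed_eq f.continuous g.continuous) ?_
  intro a
  induction a using TensorProduct.induction_on with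
  | zero => rw [map_zero, map_zero, map_zero]
  | tmul ξ η => exact h ξ η
  | add a b ha hb =>
    rw [map_add, map_add, map_add, ha, hb]

/-- `L ξ η = ξ ⊗ η`. -/
def Lop (ξ : H) : H →L[ℂ] HH H := tmL ξ

/-- `R ξ η = η ⊗ ξ`. -/
def Rop (ξ : H) : H →L[ℂ] HH H := tmL.flip ξ

@[simp] lemma Lop_apply (ξ η : H) : Lop ξ η = tm ξ η := rfl
@[simp] lemma Rop_apply (ξ η : H) : Rop ξ η = tm η ξ := rfl

lemma norm_Lop_le (ξ : H) : ‖Lop ξ‖ ≤ ‖ξ‖ := by
  refine ContinuousLinearMap.opNorm_le_bound _ (norm_nonneg _) fun η => ?_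
  rw [Lop_apply, norm_tm]

lemma norm_Rop_le (ξ : H) : ‖Rop ξ‖ ≤ ‖ξ‖ := by
  refine ContinuousLinearMap.opNorm_le_bound _ (norm_nonneg _) fun η => ?_
  rw [Rop_apply, norm_tm, mul_comm]

/-- Two operators on the Hilbert tensor square agree as soon as their matrix coefficients
at elementary tensors agree. -/
lemma ext_inner_tm {f g : HH H →L[ℂ] HH H}
    (h : ∀ ξ η ξ' η', ⟪tm ξ' η', f (tm ξ η)⟫_ℂ = ⟪tm ξ' η', g (tm ξ η)⟫_ℂ) : f = g := by
  refine ext_tm fun ξ η => ?_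
  have key : (innerSL ℂ (f (tm ξ η)) : HH H →L[ℂ] ℂ) = innerSL ℂ (g (tm ξ η)) := by
    refine ext_tm fun ξ' η' => ?_
    rw [innerSL_apply_apply, innerSL_apply_apply, ← inner_conj_symm, h, inner_conj_symm]
  exact (innerSL_inj (𝕜 := ℂ)).1 key

/-- The tensor product `x ⊗ y` of two bounded operators, as an operator on the Hilbert tensor
square. -/
def tens (x y : H →L[ℂ] H) : HH H →L[ℂ] HH H :=
  ((incl : (H ⊗[ℂ] H) →L[ℂ] HH H) ∘L (TensorProduct.mapL x y)).extend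
    (incl : (H ⊗[ℂ] H) →L[ℂ] HH H)

@[simp] lemma tens_tm (x y : H →L[ℂ] H) (ξ η : H) : tens x y (tm ξ η) = tm (x ξ) (y η) := by
  unfold tens
  exact ContinuousLinearMap.extend_eq
    ((incl : (H ⊗[ℂ] H) →L[ℂ] HH H) ∘L (TensorProduct.mapL x y))
    (e := (incl : (H ⊗[ℂ] H) →L[ℂ] HH H))
    denseRange_incl isUniformInducing_incl
    (ξ ⊗ₜ[ℂ] η)

variable [CompleteSpace H]

lemma star_tens (x y : H →L[ℂ] H) : star (tens x y) = tens (star x) (star y) := by
  refine ext_inner_tm fun ξ η ξ' η' => ?_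
  rw [ContinuousLinearMap.star_eq_adjoint, ContinuousLinearMap.adjoint_inner_right, tens_tm,
    tens_tm, inner_tm, inner_tm, ContinuousLinearMap.star_eq_adjoint,
    ContinuousLinearMap.star_eq_adjoint, ContinuousLinearMap.adjoint_inner_right,
    ContinuousLinearMap.adjoint_inner_right]

lemma tens_mul (x y x' y' : H →L[ℂ] H) : tens x y * tens x' y' = tens (x * x') (y * y') := by
  refine ext_tm fun ξ η => ?_
  simp

/-- Slice `(ω_{ξ,η} ⊗ id)(z)` of an operator `z` on the Hilbert tensor square, where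
`ω_{ξ,η}(x) = ⟪η, x ξ⟫`. -/
def sliceL (z : HH H →L[ℂ] HH H) (ξ η : H) : H →L[ℂ] H :=
  (ContinuousLinearMap.adjoint (Lop η)) ∘L z ∘L (Lop ξ)

/-- Slice `(id ⊗ ω_{ξ,η})(z)` of an operator `z` on the Hilbert tensor square. -/
def sliceR (z : HH H →L[ℂ] HH H) (ξ η : H) : H →L[ℂ] H :=
  (ContinuousLinearMap.adjoint (Rop η)) ∘L z ∘L (Rop ξ)

lemma inner_sliceL (z : HH H →L[ℂ] HH H) (ξ η a b : H) :
    ⟪b, sliceL z ξ η a⟫_ℂ = ⟪tm η b, z (tm ξ a)⟫_ℂ := by
  unfold sliceL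
  simp [ContinuousLinearMap.adjoint_inner_right]

lemma inner_sliceR (z : HH H →L[ℂ] HH H) (ξ η a b : H) :
    ⟪b, sliceR z ξ η a⟫_ℂ = ⟪tm b η, z (tm a ξ)⟫_ℂ := by
  unfold sliceR
  simp [ContinuousLinearMap.adjoint_inner_right]

lemma norm_sliceL_le (z : HH H →L[ℂ] HH H) (ξ η : H) :
    ‖sliceL z ξ η‖ ≤ ‖η‖ * (‖z‖ * ‖ξ‖) := by
  unfold sliceL
  refine (ContinuousLinearMap.opNorm_comp_le _ _).trans ?_
  refine mul_le_mul ?_ ((ContinuousLinearMap.opNorm_comp_le _ _).trans ?_) (norm_nonneg _)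
    (norm_nonneg _)
  · rw [LinearIsometryEquiv.norm_map]; exact norm_Lop_le η
  · exact mul_le_mul_of_nonneg_left (norm_Lop_le ξ) (norm_nonneg _)

lemma norm_sliceR_le (z : HH H →L[ℂ] HH H) (ξ η : H) :
    ‖sliceR z ξ η‖ ≤ ‖η‖ * (‖z‖ * ‖ξ‖) := by
  unfold sliceR
  refine (ContinuousLinearMap.opNorm_comp_le _ _).trans ?_
  refine mul_le_mul ?_ ((ContinuousLinearMap.opNorm_comp_le _ _).trans ?_) (norm_nonneg _)
    (norm_nonneg _)
  · rw [LinearIsometryEquiv.norm_map]; exact norm_Rop_le η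
  · exact mul_le_mul_of_nonneg_left (norm_Rop_le ξ) (norm_nonneg _)

/-- Operators are determined by their matrix coefficients. -/
lemma ext_inner_op {f g : H →L[ℂ] H} (h : ∀ a b, ⟪b, f a⟫_ℂ = ⟪b, g a⟫_ℂ) : f = g := by
  ext a
  exact ext_inner_left ℂ fun b => h a b

lemma sliceL_comm {z : HH H →L[ℂ] HH H} {g : H →L[ℂ] H} (hz : tens 1 g * z = z * tens 1 g)
    (ξ η : H) : g * sliceL z ξ η = sliceL z ξ η * g := by
  refine ext_inner_op fun a b => ?_
  have h1 := congrArg (fun w : HH H →L[ℂ] HH H => ⟪tm η b, w (tm ξ a)⟫_ℂ) hz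
  simp only [mul_apply_eq_comp, tens_tm] at h1
  rw [mul_apply_eq_comp, mul_apply_eq_comp, inner_sliceL,
    ← ContinuousLinearMap.adjoint_inner_left, inner_sliceL]
  rw [← ContinuousLinearMap.adjoint_inner_left, ← ContinuousLinearMap.star_eq_adjoint,
    star_tens, tens_tm] at h1
  simpa [ContinuousLinearMap.star_eq_adjoint] using h1

lemma sliceR_comm {z : HH H →L[ℂ] HH H} {g : H →L[ℂ] H} (hz : tens g 1 * z = z * tens g 1)
    (ξ η : H) : g * sliceR z ξ η = sliceR z ξ η * g := by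
  refine ext_inner_op fun a b => ?_
  have h1 := congrArg (fun w : HH H →L[ℂ] HH H => ⟪tm b η, w (tm a ξ)⟫_ℂ) hz
  simp only [mul_apply_eq_comp, tens_tm] at h1
  rw [mul_apply_eq_comp, mul_apply_eq_comp, inner_sliceR,
    ← ContinuousLinearMap.adjoint_inner_left, inner_sliceR]
  rw [← ContinuousLinearMap.adjoint_inner_left, ← ContinuousLinearMap.star_eq_adjoint,
    star_tens, tens_tm] at h1
  simpa [ContinuousLinearMap.star_eq_adjoint] using h1

/-- The von Neumann algebra tensor square `M ⊗̄ M`: the double commutant of the set of operators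
`x ⊗ y` with `x, y ∈ M`. -/
def tensorSq (M : VonNeumannAlgebra H) : StarSubalgebra ℂ (HH H →L[ℂ] HH H) :=
  StarSubalgebra.centralizer ℂ (StarSubalgebra.centralizer ℂ
    {z : HH H →L[ℂ] HH H | ∃ x ∈ M, ∃ y ∈ M, z = tens x y} : Set (HH H →L[ℂ] HH H))

lemma tens_mem_tensorSq (M : VonNeumannAlgebra H) {x y : H →L[ℂ] H} (hx : x ∈ M) (hy : y ∈ M) :
    tens x y ∈ tensorSq M := by
  unfold tensorSq
  rw [StarSubalgebra.mem_centralizer_iff]
  intro g hg
  have hg' := (StarSubalgebra.mem_centralizer_iff ℂ).1 hg _ ⟨x, hx, y, hy, rfl⟩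
  refine ⟨hg'.1.symm, ?_⟩
  have h2 := congrArg star hg'.2
  rw [star_mul, star_mul, star_star] at h2
  exact h2

lemma tens_one_mem_centralizer (M : VonNeumannAlgebra H) {g : H →L[ℂ] H}
    (hg : g ∈ M.commutant) :
    tens 1 g ∈ StarSubalgebra.centralizer ℂ
      {z : HH H →L[ℂ] HH H | ∃ x ∈ M, ∃ y ∈ M, z = tens x y} := by
  rw [StarSubalgebra.mem_centralizer_iff]
  rintro z ⟨x, hx, y, hy, rfl⟩
  rw [star_tens]
  constructor
  · rw [tens_mul, tens_mul, (VonNeumannAlgebra.mem_commutant_iff.1 hg) y hy]; simp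
  · rw [tens_mul, tens_mul, (VonNeumannAlgebra.mem_commutant_iff.1 hg) (star y)
      (star_mem hy)]; simp

lemma tens_one_mem_centralizer' (M : VonNeumannAlgebra H) {g : H →L[ℂ] H}
    (hg : g ∈ M.commutant) :
    tens g 1 ∈ StarSubalgebra.centralizer ℂ
      {z : HH H →L[ℂ] HH H | ∃ x ∈ M, ∃ y ∈ M, z = tens x y} := by
  rw [StarSubalgebra.mem_centralizer_iff]
  rintro z ⟨x, hx, y, hy, rfl⟩
  rw [star_tens]
  constructor
  · rw [tens_mul, tens_mul, (VonNeumannAlgebra.mem_commutant_iff.1 hg) x hx]; simp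
  · rw [tens_mul, tens_mul, (VonNeumannAlgebra.mem_commutant_iff.1 hg) (star x)
      (star_mem hx)]; simp

lemma sliceL_mem (M : VonNeumannAlgebra H) {z : HH H →L[ℂ] HH H} (hz : z ∈ tensorSq M)
    (ξ η : H) : sliceL z ξ η ∈ M := by
  rw [← VonNeumannAlgebra.commutant_commutant M, VonNeumannAlgebra.mem_commutant_iff]
  intro g hg
  refine sliceL_comm ?_ ξ η
  exact ((StarSubalgebra.mem_centralizer_iff ℂ).1 hz _ (tens_one_mem_centralizer M hg)).1

lemma sliceR_mem (M : VonNeumannAlgebra H) {z : HH H →L[ℂ] HH H} (hz : z ∈ tensorSq M)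
    (ξ η : H) : sliceR z ξ η ∈ M := by
  rw [← VonNeumannAlgebra.commutant_commutant M, VonNeumannAlgebra.mem_commutant_iff]
  intro g hg
  refine sliceR_comm ?_ ξ η
  exact ((StarSubalgebra.mem_centralizer_iff ℂ).1 hz _ (tens_one_mem_centralizer' M hg)).1

end

end Pool.Agent.Lib.MP_893ae4_anV
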